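import Pool.Agent.helper95.LK.Exc2
import Pool.Agent.helper11.SG.Square

/-! # The number of exceptional prime powers -/

namespace Pool.Agent.helper95.LK

open NumberField Finset Pool.Agent.helper95.LC Pool.Agent.helper11.SG

universe u

/-- The number of exceptional primes for a fixed odd exponent. -/
theorem exc_fixed (h : ℕ) (hodd : Odd h) {ε δ : ℝ} (hε : 0 < ε) (hδ : 0 < δ) : ∃ C : ℝ, 0 < C ∧
    ∀ x : ℕ, ∀ B : Finset ℕ, (∀ p ∈ B, p.Prime ∧ p ≤ x ∧ ¬ Good.{u} ε h p) →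
      (B.card : ℝ) ≤ C * (x : ℝ) ^ δ := by
  classical
  obtain ⟨C, hC, hstep⟩ := exc_step.{u} h hodd hε hδ
  set t : ℝ := (2 : ℝ) ^ (-(δ / 2)) with ht
  have ht0 : 0 < t := by positivity
  have ht1 : t < 1 := by
    rw [ht]
    exact Real.rpow_lt_one_of_one_lt_of_neg (by norm_num) (by linarith)
  have h1t : 0 < 1 - t := by linarith
  refine ⟨C / (1 - t), by positivity, ?_⟩
  intro x
  induction x using Nat.strong_induction_on with
  | _ x ih =>
    intro B hB
    rcases Nat.lt_or_ge x 2 with hx | hx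
    · have h1 : B = ∅ := by
        apply Finset.eq_empty_of_forall_notMem
        intro p hp
        have h2 := (hB p hp).1.two_le
        have h3 := (hB p hp).2.1
        omega
      rw [h1, card_empty, Nat.cast_zero]
      positivity
    · have hsq : Nat.sqrt x < x := Nat.sqrt_lt_self (by omega)
      have h1 := ih (Nat.sqrt x) hsq (B.filter fun p => p ≤ Nat.sqrt x) (by
        intro p hp
        rw [mem_filter] at hp
        exact ⟨(hB p hp.1).1, hp.2, (hB p hp.1).2.2⟩)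
      have h2 := hstep x (by omega) (B.filter fun p => ¬ p ≤ Nat.sqrt x) (by
        intro p hp
        rw [mem_filter, not_le, Nat.sqrt_lt'] at hp
        exact ⟨(hB p hp.1).1, (hB p hp.1).2.1, hp.2, (hB p hp.1).2.2⟩)
      have h3 : ((B.filter fun p => p ≤ Nat.sqrt x).card : ℝ) +
          ((B.filter fun p => ¬ p ≤ Nat.sqrt x).card : ℝ) = B.card := by
        exact_mod_cast card_filter_add_card_filter_not (s := B) (fun p => p ≤ Nat.sqrt x)
      have hx0 : (0 : ℝ) < x := by exact_mod_cast (by omega : 0 < x)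
      have hx2 : (2 : ℝ) ≤ x := by exact_mod_cast hx
      have h4 : ((Nat.sqrt x : ℕ) : ℝ) ^ δ ≤ t * (x : ℝ) ^ δ := by
        calc ((Nat.sqrt x : ℕ) : ℝ) ^ δ ≤ (√(x : ℝ)) ^ δ :=
              Real.rpow_le_rpow (by positivity) Real.nat_sqrt_le_real_sqrt hδ.le
          _ = (x : ℝ) ^ (δ / 2) := by
              rw [Real.sqrt_eq_rpow, ← Real.rpow_mul hx0.le]
              congr 1
              ring
          _ = (x : ℝ) ^ (-(δ / 2)) * (x : ℝ) ^ δ := by
              rw [← Real.rpow_add hx0]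
              congr 1
              ring
          _ ≤ t * (x : ℝ) ^ δ := by
              apply mul_le_mul_of_nonneg_right _ (by positivity)
              exact Real.rpow_le_rpow_of_nonpos (by norm_num) hx2 (by linarith)
      have h5 : C / (1 - t) * (((Nat.sqrt x : ℕ) : ℝ) ^ δ) ≤ C / (1 - t) * (t * (x : ℝ) ^ δ) :=
        mul_le_mul_of_nonneg_left h4 (by positivity)
      have h6 : C / (1 - t) * (t * (x : ℝ) ^ δ) + C * (x : ℝ) ^ δ = C / (1 - t) * (x : ℝ) ^ δ := by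
        field_simp
        ring
      linarith

/-- `q` is exceptional for the loss `ε`. -/
def Exc (ε : ℝ) (q : ℕ) : Prop := ∃ (K : Type u) (_ : Field K) (_ : Finite K), Nat.card K = q ∧
  ∀ m : ℕ, Big K m → (m : ℝ) < (q : ℝ) ^ (3 / 2 - ε : ℝ)

lemma exc_cases {ε : ℝ} (hε : 0 < ε) {q : ℕ} (hq : Exc.{u} ε q) :
    ∃ p h : ℕ, p.Prime ∧ Odd h ∧ q = p ^ h ∧ ¬ Good.{u} ε h p := by
  obtain ⟨K, _, _, hK, hbig⟩ := hq
  have := Fintype.ofFinite K
  obtain ⟨p, hchar⟩ := CharP.exists K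
  obtain ⟨h, hp, hcard⟩ := FiniteField.card K p
  rw [← Nat.card_eq_fintype_card, hK] at hcard
  refine ⟨p, h, hp, ?_, hcard, ?_⟩
  · rw [← Nat.not_even_iff_odd]
    rintro ⟨l, hl⟩
    have h1 : Nat.card K = (p ^ l) ^ 2 := by
      rw [hK, hcard, hl, ← pow_mul]
      congr 1
      ring
    have h2 := hbig _ (big_square h1)
    have hq1 : (1 : ℝ) ≤ q := by
      have : 0 < q := by rw [← hK]; exact Nat.card_pos
      exact_mod_cast this
    have h3 : (q : ℝ) ^ (3 / 2 - ε : ℝ) ≤ (q : ℝ) ^ (3 / 2 : ℝ) :=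
      Real.rpow_le_rpow_of_exponent_le hq1 (by linarith)
    have h4 : (q : ℝ) ^ (3 / 2 : ℝ) = (((p ^ l) ^ 3 : ℕ) : ℝ) := by
      rw [← hK, h1]
      push_cast
      rw [← Real.rpow_natCast _ 2, ← Real.rpow_mul (by positivity), ← Real.rpow_natCast _ 3]
      norm_num
    linarith
  · intro hgood
    obtain ⟨k, hk, hB⟩ := hgood K (by rw [hK, hcard])
    have h1 := hbig k hB
    rw [hK] at hk
    linarith

/-- The number of exceptional prime powers up to `X`. -/
theorem exc_all {ε δ : ℝ} (hε : 0 < ε) (hδ : 0 < δ) : ∃ C : ℝ, 0 < C ∧ ∀ X : ℕ, ∀ B : Finset ℕ,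
    (∀ q ∈ B, q ≤ X ∧ Exc.{u} ε q) → (B.card : ℝ) ≤ C * (X : ℝ) ^ δ := by
  classical
  have hfix : ∀ h : ℕ, ∃ C : ℝ, 0 < C ∧ (Odd h → ∀ x : ℕ, ∀ B : Finset ℕ,
      (∀ p ∈ B, p.Prime ∧ p ≤ x ∧ ¬ Good.{u} ε h p) → (B.card : ℝ) ≤ C * (x : ℝ) ^ δ) := by
    intro h
    by_cases hh : Odd h
    · obtain ⟨C, hC, hC'⟩ := exc_fixed.{u} h hh hε hδ
      exact ⟨C, hC, fun _ => hC'⟩
    · exact ⟨1, one_pos, fun h => absurd h hh⟩
  choose Ch hCh hfix using hfix
  set h₀ : ℕ := ⌈2 / δ⌉₊ + 1 with hh₀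
  have hh₀1 : 1 ≤ h₀ := by omega
  have hh₀r : (0 : ℝ) < h₀ := by exact_mod_cast hh₀1
  have hh₀δ : (1 : ℝ) / h₀ ≤ δ / 2 := by
    have h1 : 2 / δ ≤ h₀ := by
      calc 2 / δ ≤ (⌈2 / δ⌉₊ : ℝ) := Nat.le_ceil _
        _ ≤ h₀ := by
          have : ⌈2 / δ⌉₊ ≤ h₀ := by omega
          exact_mod_cast this
    rw [div_le_iff₀ hδ] at h1
    rw [div_le_iff₀ hh₀r]
    linarith
  have hlog2 : 0 < Real.log 2 := Real.log_pos (by norm_num)
  set C₄ : ℝ := 1 / (δ / 2 * Real.log 2) + 1 with hC₄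
  have hC₄0 : 0 < C₄ := by positivity
  have hsum0 : 0 ≤ ∑ h ∈ Finset.range h₀, Ch h := Finset.sum_nonneg fun h _ => (hCh h).le
  refine ⟨∑ h ∈ Finset.range h₀, Ch h + C₄, by positivity, ?_⟩
  intro X B hB
  rcases Nat.eq_zero_or_pos X with hX | hX
  · have h1 : B = ∅ := by
      apply Finset.eq_empty_of_forall_notMem
      intro q hq
      obtain ⟨h2, h3⟩ := hB q hq
      obtain ⟨p, h, hp, -, rfl, -⟩ := exc_cases hε h3
      have := Nat.pow_pos (n := h) hp.pos
      omega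
    rw [h1, card_empty, Nat.cast_zero]
    positivity
  have hX1 : (1 : ℝ) ≤ X := by exact_mod_cast hX
  have hX0 : (0 : ℝ) < X := by linarith
  let P : ℕ → Finset ℕ := fun h => (Finset.Icc 1 X).filter fun p => p.Prime ∧ Odd h ∧
    ¬ Good.{u} ε h p
  set Y : ℕ := ⌊(X : ℝ) ^ ((1 : ℝ) / h₀)⌋₊ with hY
  have hcover : B ⊆ (Finset.range h₀).biUnion (fun h => (P h).image fun p => p ^ h) ∪
      ((Finset.range (Nat.log 2 X + 1)) ×ˢ (Finset.Icc 1 Y)).image fun x => x.2 ^ x.1 := by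
    intro q hq
    obtain ⟨hqX, hqE⟩ := hB q hq
    obtain ⟨p, h, hp, hodd, rfl, hnot⟩ := exc_cases hε hqE
    rw [mem_union]
    by_cases hh : h < h₀
    · left
      rw [mem_biUnion]
      refine ⟨h, mem_range.2 hh, ?_⟩
      rw [mem_image]
      refine ⟨p, ?_, rfl⟩
      rw [mem_filter, mem_Icc]
      refine ⟨⟨hp.one_lt.le, ?_⟩, hp, hodd, hnot⟩
      exact (Nat.le_self_pow hodd.pos.ne' p).trans hqX
    · right
      push Not at hh
      rw [mem_image]
      refine ⟨(h, p), ?_, rfl⟩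
      rw [mem_product, mem_range, mem_Icc]
      refine ⟨?_, hp.one_lt.le, ?_⟩
      · have h1 : 2 ^ h ≤ X := (Nat.pow_le_pow_left hp.two_le h).trans hqX
        have h2 : h ≤ Nat.log 2 X := Nat.le_log_of_pow_le (by norm_num) h1
        exact Nat.lt_succ_of_le h2
      · apply Nat.le_floor
        have h1 : p ^ h₀ ≤ X := (Nat.pow_le_pow_right hp.pos hh).trans hqX
        have h2 : ((p : ℝ)) ^ h₀ ≤ X := by exact_mod_cast h1
        have h3 := Real.rpow_le_rpow (by positivity) h2 (show (0 : ℝ) ≤ 1 / h₀ by positivity)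
        rw [← Real.rpow_natCast, ← Real.rpow_mul (by positivity), mul_one_div_cancel hh₀r.ne',
          Real.rpow_one] at h3
        exact h3
  have h1 := (card_le_card hcover).trans (card_union_le _ _)
  have h2 : ((Finset.range h₀).biUnion (fun h => (P h).image fun p => p ^ h)).card ≤
      ∑ h ∈ Finset.range h₀, (P h).card :=
    card_biUnion_le.trans (Finset.sum_le_sum fun h _ => card_image_le)
  have h3 : (((Finset.range (Nat.log 2 X + 1)) ×ˢ (Finset.Icc 1 Y)).image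
      fun x : ℕ × ℕ => x.2 ^ x.1).card ≤ (Nat.log 2 X + 1) * Y := by
    refine card_image_le.trans ?_
    rw [card_product, card_range, Nat.card_Icc]
    simp
  have h4 : ∀ h ∈ Finset.range h₀, ((P h).card : ℝ) ≤ Ch h * (X : ℝ) ^ δ := by
    intro h _
    by_cases hodd : Odd h
    · apply hfix h hodd X
      intro p hp
      rw [mem_filter, mem_Icc] at hp
      exact ⟨hp.2.1, hp.1.2, hp.2.2.2⟩
    · have h5 : P h = ∅ := by
        apply Finset.eq_empty_of_forall_notMem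
        intro p hp
        rw [mem_filter] at hp
        exact hodd hp.2.2.1
      rw [h5, card_empty, Nat.cast_zero]
      have := hCh h
      positivity
  have h5 : ((Nat.log 2 X : ℕ) : ℝ) + 1 ≤ C₄ * (X : ℝ) ^ (δ / 2) := by
    have h6 : ((Nat.log 2 X : ℕ) : ℝ) ≤ Real.log X / Real.log 2 := by
      have h7 : ((2 ^ Nat.log 2 X : ℕ) : ℝ) ≤ X := by
        exact_mod_cast Nat.pow_log_le_self 2 hX.ne'
      have h8 := Real.log_le_log (by positivity) h7
      push_cast at h8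
      rw [Real.log_pow] at h8
      rw [le_div_iff₀ hlog2]
      exact h8
    have h7 : Real.log X ≤ (X : ℝ) ^ (δ / 2) / (δ / 2) :=
      Real.log_le_rpow_div hX0.le (by positivity)
    have h8 : (1 : ℝ) ≤ (X : ℝ) ^ (δ / 2) := Real.one_le_rpow hX1 (by positivity)
    have h9 : Real.log X / Real.log 2 ≤ (X : ℝ) ^ (δ / 2) / (δ / 2) / Real.log 2 :=
      div_le_div_of_nonneg_right h7 hlog2.le
    have h10 : (X : ℝ) ^ (δ / 2) / (δ / 2) / Real.log 2 =
        1 / (δ / 2 * Real.log 2) * (X : ℝ) ^ (δ / 2) := by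
      field_simp
    rw [hC₄, add_mul, one_mul]
    linarith
  have h6 : (Y : ℝ) ≤ (X : ℝ) ^ (δ / 2) := by
    calc (Y : ℝ) ≤ (X : ℝ) ^ ((1 : ℝ) / h₀) := Nat.floor_le (by positivity)
      _ ≤ _ := Real.rpow_le_rpow_of_exponent_le hX1 hh₀δ
  have h7 : (((Nat.log 2 X + 1) * Y : ℕ) : ℝ) ≤ C₄ * (X : ℝ) ^ δ := by
    push_cast
    calc ((Nat.log 2 X : ℕ) + 1 : ℝ) * Y ≤ (C₄ * (X : ℝ) ^ (δ / 2)) * (X : ℝ) ^ (δ / 2) := by
          gcongr
      _ = C₄ * (X : ℝ) ^ δ := by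
          rw [mul_assoc, ← Real.rpow_add hX0]
          congr 2
          ring
  have h8 : B.card ≤ ∑ h ∈ Finset.range h₀, (P h).card + (Nat.log 2 X + 1) * Y := by omega
  have h9 : (B.card : ℝ) ≤ ∑ h ∈ Finset.range h₀, ((P h).card : ℝ) +
      (((Nat.log 2 X + 1) * Y : ℕ) : ℝ) := by exact_mod_cast h8
  have h10 := Finset.sum_le_sum h4
  rw [← Finset.sum_mul] at h10
  rw [add_mul]
  linarith

end Pool.Agent.helper95.LK
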