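import Mathlib

/-! # A second moment sieve for lattice boxes -/

namespace Pool.Agent.helper95.LK

open Finset

section box

variable {ι : Type*} [Fintype ι] [DecidableEq ι]

/-- the box -/
noncomputable def box (ι : Type*) [Fintype ι] [DecidableEq ι] (c : ℤ) (L : ℕ) : Finset (ι → ℤ) :=
  Fintype.piFinset fun _ => Ico c (c + L)

lemma card_box (c : ℤ) (L : ℕ) : (box ι c L).card = L ^ Fintype.card ι := by
  simp [box]

/-- two translates of a box have a large intersection -/
lemma card_inter_box (c : ℤ) (L N : ℕ) (hNL : N ≤ L) (v : ι → ℤ) (hv : ∀ i, 0 ≤ v i ∧ v i ≤ N) :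
    (L : ℝ) ^ Fintype.card ι - Fintype.card ι * N * (L : ℝ) ^ (Fintype.card ι - 1) ≤
      ((box ι c L ∩ (box ι c L).image (fun a => a + v)).card : ℝ) := by
  classical
  have h1 : Fintype.piFinset (fun i => Ico (c + v i) (c + L)) ⊆
      box ι c L ∩ (box ι c L).image (fun a => a + v) := by
    intro a ha
    rw [Fintype.mem_piFinset] at ha
    rw [mem_inter, mem_image]
    refine ⟨?_, a - v, ?_, by simp⟩
    · rw [box, Fintype.mem_piFinset]
      intro i
      have := ha i
      have := hv i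
      rw [mem_Ico] at *
      omega
    · rw [box, Fintype.mem_piFinset]
      intro i
      have := ha i
      have := hv i
      rw [mem_Ico] at *
      simp only [Pi.sub_apply]
      omega
  have h2 := card_le_card h1
  rw [Fintype.card_piFinset] at h2
  have h3 : ∀ i, (((Ico (c + v i) (c + L)).card : ℕ) : ℝ) = L - v i := by
    intro i
    have hvi := hv i
    rw [Int.card_Ico]
    have h4 : ((c + L - (c + v i)).toNat : ℤ) = L - v i := by
      rw [Int.toNat_of_nonneg]
      · ring
      · omega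
    have h5 : (((c + L - (c + v i)).toNat : ℤ) : ℝ) = ((L - v i : ℤ) : ℝ) := by rw [h4]
    push_cast at h5
    exact h5
  have h4 : ((∏ i : ι, (Ico (c + v i) (c + L)).card : ℕ) : ℝ) ≤
      ((box ι c L ∩ (box ι c L).image (fun a => a + v)).card : ℝ) := by exact_mod_cast h2
  refine le_trans ?_ h4
  push_cast
  have h5 : ((L : ℝ) - N) ^ Fintype.card ι ≤ ∏ i : ι, (((Ico (c + v i) (c + L)).card : ℕ) : ℝ) := by
    rw [← Finset.card_univ, ← Finset.prod_const]
    apply Finset.prod_le_prod
    · intro i _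
      have : (N : ℝ) ≤ L := by exact_mod_cast hNL
      linarith
    · intro i _
      rw [h3]
      have h6 : (v i : ℝ) ≤ N := by exact_mod_cast (hv i).2
      linarith
  refine le_trans ?_ h5
  -- Bernoulli
  rcases Nat.eq_zero_or_pos L with hL | hL
  · subst hL
    have hN : N = 0 := by omega
    subst hN
    simp
  · have hL0 : (0 : ℝ) < L := by exact_mod_cast hL
    rcases Nat.eq_zero_or_pos (Fintype.card ι) with hn | hn
    · rw [hn]
      simp
    · have h6 := one_add_mul_le_pow (a := -(N : ℝ) / L) (by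
        have : (N : ℝ) / L ≤ 1 := by
          rw [div_le_one hL0]
          exact_mod_cast hNL
        have h8 : -(N : ℝ) / L = -(N / L) := by ring
        rw [h8]
        linarith) (Fintype.card ι)
      have h7 : ((L : ℝ) - N) ^ Fintype.card ι = L ^ Fintype.card ι * (1 + -(N : ℝ) / L) ^ Fintype.card ι := by
        rw [← mul_pow]
        congr 1
        field_simp
        ring
      rw [h7]
      have h8 : (L : ℝ) ^ Fintype.card ι - Fintype.card ι * N * (L : ℝ) ^ (Fintype.card ι - 1) =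
          L ^ Fintype.card ι * (1 + Fintype.card ι * (-(N : ℝ) / L)) := by
        obtain ⟨m, hm⟩ : ∃ m, Fintype.card ι = m + 1 := ⟨Fintype.card ι - 1, by omega⟩
        rw [hm, Nat.add_sub_cancel, pow_succ]
        field_simp
        ring
      rw [h8]
      exact mul_le_mul_of_nonneg_left h6 (by positivity)

/-- the sum of a periodic function of mean zero over a box is small -/
theorem box_sum {H : Type*} [AddCommGroup H] [Fintype H] (π : (ι → ℤ) →+ H)
    (hπ : Function.Surjective π) {N : ℕ} (hN : 0 < N) (hker : ∀ v : ι → ℤ, π ((N : ℤ) • v) = 0)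
    (F : H → ℝ) (hF1 : ∀ h, |F h| ≤ 1) (hF0 : ∑ h, F h = 0) (c : ℤ) {L : ℕ} (hNL : N ≤ L) :
    |∑ a ∈ box ι c L, F (π a)| ≤
      2 * (Fintype.card ι * N * (L : ℝ) ^ (Fintype.card ι - 1)) := by
  classical
  set S := ∑ a ∈ box ι c L, F (π a) with hS
  set E := 2 * (Fintype.card ι * N * (L : ℝ) ^ (Fintype.card ι - 1)) with hE
  -- representatives
  have hrep : ∀ h : H, ∃ v : ι → ℤ, π v = h ∧ ∀ i, 0 ≤ v i ∧ v i ≤ N := by
    intro h
    obtain ⟨a, ha⟩ := hπ h
    refine ⟨fun i => a i % N, ?_, fun i => ⟨Int.emod_nonneg _ (by omega), ?_⟩⟩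
    · have h1 : a = (fun i => a i % N) + (N : ℤ) • (fun i => a i / N) := by
        funext i
        simp only [Pi.add_apply, Pi.smul_apply, smul_eq_mul]
        exact (Int.emod_add_mul_ediv (a i) N).symm
      rw [← ha]
      conv_rhs => rw [h1, map_add, hker, add_zero]
    · exact (Int.emod_lt_of_pos _ (by omega)).le
  have hshift : ∀ h : H, |S - ∑ a ∈ box ι c L, F (π a + h)| ≤ E := by
    intro h
    obtain ⟨v, hv, hvb⟩ := hrep h
    have h1 : ∑ a ∈ box ι c L, F (π a + h) =
        ∑ a ∈ (box ι c L).image (fun a => a + v), F (π a) := by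
      rw [sum_image (fun a _ b _ hab => add_right_cancel hab)]
      apply sum_congr rfl
      intro a _
      rw [map_add, hv]
    have hcard : ((box ι c L).image (fun a => a + v)).card = (box ι c L).card :=
      card_image_of_injective _ (add_left_injective v)
    have hI := card_inter_box c L N hNL v hvb
    set X := box ι c L with hX
    set X' := (box ι c L).image (fun a => a + v) with hX'
    have h2 : S = ∑ a ∈ X \ X', F (π a) + ∑ a ∈ X ∩ X', F (π a) := by
      rw [hS, ← sum_sdiff (inter_subset_left : X ∩ X' ⊆ X), sdiff_inter_self_left]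
    have h3 : ∑ a ∈ X', F (π a) = ∑ a ∈ X' \ X, F (π a) + ∑ a ∈ X ∩ X', F (π a) := by
      rw [← sum_sdiff (inter_subset_right : X ∩ X' ⊆ X'), sdiff_inter_self_right]
    have h4 : ∀ Y : Finset (ι → ℤ), |∑ a ∈ Y, F (π a)| ≤ Y.card := by
      intro Y
      refine (abs_sum_le_sum_abs _ _).trans ?_
      refine (sum_le_sum fun a _ => hF1 _).trans ?_
      rw [sum_const, nsmul_eq_mul, mul_one]
    have h5 : ((X \ X').card : ℝ) = X.card - (X ∩ X').card := by
      have h6 : (X \ X').card + (X ∩ X').card = X.card := card_sdiff_add_card_inter X X'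
      have h7 : ((X \ X').card : ℝ) + (X ∩ X').card = X.card := by exact_mod_cast h6
      linarith
    have h6 : ((X' \ X).card : ℝ) = X.card - (X ∩ X').card := by
      have h6 : (X' \ X).card + (X' ∩ X).card = X'.card := card_sdiff_add_card_inter X' X
      rw [inter_comm X' X, hcard] at h6
      have h7 : ((X' \ X).card : ℝ) + (X ∩ X').card = X.card := by exact_mod_cast h6
      linarith
    have h7 : (X.card : ℝ) = (L : ℝ) ^ Fintype.card ι := by
      rw [hX, card_box]
      push_cast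
      rfl
    rw [h1, h3, h2]
    have h8 : ∑ a ∈ X \ X', F (π a) + ∑ a ∈ X ∩ X', F (π a) -
        (∑ a ∈ X' \ X, F (π a) + ∑ a ∈ X ∩ X', F (π a)) =
        ∑ a ∈ X \ X', F (π a) - ∑ a ∈ X' \ X, F (π a) := by ring
    rw [h8]
    refine (abs_sub _ _).trans ?_
    have h9 := h4 (X \ X')
    have h10 := h4 (X' \ X)
    rw [h5, h7] at h9
    rw [h6, h7] at h10
    rw [hE]
    linarith
  -- averaging over the group
  have h1 : ∑ h : H, ∑ a ∈ box ι c L, F (π a + h) = 0 := by
    rw [sum_comm]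
    apply sum_eq_zero
    intro a _
    rw [← hF0]
    exact Fintype.sum_equiv (Equiv.addLeft (π a)) _ _ (fun h => rfl)
  have h2 : (Fintype.card H : ℝ) * S = ∑ h : H, (S - ∑ a ∈ box ι c L, F (π a + h)) := by
    rw [sum_sub_distrib, h1, sub_zero, sum_const, nsmul_eq_mul, Finset.card_univ]
  have h3 : |(Fintype.card H : ℝ) * S| ≤ Fintype.card H * E := by
    rw [h2]
    refine (abs_sum_le_sum_abs _ _).trans ?_
    refine (sum_le_sum fun h _ => hshift h).trans ?_
    rw [sum_const, nsmul_eq_mul, Finset.card_univ]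
  have hH : (0 : ℝ) < Fintype.card H := by
    exact_mod_cast Fintype.card_pos_iff.2 ⟨(0 : H)⟩
  rw [abs_mul, abs_of_pos hH] at h3
  exact le_of_mul_le_mul_left h3 hH

/-- The second moment sieve. -/
theorem sieve {β : Type*} [Fintype β] (pr : β → ℕ) (hpr : ∀ b, (pr b).Prime)
    (hinj : Function.Injective pr) {x : ℕ} (hx : ∀ b, pr b ≤ x) (H : β → Type*)
    [∀ b, AddCommGroup (H b)] [∀ b, Fintype (H b)] (π : ∀ b, (ι → ℤ) →+ H b)
    (hπ : ∀ b, Function.Surjective (π b)) (hker : ∀ b (v : ι → ℤ), π b ((pr b : ℤ) • v) = 0)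
    (f : ∀ b, H b → ℝ) (hf1 : ∀ b h, |f b h| ≤ 1) (hf0 : ∀ b, ∑ h, f b h = 0) {δ : ℝ}
    (hδ : 0 ≤ δ) (c : ℤ) {L : ℕ} (hL : x ^ 2 ≤ L) (Z : Finset (ι → ℤ)) (hZ : Z ⊆ box ι c L)
    (hZf : ∀ a ∈ Z, δ * Fintype.card β ≤ ∑ b, f b (π b a)) :
    (Z.card : ℝ) * (δ * Fintype.card β) ^ 2 ≤ Fintype.card β * (L : ℝ) ^ Fintype.card ι +
      (Fintype.card β : ℝ) ^ 2 *
        (2 * (Fintype.card ι * (x : ℝ) ^ 2 * (L : ℝ) ^ (Fintype.card ι - 1))) := by
  classical
  have h1 : (Z.card : ℝ) * (δ * Fintype.card β) ^ 2 ≤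
      ∑ a ∈ box ι c L, (∑ b, f b (π b a)) ^ 2 := by
    have h2 : ∑ a ∈ Z, (∑ b, f b (π b a)) ^ 2 ≤ ∑ a ∈ box ι c L, (∑ b, f b (π b a)) ^ 2 :=
      sum_le_sum_of_subset_of_nonneg hZ (fun _ _ _ => sq_nonneg _)
    refine le_trans ?_ h2
    have h3 : ∀ a ∈ Z, (δ * Fintype.card β) ^ 2 ≤ (∑ b, f b (π b a)) ^ 2 := by
      intro a ha
      exact pow_le_pow_left₀ (by positivity) (hZf a ha) 2
    have h4 := sum_le_sum h3
    rw [sum_const, nsmul_eq_mul] at h4
    exact h4
  refine h1.trans ?_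
  have h2 : ∑ a ∈ box ι c L, (∑ b, f b (π b a)) ^ 2 =
      ∑ b, ∑ b', ∑ a ∈ box ι c L, f b (π b a) * f b' (π b' a) := by
    have h3 : ∀ a, (∑ b, f b (π b a)) ^ 2 = ∑ b, ∑ b', f b (π b a) * f b' (π b' a) := by
      intro a
      rw [sq, sum_mul_sum]
    simp only [h3]
    rw [sum_comm]
    apply sum_congr rfl
    intro b _
    rw [sum_comm]
  rw [h2]
  set E := 2 * (Fintype.card ι * (x : ℝ) ^ 2 * (L : ℝ) ^ (Fintype.card ι - 1)) with hE
  have hE0 : 0 ≤ E := by positivity
  have hdiag : ∀ b, ∑ a ∈ box ι c L, f b (π b a) * f b (π b a) ≤ (L : ℝ) ^ Fintype.card ι := by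
    intro b
    have h3 : ∀ a ∈ box ι c L, f b (π b a) * f b (π b a) ≤ 1 := by
      intro a _
      have := hf1 b (π b a)
      nlinarith [abs_le.1 this]
    refine (sum_le_sum h3).trans ?_
    rw [sum_const, nsmul_eq_mul, mul_one, card_box]
    push_cast
    exact le_rfl
  have hoff : ∀ b b', b ≠ b' → ∑ a ∈ box ι c L, f b (π b a) * f b' (π b' a) ≤ E := by
    intro b b' hbb
    have hne : pr b ≠ pr b' := fun h => hbb (hinj h)
    have hcop : Nat.Coprime (pr b) (pr b') := (Nat.coprime_primes (hpr b) (hpr b')).2 hne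
    have hcomb := Nat.gcd_eq_gcd_ab (pr b) (pr b')
    rw [hcop] at hcomb
    push_cast at hcomb
    let ρρ : (ι → ℤ) →+ H b × H b' := (π b).prod (π b')
    have hρρ : Function.Surjective ρρ := by
      rintro ⟨h, h'⟩
      obtain ⟨u, hu⟩ := hπ b h
      obtain ⟨u', hu'⟩ := hπ b' h'
      refine ⟨((pr b' : ℤ) * Nat.gcdB (pr b) (pr b')) • u + ((pr b : ℤ) * Nat.gcdA (pr b) (pr b')) • u', ?_⟩
      have e1 : ((pr b' : ℤ) * Nat.gcdB (pr b) (pr b')) • u =
          u - (pr b : ℤ) • (Nat.gcdA (pr b) (pr b') • u) := by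
        rw [smul_smul]
        have : (pr b' : ℤ) * Nat.gcdB (pr b) (pr b') = 1 - (pr b : ℤ) * Nat.gcdA (pr b) (pr b') := by
          linarith
        rw [this, sub_smul, one_smul]
      have e2 : ((pr b : ℤ) * Nat.gcdA (pr b) (pr b')) • u' =
          u' - (pr b' : ℤ) • (Nat.gcdB (pr b) (pr b') • u') := by
        rw [smul_smul]
        have : (pr b : ℤ) * Nat.gcdA (pr b) (pr b') = 1 - (pr b' : ℤ) * Nat.gcdB (pr b) (pr b') := by
          linarith
        rw [this, sub_smul, one_smul]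
      apply Prod.ext
      · change π b _ = h
        rw [map_add, e1, map_sub, hker, sub_zero, hu, mul_smul, hker, add_zero]
      · change π b' _ = h'
        rw [map_add, e2, map_sub, hker, sub_zero, hu', mul_smul, hker, zero_add]
    have hker' : ∀ v : ι → ℤ, ρρ (((pr b * pr b' : ℕ) : ℤ) • v) = 0 := by
      intro v
      apply Prod.ext
      · change π b _ = 0
        push_cast
        rw [mul_smul, hker]
      · change π b' _ = 0
        push_cast
        rw [mul_comm, mul_smul, hker]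
    have hN : 0 < pr b * pr b' := Nat.mul_pos (hpr b).pos (hpr b').pos
    have hNx : pr b * pr b' ≤ x ^ 2 := by
      rw [sq]
      exact Nat.mul_le_mul (hx b) (hx b')
    have h3 := box_sum ρρ hρρ hN hker' (fun z => f b z.1 * f b' z.2) (by
      intro z
      rw [abs_mul]
      have h4 := hf1 b z.1
      have h5 := hf1 b' z.2
      calc |f b z.1| * |f b' z.2| ≤ 1 * 1 := mul_le_mul h4 h5 (abs_nonneg _) (by norm_num)
        _ = 1 := one_mul 1) (by
      rw [Fintype.sum_prod_type]
      simp only [← Finset.mul_sum, hf0, mul_zero, sum_const_zero]) c (hNx.trans hL)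
    have h4 : ∑ a ∈ box ι c L, f b (π b a) * f b' (π b' a) ≤
        2 * (Fintype.card ι * (pr b * pr b' : ℕ) * (L : ℝ) ^ (Fintype.card ι - 1)) :=
      (le_abs_self _).trans h3
    refine h4.trans ?_
    rw [hE]
    have h5 : ((pr b * pr b' : ℕ) : ℝ) ≤ (x : ℝ) ^ 2 := by exact_mod_cast hNx
    gcongr
  have hsum : ∀ b, ∑ b', ∑ a ∈ box ι c L, f b (π b a) * f b' (π b' a) ≤
      (L : ℝ) ^ Fintype.card ι + Fintype.card β * E := by
    intro b
    rw [← Finset.add_sum_erase _ _ (Finset.mem_univ b)]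
    have h3 : ∑ b' ∈ univ.erase b, ∑ a ∈ box ι c L, f b (π b a) * f b' (π b' a) ≤
        ∑ _b' ∈ univ.erase b, E := by
      apply sum_le_sum
      intro b' hb'
      exact hoff b b' (Finset.ne_of_mem_erase hb').symm
    rw [sum_const, nsmul_eq_mul] at h3
    have h4 : ((univ.erase b).card : ℝ) ≤ Fintype.card β := by
      exact_mod_cast Finset.card_le_univ _
    have h5 : ((univ.erase b).card : ℝ) * E ≤ Fintype.card β * E :=
      mul_le_mul_of_nonneg_right h4 hE0
    linarith [hdiag b]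
  refine (sum_le_sum fun b _ => hsum b).trans ?_
  rw [sum_const, nsmul_eq_mul, Finset.card_univ]
  apply le_of_eq
  ring

end box

end Pool.Agent.helper95.LK
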