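import Pool.Agent.helper95.LK.Div
import Pool.Agent.helper95.LC.NF

/-! # Counting products of small integers -/

namespace Pool.Agent.helper95.LK

open NumberField Finset Pool.Agent.helper95.LC

section height

variable {K : Type*} [Field K] [NumberField K] {ι : Type*} [Fintype ι]
  (b : Module.Basis ι ℤ (𝓞 K))

/-- the size of the coordinates -/
noncomputable def ht (x : 𝓞 K) : ℕ := Finset.univ.sup fun i => (b.repr x i).natAbs

lemma le_ht (x : 𝓞 K) (i : ι) : (b.repr x i).natAbs ≤ ht b x :=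
  Finset.le_sup (f := fun i => (b.repr x i).natAbs) (Finset.mem_univ i)

lemma ht_le {x : 𝓞 K} {n : ℕ} (h : ∀ i, (b.repr x i).natAbs ≤ n) : ht b x ≤ n :=
  Finset.sup_le fun i _ => h i

lemma ht_add (x y : 𝓞 K) : ht b (x + y) ≤ ht b x + ht b y := by
  apply ht_le
  intro i
  rw [map_add, Finsupp.add_apply]
  exact (Int.natAbs_add_le _ _).trans (Nat.add_le_add (le_ht b x i) (le_ht b y i))

lemma ht_sum {κ : Type*} (s : Finset κ) (f : κ → 𝓞 K) : ht b (∑ k ∈ s, f k) ≤ ∑ k ∈ s, ht b (f k) := by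
  classical
  induction s using Finset.induction_on with
  | empty =>
    apply ht_le
    intro i
    simp
  | insert k s hk ih =>
    rw [sum_insert hk, sum_insert hk]
    exact (ht_add b _ _).trans (Nat.add_le_add_left ih _)

lemma ht_zsmul (n : ℤ) (x : 𝓞 K) : ht b (n • x) ≤ n.natAbs * ht b x := by
  apply ht_le
  intro i
  rw [map_zsmul, Finsupp.smul_apply, smul_eq_mul, Int.natAbs_mul]
  exact Nat.mul_le_mul_left _ (le_ht b x i)

/-- the size of products -/
lemma exists_ht_mul : ∃ C : ℕ, 1 ≤ C ∧ ∀ x y : 𝓞 K, ht b (x * y) ≤ C * ht b x * ht b y := by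
  classical
  refine ⟨1 + ∑ i, ∑ j, ht b (b i * b j), by omega, ?_⟩
  intro x y
  have h1 : x * y = ∑ i, ∑ j, (b.repr x i * b.repr y j) • (b i * b j) := by
    conv_lhs => rw [← b.sum_repr x, ← b.sum_repr y, Finset.sum_mul_sum]
    apply sum_congr rfl
    intro i _
    apply sum_congr rfl
    intro j _
    rw [smul_mul_smul_comm]
  rw [h1]
  refine (ht_sum b _ _).trans ?_
  have h2 : ∀ i ∈ (Finset.univ : Finset ι), ht b (∑ j, (b.repr x i * b.repr y j) • (b i * b j)) ≤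
      ∑ j, ht b x * ht b y * ht b (b i * b j) := by
    intro i _
    refine (ht_sum b _ _).trans ?_
    apply sum_le_sum
    intro j _
    refine (ht_zsmul b _ _).trans ?_
    rw [Int.natAbs_mul]
    exact Nat.mul_le_mul_right _ (Nat.mul_le_mul (le_ht b x i) (le_ht b y j))
  refine (sum_le_sum h2).trans ?_
  simp only [← Finset.mul_sum]
  nlinarith [Nat.zero_le (ht b x * ht b y)]

lemma ht_prod {C : ℕ} (hC1 : 1 ≤ C) (hC : ∀ x y : 𝓞 K, ht b (x * y) ≤ C * ht b x * ht b y)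
    {κ : Type*} (s : Finset κ) (f : κ → 𝓞 K) (m : ℕ) (hf : ∀ k ∈ s, ht b (f k) ≤ m) :
    ht b (∏ k ∈ s, f k) ≤ ht b 1 * (C * m) ^ s.card := by
  classical
  induction s using Finset.induction_on with
  | empty => simp
  | insert k s hk ih =>
    rw [prod_insert hk, card_insert_of_notMem hk, pow_succ]
    have h1 := ih (fun k hk => hf k (mem_insert_of_mem hk))
    calc ht b (f k * ∏ k ∈ s, f k) ≤ C * ht b (f k) * ht b (∏ k ∈ s, f k) := hC _ _
      _ ≤ C * m * (ht b 1 * (C * m) ^ s.card) :=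
          Nat.mul_le_mul (Nat.mul_le_mul_left _ (hf k (mem_insert_self _ _))) h1
      _ = _ := by ring

/-- a bound for the basis elements -/
lemma exists_basis_bound : ∃ M : ℕ, 1 ≤ M ∧ ∀ (w : K →+* ℂ) i, ‖w (b i : K)‖ ≤ M := by
  classical
  obtain ⟨C, hC⟩ := (Set.finite_range (fun x : (K →+* ℂ) × ι => ‖x.1 (b x.2 : K)‖)).bddAbove
  refine ⟨⌈max 1 C⌉₊, ?_, ?_⟩
  · rw [Nat.one_le_ceil_iff]
    exact lt_of_lt_of_le one_pos (le_max_left _ _)
  · intro w i
    have h1 : ‖w (b i : K)‖ ≤ C := hC (Set.mem_range_self (w, i))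
    exact h1.trans ((le_max_right _ _).trans (Nat.le_ceil _))

/-- the small balanced integers -/
noncomputable def dl (M D : ℕ) (a : ι → Fin D) : 𝓞 K :=
  ((4 * Fintype.card ι * M * D + 1 : ℕ) : 𝓞 K) + 2 * ∑ i, ((a i : ℕ) : ℤ) • b i

lemma dl_inj (M D : ℕ) : Function.Injective (dl b M D) := by
  intro a a' h
  have h1 := add_left_cancel h
  have h2 : (2 : 𝓞 K) ≠ 0 := two_ne_zero
  have h3 := mul_left_cancel₀ h2 h1
  have h4 : ∀ a : ι → Fin D, ∀ i, b.repr (∑ i, ((a i : ℕ) : ℤ) • b i) i = ((a i : ℕ) : ℤ) := by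
    intro a i
    rw [b.repr_sum_self]
  funext i
  have h5 := congrArg (fun x => b.repr x i) h3
  simp only [h4] at h5
  exact Fin.ext (by exact_mod_cast h5)

lemma dl_sub {M : ℕ} (hM : ∀ (w : K →+* ℂ) i, ‖w (b i : K)‖ ≤ M) (D : ℕ) (a : ι → Fin D)
    (w : K →+* ℂ) : ‖w (dl b M D a : 𝓞 K) - (4 * Fintype.card ι * M * D + 1 : ℕ)‖ ≤
      2 * Fintype.card ι * M * D := by
  have h1 : w (dl b M D a : 𝓞 K) - (4 * Fintype.card ι * M * D + 1 : ℕ) =
      ∑ i, 2 * (((a i : ℕ) : ℂ) * w (b i : K)) := by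
    rw [← Finset.mul_sum]
    simp only [dl, map_add, map_mul, map_natCast, map_ofNat, map_sum, zsmul_eq_mul, map_intCast,
      Int.cast_natCast]
    ring
  rw [h1]
  refine (norm_sum_le _ _).trans ?_
  have h2 : ∀ i ∈ (Finset.univ : Finset ι), ‖2 * (((a i : ℕ) : ℂ) * w (b i : K))‖ ≤ 2 * (D * M) := by
    intro i _
    rw [norm_mul, norm_mul, Complex.norm_ofNat, Complex.norm_natCast]
    have h3 : ((a i : ℕ) : ℝ) ≤ D := by exact_mod_cast (a i).2.le
    have := hM w i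
    gcongr
  refine (sum_le_sum h2).trans ?_
  rw [sum_const, nsmul_eq_mul, Finset.card_univ]
  apply le_of_eq
  ring

lemma dl_bounds {M : ℕ} (hM : ∀ (w : K →+* ℂ) i, ‖w (b i : K)‖ ≤ M) (D : ℕ) (a : ι → Fin D)
    (w : K →+* ℂ) : ((4 * Fintype.card ι * M * D + 1 : ℕ) : ℝ) / 2 ≤ ‖w (dl b M D a : 𝓞 K)‖ ∧
      ‖w (dl b M D a : 𝓞 K)‖ ≤ 3 / 2 * ((4 * Fintype.card ι * M * D + 1 : ℕ) : ℝ) := by
  have h1 := dl_sub b hM D a w
  set A : ℕ := 4 * Fintype.card ι * M * D + 1 with hA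
  have h2 : (2 * Fintype.card ι * M * D : ℝ) ≤ (A : ℝ) / 2 := by
    rw [hA]
    push_cast
    linarith
  have h3 : ‖((A : ℕ) : ℂ)‖ = A := Complex.norm_natCast A
  constructor
  · have h4 := norm_sub_norm_le ((A : ℕ) : ℂ) (w (dl b M D a : 𝓞 K))
    rw [norm_sub_rev] at h4
    linarith
  · have h4 := norm_add_le (w (dl b M D a : 𝓞 K) - (A : ℕ)) ((A : ℕ) : ℂ)
    rw [sub_add_cancel] at h4
    linarith

/-- the number of units of bounded quotients -/
lemma exists_units (K : Type*) [Field K] [NumberField K] : ∃ U : Finset (𝓞 K),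
    ∀ u : 𝓞 K, (∀ w : K →+* ℂ, ‖w (u : K)‖ ≤ 3) → u ∈ U := by
  classical
  have h1 := NumberField.Embeddings.finite_of_norm_le K ℂ 3
  have h2 : Set.Finite {u : 𝓞 K | ∀ w : K →+* ℂ, ‖w (u : K)‖ ≤ 3} := by
    apply Set.Finite.of_finite_image (f := fun u : 𝓞 K => (u : K))
    · apply h1.subset
      rintro _ ⟨u, hu, rfl⟩
      exact ⟨u.2, hu⟩
    · intro u _ v _ h
      exact RingOfIntegers.ext h
  exact ⟨h2.toFinset, fun u hu => by rw [Set.Finite.mem_toFinset]; exact hu⟩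

/-- the number of small balanced divisors -/
lemma card_dl_dvd [DecidableEq ι] {M : ℕ} (hM : ∀ (w : K →+* ℂ) i, ‖w (b i : K)‖ ≤ M) {U : Finset (𝓞 K)}
    (hU : ∀ u : 𝓞 K, (∀ w : K →+* ℂ, ‖w (u : K)‖ ≤ 3) → u ∈ U) (D : ℕ) (γ : 𝓞 K) (hγ : γ ≠ 0)
    [DecidablePred fun a : ι → Fin D => dl b M D a ∣ γ] :
    (Finset.univ.filter fun a : ι → Fin D => dl b M D a ∣ γ).card ≤
      U.card * nd (Ideal.span {γ}) := by
  classical
  set A : ℕ := 4 * Fintype.card ι * M * D + 1 with hA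
  have hA0 : (0 : ℝ) < A := by
    rw [hA]
    positivity
  set S := Finset.univ.filter fun a : ι → Fin D => dl b M D a ∣ γ with hS
  have hγ' : (Ideal.span {γ} : Ideal (𝓞 K)) ≠ 0 := by
    rw [Ne, Ideal.zero_eq_bot, Ideal.span_singleton_eq_bot]
    exact hγ
  have hfin := finite_dvd hγ'
  have h1 : S.card ≤ U.card * (S.image fun a => Ideal.span {dl b M D a}).card := by
    apply Finset.card_le_mul_card_image
    intro I hI
    rw [mem_image] at hI
    obtain ⟨a₀, ha₀, rfl⟩ := hI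
    have hne : ∀ a, dl b M D a ≠ 0 := by
      intro a h0
      obtain ⟨w⟩ : Nonempty (K →+* ℂ) := inferInstance
      have h2 := (dl_bounds b hM D a w).1
      have e0 : ((0 : 𝓞 K) : K) = 0 := rfl
      rw [h0, e0, map_zero, norm_zero] at h2
      linarith
    -- the map to the units
    have hex : ∀ a ∈ S.filter (fun a => Ideal.span {dl b M D a} = Ideal.span {dl b M D a₀}),
        ∃ u ∈ U, dl b M D a = u * dl b M D a₀ := by
      intro a ha
      rw [mem_filter, Ideal.span_singleton_eq_span_singleton] at ha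
      obtain ⟨v, hv⟩ := ha.2.symm
      refine ⟨(v : 𝓞 K), ?_, ?_⟩
      · apply hU
        intro w
        have h2 := (dl_bounds b hM D a w).2
        have h3 := (dl_bounds b hM D a₀ w).1
        have e1 : ((dl b M D a₀ * (v : 𝓞 K) : 𝓞 K) : K) = (dl b M D a₀ : K) * ((v : 𝓞 K) : K) := rfl
        rw [← hv, e1, map_mul, norm_mul] at h2
        by_contra hlt
        push Not at hlt
        nlinarith
      · rw [← hv, mul_comm]
    apply Finset.card_le_card_of_surjOn (fun u => if h : ∃ a, dl b M D a = u * dl b M D a₀ then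
      h.choose else a₀)
    intro a ha
    obtain ⟨u, hu, h2⟩ := hex a ha
    refine ⟨u, hu, ?_⟩
    have h3 : ∃ a, dl b M D a = u * dl b M D a₀ := ⟨a, h2⟩
    change (if h : ∃ a, dl b M D a = u * dl b M D a₀ then h.choose else a₀) = a
    rw [dif_pos h3]
    apply dl_inj b M D
    rw [h3.choose_spec, h2]
  refine h1.trans (Nat.mul_le_mul_left _ ?_)
  rw [← Nat.card_eq_finsetCard]
  apply Nat.card_le_card_of_injective
    (fun I : (S.image fun a => Ideal.span {dl b M D a}) => (⟨I.1, by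
      obtain ⟨a, ha, haI⟩ := Finset.mem_image.1 I.2
      rw [← haI]
      rw [hS, mem_filter] at ha
      rw [Ideal.dvd_iff_le, Ideal.span_singleton_le_span_singleton]
      exact ha.2⟩ : {J : Ideal (𝓞 K) // J ∣ Ideal.span {γ}}))
  intro I J hIJ
  exact Subtype.ext (congrArg (fun z : {J : Ideal (𝓞 K) // J ∣ Ideal.span {γ}} => z.1) hIJ)

end height

end Pool.Agent.helper95.LK
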