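import Pool.Agent.helper95.LK.Count

/-! # The set of products of small integers is large -/

namespace Pool.Agent.helper95.LK

open NumberField Finset Pool.Agent.helper95.LC

section height

variable {K : Type*} [Field K] [NumberField K] {ι : Type*} [Fintype ι] [DecidableEq ι]
  (b : Module.Basis ι ℤ (𝓞 K))

/-- products of small balanced integers -/
noncomputable def pl (M D k : ℕ) (f : Fin k → (ι → Fin D)) : 𝓞 K := ∏ j, dl b M D (f j)

omit [DecidableEq ι] in
lemma dl_ne_zero {M : ℕ} (hM : ∀ (w : K →+* ℂ) i, ‖w (b i : K)‖ ≤ M) (D : ℕ) (a : ι → Fin D) :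
    dl b M D a ≠ 0 := by
  intro h0
  obtain ⟨w⟩ : Nonempty (K →+* ℂ) := inferInstance
  have h2 := (dl_bounds b hM D a w).1
  have e0 : ((0 : 𝓞 K) : K) = 0 := rfl
  rw [h0, e0, map_zero, norm_zero] at h2
  have hA0 : (0 : ℝ) < ((4 * Fintype.card ι * M * D + 1 : ℕ) : ℝ) := by positivity
  linarith

omit [DecidableEq ι] in
lemma pl_ne_zero {M : ℕ} (hM : ∀ (w : K →+* ℂ) i, ‖w (b i : K)‖ ≤ M) (D k : ℕ)
    (f : Fin k → (ι → Fin D)) : pl b M D k f ≠ 0 :=
  Finset.prod_ne_zero_iff.2 fun j _ => dl_ne_zero b hM D (f j)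

omit [DecidableEq ι] in
/-- the coordinates of the products -/
lemma exists_ht_pl (M : ℕ) : ∃ C : ℕ, 1 ≤ C ∧ ∀ D k : ℕ, 1 ≤ D → 1 ≤ k →
    ∀ f : Fin k → (ι → Fin D), ht b (pl b M D k f) ≤ (C * D) ^ k := by
  classical
  obtain ⟨C₁, hC₁, hC₁'⟩ := exists_ht_mul b
  set m₀ : ℕ := (4 * Fintype.card ι * M + 1) * ht b 1 + 2 * ∑ i, ht b (b i) + 1 with hm₀
  have hdl : ∀ D : ℕ, 1 ≤ D → ∀ a : ι → Fin D, ht b (dl b M D a) ≤ m₀ * D := by
    intro D hD a
    have h1 : dl b M D a = ((4 * Fintype.card ι * M * D + 1 : ℕ) : ℤ) • (1 : 𝓞 K) +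
        ∑ i, (2 * ((a i : ℕ) : ℤ)) • b i := by
      rw [dl, Finset.mul_sum]
      congr 1
      · simp
      · apply sum_congr rfl
        intro i _
        simp only [zsmul_eq_mul, Int.cast_mul, Int.cast_ofNat, Int.cast_natCast]
        ring
    rw [h1]
    refine (ht_add b _ _).trans ?_
    have h2 := ht_zsmul b (((4 * Fintype.card ι * M * D + 1 : ℕ) : ℤ)) 1
    have h3 := ht_sum b Finset.univ (fun i => (2 * ((a i : ℕ) : ℤ)) • b i)
    have h4 : ∀ i ∈ (Finset.univ : Finset ι), ht b ((2 * ((a i : ℕ) : ℤ)) • b i) ≤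
        2 * D * ht b (b i) := by
      intro i _
      refine (ht_zsmul b _ _).trans ?_
      apply Nat.mul_le_mul_right
      have := (a i).2
      omega
    have h5 := sum_le_sum h4
    rw [← Finset.mul_sum] at h5
    have h6 : (((4 * Fintype.card ι * M * D + 1 : ℕ) : ℤ)).natAbs = 4 * Fintype.card ι * M * D + 1 :=
      Int.natAbs_natCast _
    rw [h6] at h2
    have h7 : (4 * Fintype.card ι * M * D + 1) * ht b 1 ≤
        ((4 * Fintype.card ι * M + 1) * ht b 1) * D := by
      have h8 : 4 * Fintype.card ι * M * D + 1 ≤ (4 * Fintype.card ι * M + 1) * D := by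
        nlinarith
      calc (4 * Fintype.card ι * M * D + 1) * ht b 1
          ≤ ((4 * Fintype.card ι * M + 1) * D) * ht b 1 := Nat.mul_le_mul_right _ h8
        _ = _ := by ring
    have h8 : m₀ * D = ((4 * Fintype.card ι * M + 1) * ht b 1) * D +
        2 * D * (∑ i, ht b (b i)) + D := by
      rw [hm₀]; ring
    omega
  refine ⟨(ht b 1 + 1) * (C₁ * m₀), ?_, ?_⟩
  · have : 1 ≤ m₀ := by omega
    have h1 : 1 ≤ C₁ * m₀ := Nat.mul_pos hC₁ this
    exact Nat.mul_pos (Nat.succ_pos _) h1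
  · intro D k hD hk f
    have h1 := ht_prod b hC₁ hC₁' Finset.univ (fun j => dl b M D (f j)) (m₀ * D)
      (fun j _ => hdl D hD (f j))
    rw [Finset.card_univ, Fintype.card_fin] at h1
    refine h1.trans ?_
    have h2 : ht b 1 ≤ (ht b 1 + 1) ^ k :=
      (Nat.le_succ _).trans (Nat.le_self_pow (by omega) _)
    calc ht b 1 * (C₁ * (m₀ * D)) ^ k ≤ (ht b 1 + 1) ^ k * (C₁ * (m₀ * D)) ^ k :=
          Nat.mul_le_mul_right _ h2
      _ = _ := by rw [← mul_pow]; congr 1; ring

/-- the number of products -/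
theorem card_pl {M : ℕ} (hM : ∀ (w : K →+* ℂ) i, ‖w (b i : K)‖ ≤ M) (k : ℕ) (η : ℝ) (hη : 0 < η) :
    ∃ C : ℝ, 0 < C ∧ ∀ D : ℕ, 1 ≤ D → ∀ Z : Finset (𝓞 K), (∀ f, pl b M D k f ∈ Z) →
      (D : ℝ) ^ (Fintype.card ι * k) ≤ Z.card * (C * (D : ℝ) ^ η) := by
  classical
  obtain ⟨U, hU⟩ := exists_units K
  set n := Fintype.card ι with hn
  set η' : ℝ := η / (k * k * n + 1) with hη'
  have hden : (0 : ℝ) < k * k * n + 1 := by positivity
  have hη'0 : 0 < η' := by positivity
  obtain ⟨C₁, hC₁, hC₁'⟩ := nd_le K η' hη'0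
  set A₀ : ℝ := 2 * (4 * n * M + 1) with hA₀
  have hA₀1 : 1 ≤ A₀ := by
    have : (0 : ℝ) ≤ 4 * n * M := by positivity
    rw [hA₀]; linarith
  have hcardn : Fintype.card (K →ₐ[ℚ] ℂ) = n := by
    rw [AlgHom.card, ← RingOfIntegers.rank K, hn]
    exact Module.finrank_eq_card_basis b
  -- the bound for one fibre
  have hfib : ∀ D : ℕ, 1 ≤ D → ∀ f : Fin k → (ι → Fin D),
      ((Finset.univ.filter fun g : Fin k → (ι → Fin D) => pl b M D k g = pl b M D k f).card : ℝ) ≤
        ((U.card + 1) * C₁ * A₀ ^ (η' * (k * n))) ^ k * (D : ℝ) ^ η := by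
    intro D hD f
    set γ := pl b M D k f with hγ
    have hγ0 : γ ≠ 0 := pl_ne_zero b hM D k f
    have hDr : (1 : ℝ) ≤ D := by exact_mod_cast hD
    have h1 : (Finset.univ.filter fun g : Fin k → (ι → Fin D) => pl b M D k g = γ) ⊆
        Fintype.piFinset fun _ => Finset.univ.filter fun a : ι → Fin D => dl b M D a ∣ γ := by
      intro g hg
      rw [mem_filter] at hg
      rw [Fintype.mem_piFinset]
      intro j
      rw [mem_filter]
      refine ⟨mem_univ _, ?_⟩
      rw [← hg.2]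
      exact Finset.dvd_prod_of_mem _ (mem_univ j)
    have h2 := card_le_card h1
    rw [Fintype.card_piFinset, prod_const, Finset.card_univ, Fintype.card_fin] at h2
    have h3 := card_dl_dvd b hM hU D γ hγ0
    have h4 : ((Finset.univ.filter fun a : ι → Fin D => dl b M D a ∣ γ).card : ℝ) ≤
        U.card * nd (Ideal.span {γ}) := by exact_mod_cast h3
    have hspan : (Ideal.span {γ} : Ideal (𝓞 K)) ≠ ⊥ := by
      rw [Ne, Ideal.span_singleton_eq_bot]
      exact hγ0
    have h5 := hC₁' _ hspan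
    -- the norm
    have h6 : (Ideal.absNorm (Ideal.span {γ}) : ℝ) ≤ (A₀ * D) ^ (k * n) := by
      rw [Ideal.absNorm_span_singleton]
      have h7 : (((Algebra.norm ℤ γ).natAbs : ℕ) : ℝ) = |((Algebra.norm ℤ γ : ℤ) : ℝ)| := by
        rw [← Int.cast_abs, Int.abs_eq_natAbs]
        rfl
      rw [h7, ← prod_emb, pow_mul, ← hcardn, ← Finset.card_univ, ← Finset.prod_const]
      apply Finset.prod_le_prod
      · intro v _; exact norm_nonneg _
      · intro v _
        have h8 : emb K v γ = ∏ j, emb K v (dl b M D (f j)) := by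
          rw [hγ, pl, map_prod]
        rw [h8, norm_prod]
        have h9 : ∀ j ∈ (Finset.univ : Finset (Fin k)), ‖emb K v (dl b M D (f j))‖ ≤ A₀ * D := by
          intro j _
          have h10 := (dl_bounds b hM D (f j) v.toRingHom).2
          refine h10.trans ?_
          rw [hA₀, ← hn]
          push_cast
          have h11 : (0 : ℝ) ≤ n * M := by positivity
          nlinarith
        refine (Finset.prod_le_prod (fun j _ => norm_nonneg _) h9).trans ?_
        rw [prod_const, Finset.card_univ, Fintype.card_fin]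
    have h7 : (Ideal.absNorm (Ideal.span {γ}) : ℝ) ^ η' ≤
        A₀ ^ (η' * (k * n)) * (D : ℝ) ^ (η' * (k * n)) := by
      refine (Real.rpow_le_rpow (by positivity) h6 hη'0.le).trans ?_
      rw [← Real.rpow_natCast, ← Real.rpow_mul (by positivity), Real.mul_rpow (by positivity)
        (by positivity)]
      apply le_of_eq
      push_cast
      rw [mul_comm η']
    have h8 : (((Finset.univ.filter fun g : Fin k → (ι → Fin D) => pl b M D k g = γ).card : ℕ) : ℝ) ≤
        ((Finset.univ.filter fun a : ι → Fin D => dl b M D a ∣ γ).card : ℝ) ^ k := by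
      exact_mod_cast h2
    have h9 : ((Finset.univ.filter fun a : ι → Fin D => dl b M D a ∣ γ).card : ℝ) ≤
        ((U.card + 1) * C₁ * A₀ ^ (η' * (k * n))) * (D : ℝ) ^ (η' * (k * n)) := by
      refine h4.trans ?_
      calc (U.card : ℝ) * nd (Ideal.span {γ}) ≤ (U.card + 1) * (C₁ *
            (A₀ ^ (η' * (k * n)) * (D : ℝ) ^ (η' * (k * n)))) := by
            apply mul_le_mul (by linarith) _ (by positivity) (by positivity)
            exact h5.trans (mul_le_mul_of_nonneg_left h7 hC₁.le)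
        _ = _ := by ring
    refine h8.trans ((pow_le_pow_left₀ (by positivity) h9 k).trans ?_)
    rw [mul_pow]
    apply mul_le_mul_of_nonneg_left _ (by positivity)
    rw [← Real.rpow_natCast, ← Real.rpow_mul (by positivity)]
    apply Real.rpow_le_rpow_of_exponent_le hDr
    rw [hη']
    rw [div_mul_eq_mul_div, div_mul_eq_mul_div, div_le_iff₀ hden]
    nlinarith
  refine ⟨((U.card + 1) * C₁ * A₀ ^ (η' * (k * n))) ^ k, by positivity, ?_⟩
  intro D hD Z hZ
  have h1 : ((Fintype.card (Fin k → (ι → Fin D)) : ℕ) : ℝ) = (D : ℝ) ^ (n * k) := by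
    rw [Fintype.card_fun, Fintype.card_fun, Fintype.card_fin, Fintype.card_fin]
    push_cast
    rw [← pow_mul]
  rw [← h1, ← Finset.card_univ]
  rw [Finset.card_eq_sum_card_image (pl b M D k) Finset.univ]
  push_cast
  have h2 : ∀ γ ∈ Finset.univ.image (pl b M D k),
      (((Finset.univ.filter fun g : Fin k → (ι → Fin D) => pl b M D k g = γ).card : ℕ) : ℝ) ≤
        ((U.card + 1) * C₁ * A₀ ^ (η' * (k * n))) ^ k * (D : ℝ) ^ η := by
    intro γ hγ
    rw [mem_image] at hγ
    obtain ⟨f, -, rfl⟩ := hγ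
    exact hfib D hD f
  refine (sum_le_sum h2).trans ?_
  rw [sum_const, nsmul_eq_mul]
  apply mul_le_mul_of_nonneg_right _ (by positivity)
  have h3 : (Finset.univ.image (pl b M D k)).card ≤ Z.card := by
    apply card_le_card
    intro γ hγ
    rw [mem_image] at hγ
    obtain ⟨f, -, rfl⟩ := hγ
    exact hZ f
  exact_mod_cast h3

end height

end Pool.Agent.helper95.LK
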