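import Mathlib

/-! # The divisor bound for ideals of a number field -/

namespace Pool.Agent.helper95.LK

open NumberField

section ufm

variable {α : Type*} [CommMonoidWithZero α] [IsCancelMulZero α] [UniqueFactorizationMonoid α]
  [Fintype αˣ]

/-- number of divisors -/
noncomputable def nd (a : α) : ℕ := Nat.card {b : α // b ∣ a}

lemma finite_dvd {a : α} (ha : a ≠ 0) : Finite {b : α // b ∣ a} :=
  have := UniqueFactorizationMonoid.fintypeSubtypeDvd a ha
  inferInstance

omit [Fintype αˣ] in
lemma nd_pow_mul [Fintype αˣ] {P a : α} (hP : Prime P) (ha : a ≠ 0) (hPa : ¬ P ∣ a) (e : ℕ) :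
    nd (P ^ e * a) ≤ (e + 1) * nd a := by
  classical
  have h0 : P ^ e * a ≠ 0 := mul_ne_zero (pow_ne_zero _ hP.ne_zero) ha
  have := finite_dvd ha
  let f : Fin (e + 1) × {b : α // b ∣ a} → {b : α // b ∣ P ^ e * a} := fun x =>
    ⟨P ^ (x.1 : ℕ) * x.2.1, mul_dvd_mul (pow_dvd_pow P (by omega)) x.2.2⟩
  have hf : Function.Surjective f := by
    rintro ⟨b, hb⟩
    have hb0 : b ≠ 0 := by
      rintro rfl
      exact h0 (zero_dvd_iff.1 hb)
    obtain ⟨c, hbc, hPc⟩ := (FiniteMultiplicity.of_prime_left hP hb0).exists_eq_pow_mul_and_not_dvd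
    set i := multiplicity P b with hi
    have h1 : P ^ i ∣ P ^ e * a := (Dvd.intro c hbc.symm).trans hb
    have h2 : P ^ i ∣ P ^ e := hP.pow_dvd_of_dvd_mul_right i hPa h1
    have h3 : i ≤ e := (pow_dvd_pow_iff hP.ne_zero hP.not_unit).1 h2
    have h4 : c ∣ P ^ e * a := (Dvd.intro_left (P ^ i) hbc.symm).trans hb
    have h5 : c ∣ a := by
      have h6 : IsRelPrime c (P ^ e) :=
        ((hP.irreducible.isRelPrime_iff_not_dvd.2 hPc).pow_left).symm
      exact h6.dvd_of_dvd_mul_left h4
    exact ⟨(⟨i, by omega⟩, ⟨c, h5⟩), Subtype.ext hbc.symm⟩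
  have h1 := Nat.card_le_card_of_surjective f hf
  rw [Nat.card_prod, Nat.card_fin] at h1
  exact h1

end ufm

lemma exists_C (η : ℝ) (hη : 0 < η) : ∃ C : ℝ, 1 ≤ C ∧ ∀ e : ℕ, (e : ℝ) + 1 ≤ C * (2 : ℝ) ^ (η * e) := by
  have hlog : 0 < Real.log 2 := Real.log_pos (by norm_num)
  refine ⟨1 + 1 / (η * Real.log 2), by
    have : 0 < 1 / (η * Real.log 2) := by positivity
    linarith, ?_⟩
  intro e
  have h1 : 1 + η * e * Real.log 2 ≤ (2 : ℝ) ^ (η * e) := by
    rw [Real.rpow_def_of_pos (by norm_num)]
    have := Real.add_one_le_exp (Real.log 2 * (η * e))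
    linarith
  have h2 : (0 : ℝ) < η * Real.log 2 := by positivity
  have h3 : (0 : ℝ) ≤ e := by positivity
  calc (e : ℝ) + 1 ≤ (1 + 1 / (η * Real.log 2)) * (1 + η * e * Real.log 2) := by
        have h4 : (1 + 1 / (η * Real.log 2)) * (1 + η * e * Real.log 2) =
            1 + e + η * e * Real.log 2 + 1 / (η * Real.log 2) := by
          field_simp
          ring
        rw [h4]
        have h5 : 0 ≤ η * e * Real.log 2 := by positivity
        have h6 : 0 ≤ 1 / (η * Real.log 2) := by positivity
        linarith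
    _ ≤ _ := by
        apply mul_le_mul_of_nonneg_left h1
        positivity

/-- The divisor bound. -/
theorem nd_le (K : Type*) [Field K] [NumberField K] (η : ℝ) (hη : 0 < η) :
    ∃ C : ℝ, 0 < C ∧ ∀ I : Ideal (𝓞 K), I ≠ ⊥ → (nd I : ℝ) ≤ C * (Ideal.absNorm I : ℝ) ^ η := by
  classical
  obtain ⟨C₀, hC₀, hC₀e⟩ := exists_C η hη
  set T : ℝ := (2 : ℝ) ^ (1 / η) with hT
  have hfin : Set.Finite {I : Ideal (𝓞 K) | Ideal.absNorm I ≤ ⌈T⌉₊} :=
    Ideal.finite_setOfPred_absNorm_le _
  set S : Finset (Ideal (𝓞 K)) := hfin.toFinset with hS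
  have hone : nd (1 : Ideal (𝓞 K)) ≤ 1 := by
    have : Subsingleton {b : Ideal (𝓞 K) // b ∣ 1} := by
      refine ⟨fun x y => Subtype.ext ?_⟩
      rw [isUnit_iff_eq_one.1 (isUnit_of_dvd_one x.2), isUnit_iff_eq_one.1 (isUnit_of_dvd_one y.2)]
    exact Finite.card_le_one_iff_subsingleton.2 this
  have key : ∀ N : ℕ, ∀ I : Ideal (𝓞 K), I ≠ 0 → Ideal.absNorm I = N → ∀ S' : Finset (Ideal (𝓞 K)),
      (∀ P, Prime P → P ∣ I → (Ideal.absNorm P : ℝ) < T → P ∈ S') →
      (nd I : ℝ) ≤ C₀ ^ S'.card * (Ideal.absNorm I : ℝ) ^ η := by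
    intro N
    induction N using Nat.strong_induction_on with
    | _ N ih =>
      intro I hI hN S' hS'
      by_cases hI1 : I = 1
      · subst hI1
        have h1 : (nd (1 : Ideal (𝓞 K)) : ℝ) ≤ 1 := by exact_mod_cast hone
        have h2 : Ideal.absNorm (1 : Ideal (𝓞 K)) = 1 := map_one _
        rw [h2, Nat.cast_one, Real.one_rpow, mul_one]
        exact h1.trans (one_le_pow₀ hC₀)
      · have hnu : ¬ IsUnit I := fun h => hI1 (isUnit_iff_eq_one.1 h)
        obtain ⟨P, hPirr, hPI⟩ := WfDvdMonoid.exists_irreducible_factor hnu hI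
        have hP : Prime P := hPirr.prime
        obtain ⟨J, hIJ, hPJ⟩ :=
          (FiniteMultiplicity.of_prime_left hP hI).exists_eq_pow_mul_and_not_dvd
        set e := multiplicity P I with he
        have hJ0 : J ≠ 0 := by
          rintro rfl
          exact hPJ (dvd_zero P)
        have he1 : 1 ≤ e := by
          rcases Nat.eq_zero_or_pos e with h0 | h0
          · exfalso
            rw [h0, pow_zero, one_mul] at hIJ
            exact hPJ (hIJ ▸ hPI)
          · exact h0
        have hNP : 2 ≤ Ideal.absNorm P := by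
          have h1 : Ideal.absNorm P ≠ 0 := by
            rw [Ne, Ideal.absNorm_eq_zero_iff]
            exact hP.ne_zero
          have h2 : Ideal.absNorm P ≠ 1 := by
            rw [Ne, Ideal.absNorm_eq_one_iff]
            intro h3
            exact hP.not_unit (isUnit_iff_eq_one.2 (h3.trans Ideal.one_eq_top.symm))
          omega
        have hNJ : Ideal.absNorm J ≠ 0 := by
          rw [Ne, Ideal.absNorm_eq_zero_iff]
          exact hJ0
        have hNI : Ideal.absNorm I = Ideal.absNorm P ^ e * Ideal.absNorm J := by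
          rw [hIJ, map_mul, map_pow]
        have hlt : Ideal.absNorm J < N := by
          rw [← hN, hNI]
          have h1 : 2 ≤ Ideal.absNorm P ^ e := hNP.trans (Nat.le_self_pow (by omega) _)
          have h2 : 0 < Ideal.absNorm J := Nat.pos_of_ne_zero hNJ
          nlinarith
        have hnd : (nd I : ℝ) ≤ (e + 1) * nd J := by
          have h1 := nd_pow_mul hP hJ0 hPJ e
          rw [← hIJ] at h1
          exact_mod_cast h1
        have hNIr : (Ideal.absNorm I : ℝ) ^ η =
            ((Ideal.absNorm P : ℝ) ^ (η * e)) * (Ideal.absNorm J : ℝ) ^ η := by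
          rw [hNI]
          push_cast
          rw [Real.mul_rpow (by positivity) (by positivity)]
          congr 1
          rw [← Real.rpow_natCast, ← Real.rpow_mul (by positivity), mul_comm]
        have hNP' : (2 : ℝ) ≤ Ideal.absNorm P := by exact_mod_cast hNP
        by_cases hsmall : (Ideal.absNorm P : ℝ) < T
        · have hPS : P ∈ S' := hS' P hP hPI hsmall
          have h1 := ih _ hlt J hJ0 rfl (S'.erase P) (by
            intro P' hP' hP'J hP'T
            rw [Finset.mem_erase]
            refine ⟨?_, hS' P' hP' (hIJ ▸ hP'J.mul_left _) hP'T⟩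
            rintro rfl
            exact hPJ hP'J)
          have hcard : S'.card = (S'.erase P).card + 1 := by
            rw [Finset.card_erase_of_mem hPS]
            have : 0 < S'.card := Finset.card_pos.2 ⟨P, hPS⟩
            omega
          have h2 : (e : ℝ) + 1 ≤ C₀ * (Ideal.absNorm P : ℝ) ^ (η * e) := by
            refine (hC₀e e).trans ?_
            apply mul_le_mul_of_nonneg_left _ (by linarith)
            exact Real.rpow_le_rpow (by norm_num) hNP' (by positivity)
          calc (nd I : ℝ) ≤ (e + 1) * nd J := hnd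
            _ ≤ (C₀ * (Ideal.absNorm P : ℝ) ^ (η * e)) *
                (C₀ ^ (S'.erase P).card * (Ideal.absNorm J : ℝ) ^ η) :=
                mul_le_mul h2 h1 (by positivity) (by positivity)
            _ = _ := by
                rw [hNIr, hcard, pow_succ]
                ring
        · push Not at hsmall
          have h1 := ih _ hlt J hJ0 rfl S' (by
            intro P' hP' hP'J hP'T
            exact hS' P' hP' (hIJ ▸ hP'J.mul_left _) hP'T)
          have h2 : (e : ℝ) + 1 ≤ (Ideal.absNorm P : ℝ) ^ (η * e) := by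
            have h3 : (e : ℝ) + 1 ≤ 2 ^ e := by
              have : e + 1 ≤ 2 ^ e := Nat.lt_two_pow_self
              exact_mod_cast this
            have h4 : (2 : ℝ) ^ e = T ^ (η * e) := by
              rw [hT, ← Real.rpow_mul (by norm_num), ← Real.rpow_natCast]
              congr 1
              field_simp
            rw [h4] at h3
            exact h3.trans (Real.rpow_le_rpow (by positivity) hsmall (by positivity))
          calc (nd I : ℝ) ≤ (e + 1) * nd J := hnd
            _ ≤ (Ideal.absNorm P : ℝ) ^ (η * e) *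
                (C₀ ^ S'.card * (Ideal.absNorm J : ℝ) ^ η) :=
                mul_le_mul h2 h1 (by positivity) (by positivity)
            _ = _ := by
                rw [hNIr]
                ring
  refine ⟨C₀ ^ S.card, by positivity, ?_⟩
  intro I hI
  apply key _ I hI rfl S
  intro P _ _ hPT
  rw [hS, Set.Finite.mem_toFinset]
  have h1 : (Ideal.absNorm P : ℝ) ≤ ⌈T⌉₊ := hPT.le.trans (Nat.le_ceil T)
  exact_mod_cast h1

end Pool.Agent.helper95.LK
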