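import Pool.Agent.helper95.LK.Kum

/-! # The Kummer bound -/

namespace Pool.Agent.helper95.LK

open Pool.Agent.helper11.SG NumberField Pool.Agent.helper95.LC

/-- The bound from a small integer `γ` of the cyclotomic field that is one modulo two and not a
power residue of any prime exponent dividing `h`. -/
theorem kummer_bound {K : Type} [Field K] [NumberField K] {h : ℕ} [NeZero h]
    [hc : IsCyclotomicExtension {h} ℚ K] (hodd : Odd h) (γ : 𝓞 K) (hγ0 : γ ≠ 0)
    (hγ2 : (2 : 𝓞 K) ∣ γ - 1) {B : ℝ} (hB1 : 1 ≤ B) (hγB : ∀ w : K →+* ℂ, ‖w (γ : K)‖ ≤ B)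
    {p : ℕ} [hp : Fact p.Prime] (hph : ¬ p ∣ h) (hpB : B ^ h.totient < p) (Q : Ideal (𝓞 K))
    [hQ : Q.IsMaximal] (hpQ : (p : 𝓞 K) ∈ Q)
    (hres : ∀ r : ℕ, r.Prime → r ∣ h → ∀ b : 𝓞 K, b ^ r - γ ∉ Q)
    (F : Type*) [Field F] [Finite F] (hF : Nat.card F = p ^ h) :
    ∃ k : ℕ, (Nat.card F : ℝ) ^ (3 / 2 : ℝ) ≤
      (14 * ((h * h.totient + h) ^ (h.totient + h.totient) : ℕ) *
        (((h * h.totient + h) ^ (h.totient + h.totient) : ℕ) *
          B ^ ((h * h.totient + h) * (h.totient + h.totient)))) ^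
        (3 * (h * h.totient + h) ^ (h.totient + h.totient)) * k ∧ Big F k := by
  classical
  have hh0 : 0 < h := NeZero.pos h
  have hcop2 : Nat.Coprime 2 h := Nat.coprime_two_left.2 hodd
  set ζ : K := IsCyclotomicExtension.zeta h ℚ K with hζdef
  have hζ : IsPrimitiveRoot ζ h := IsCyclotomicExtension.zeta_spec h ℚ K
  obtain ⟨L, _, _, _, κ, _, t, y, hκ, hκne, hy, htop⟩ := exists_kummer_field ζ hζ (γ : K)
  -- maps on integers
  let T : κ → (𝓞 K →+* 𝓞 L) := fun k => RingOfIntegers.mapRingHom (t k)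
  have hT : ∀ k a, ((T k a : 𝓞 L) : L) = t k (a : K) := fun k a => rfl
  have hyint : ∀ k, IsIntegral ℤ (y k) := by
    intro k
    apply IsIntegral.of_pow hh0
    rw [hy, ← hT]
    exact (T k γ).2
  let Y : κ → 𝓞 L := fun k => ⟨y k, hyint k⟩
  have hY : ∀ k, Y k ^ h = T k γ := by
    intro k
    apply RingOfIntegers.ext
    exact hy k
  let Z : 𝓞 K := hζ.toInteger
  have hZh : Z ^ h = 1 := hζ.toInteger_isPrimitiveRoot.pow_eq_one
  have hZtop : Algebra.adjoin ℤ {Z} = ⊤ := IsCyclotomicExtension.Rat.adjoin_singleton_eq_top hζ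
  let s : κ ⊕ κ → 𝓞 L := Sum.elim (fun k => T k Z) Y
  have hcardκ : Fintype.card (κ ⊕ κ) = h.totient + h.totient := by
    rw [Fintype.card_sum, hκ]
  have hφ1 : 1 ≤ h.totient := Nat.totient_pos.2 hh0
  have hfinK : Module.finrank ℚ K = h.totient := IsCyclotomicExtension.Rat.finrank h K
  set D := h * h.totient + h with hD
  have hD0 : 0 < D := by omega
  -- generation
  have hgen : Algebra.adjoin ℚ (Set.range fun k => ((s k : 𝓞 L) : L)) = ⊤ := by
    rw [← htop]
    congr 1
    ext x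
    simp only [Set.mem_range, Set.mem_union, Sum.exists, s, Sum.elim_inl, Sum.elim_inr]
    rfl
  -- polynomials
  have hpoly : ∀ k, ∃ f : Polynomial ℤ, f.Monic ∧ f.natDegree = D ∧
      Polynomial.aeval ((s k : 𝓞 L) : L) f = 0 := by
    rintro (k | k)
    · apply exists_monic_deg _ (Polynomial.X ^ h - Polynomial.C 1 : Polynomial ℤ)
        (Polynomial.monic_X_pow_sub_C _ hh0.ne')
      · rw [Polynomial.natDegree_X_pow_sub_C]
        omega
      · change Polynomial.aeval (t k (Z : K)) (Polynomial.X ^ h - Polynomial.C 1 : Polynomial ℤ) = 0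
        have h1 : (Z : K) ^ h = 1 := hζ.pow_eq_one
        rw [map_sub, map_pow, Polynomial.aeval_X, Polynomial.aeval_C, ← map_pow, h1, map_one,
          map_one, sub_self]
    · have hγint : IsIntegral ℤ (γ : K) := γ.2
      apply exists_monic_deg _ (Polynomial.expand ℤ h (minpoly ℤ (γ : K)))
      · exact (minpoly.monic hγint).expand hh0
      · rw [Polynomial.natDegree_expand]
        have h1 : (minpoly ℤ (γ : K)).natDegree ≤ h.totient := by
          rw [← hfinK]
          have h2 := minpoly.isIntegrallyClosed_eq_field_fractions' ℚ hγint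
          have h3 := congrArg Polynomial.natDegree h2
          rw [(minpoly.monic hγint).natDegree_map] at h3
          rw [← h3]
          exact minpoly.natDegree_le _
        rw [hD]
        nlinarith
      · rw [Polynomial.expand_aeval]
        have h1 : ((s (Sum.inr k) : 𝓞 L) : L) ^ h = t k (γ : K) := hy k
        rw [h1]
        have h2 : Polynomial.aeval (t k (γ : K)) (minpoly ℤ (γ : K)) =
            t k (Polynomial.aeval (γ : K) (minpoly ℤ (γ : K))) := by
          exact (Polynomial.aeval_algHom_apply ((t k).restrictScalars ℤ) _ _)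
        rw [h2, minpoly.aeval, map_zero]
  -- the power modulo two
  have h2gen : ∀ k, ∃ a ∈ Algebra.adjoin ℤ (Set.range s),
      (s k) ^ (2 ^ h.totient) - s k = 2 * a := by
    have hTZ : ∀ k, (T k Z) ^ h = 1 := by
      intro k
      rw [← map_pow, hZh, map_one]
    rintro (k | k)
    · refine ⟨0, Subalgebra.zero_mem _, ?_⟩
      have h3 : (T k Z) ^ (2 ^ h.totient) = (T k Z) ^ 1 :=
        pow_eq_pow_of_modEq (Nat.ModEq.pow_totient hcop2) (hTZ k)
      change (T k Z) ^ (2 ^ h.totient) - T k Z = 2 * 0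
      rw [h3, pow_one, sub_self, mul_zero]
    · obtain ⟨δ, hδ⟩ := hγ2
      have hδA : T k δ ∈ Algebra.adjoin ℤ (Set.range s) := by
        have h1 : δ ∈ Algebra.adjoin ℤ {Z} := by rw [hZtop]; exact Algebra.mem_top
        have h2 : T k δ ∈ (Algebra.adjoin ℤ {Z}).map (T k).toIntAlgHom := ⟨δ, h1, rfl⟩
        rw [AlgHom.map_adjoin, Set.image_singleton] at h2
        refine Algebra.adjoin_mono ?_ h2
        rintro _ rfl
        exact ⟨Sum.inl k, rfl⟩
      have hYγ : Y k ^ h = 1 + 2 * T k δ := by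
        rw [hY]
        have h1 : γ = 1 + 2 * δ := by linear_combination hδ
        rw [h1, map_add, map_mul, map_one, map_ofNat]
      have hmod : h ∣ 2 ^ h.totient - 1 :=
        (Nat.modEq_iff_dvd' Nat.one_le_two_pow).1 (Nat.ModEq.pow_totient hcop2).symm
      obtain ⟨c, hcc⟩ := hmod
      obtain ⟨w, hw, h3⟩ := one_add_pow _ hδA c
      refine ⟨Y k * w, Subalgebra.mul_mem _ (Algebra.subset_adjoin ⟨Sum.inr k, rfl⟩) hw, ?_⟩
      change (Y k) ^ (2 ^ h.totient) - Y k = 2 * (Y k * w)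
      have h4 : 2 ^ h.totient = h * c + 1 := by
        have : 1 ≤ 2 ^ h.totient := Nat.one_le_two_pow
        omega
      rw [h4, pow_succ, pow_mul, hYγ, h3]
      ring
  -- sizes
  have hsB : ∀ (w : L →+* ℂ) (k : κ ⊕ κ), ‖w (s k : L)‖ ≤ B := by
    intro w k
    rcases k with k | k
    · have h1 : (w (t k (Z : K))) ^ h = 1 := by
        rw [← map_pow, ← map_pow]
        have h1 : (Z : K) ^ h = 1 := hζ.pow_eq_one
        rw [h1, map_one, map_one]
      change ‖w (t k (Z : K))‖ ≤ B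
      rw [Complex.norm_eq_one_of_pow_eq_one h1 hh0.ne']
      exact hB1
    · change ‖w (y k)‖ ≤ B
      have h1 : ‖w (y k)‖ ^ h ≤ B := by
        rw [← norm_pow, ← map_pow, hy]
        exact hγB (w.comp (t k : K →+* L))
      by_contra hlt
      push Not at hlt
      have h2 : 1 ≤ ‖w (y k)‖ := hB1.trans hlt.le
      have h3 : ‖w (y k)‖ ≤ ‖w (y k)‖ ^ h := le_self_pow₀ h2 hh0.ne'
      linarith
  -- the prime
  obtain ⟨k₀⟩ := hκne
  let _ : Algebra (𝓞 K) (𝓞 L) := (T k₀).toAlgebra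
  have halg : algebraMap (𝓞 K) (𝓞 L) = T k₀ := rfl
  have hint : Algebra.IsIntegral (𝓞 K) (𝓞 L) :=
    ⟨fun x => (RingOfIntegers.isIntegral x).tower_top⟩
  have hTinj : ∀ k, Function.Injective (T k) := by
    intro k a b hab
    apply RingOfIntegers.ext
    apply (t k).injective
    exact congrArg (fun z : 𝓞 L => (z : L)) hab
  obtain ⟨P, hP, hPQ⟩ := Ideal.exists_ideal_over_maximal_of_isIntegral (S := 𝓞 L) Q (by
    rw [halg, (RingHom.injective_iff_ker_eq_bot _).1 (hTinj k₀)]
    exact bot_le)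
  rw [halg] at hPQ
  have hpP : (p : 𝓞 L) ∈ P := by
    rw [← hPQ, Ideal.mem_comap, map_natCast] at hpQ
    exact hpQ
  have hPbot : P ≠ ⊥ := by
    rintro rfl
    rw [Ideal.mem_bot] at hpP
    exact hp.out.ne_zero (by exact_mod_cast hpP)
  have hQbot : Q ≠ ⊥ := by
    rintro rfl
    rw [Ideal.mem_bot] at hpQ
    exact hp.out.ne_zero (by exact_mod_cast hpQ)
  have hfinP : Finite (𝓞 L ⧸ P) := Ring.HasFiniteQuotients.finiteQuotient hPbot
  have hfinQ : Finite (𝓞 K ⧸ Q) := Ring.HasFiniteQuotients.finiteQuotient hQbot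
  let _ : Field (𝓞 L ⧸ P) := Ideal.Quotient.field P
  let _ : Field (𝓞 K ⧸ Q) := Ideal.Quotient.field Q
  let _ : Fintype (𝓞 L ⧸ P) := Fintype.ofFinite _
  let _ : Fintype (𝓞 K ⧸ Q) := Fintype.ofFinite _
  have hp0P : (p : 𝓞 L ⧸ P) = 0 := by
    rw [← map_natCast (Ideal.Quotient.mk P)]
    exact Ideal.Quotient.eq_zero_iff_mem.2 hpP
  have hp0Q : (p : 𝓞 K ⧸ Q) = 0 := by
    rw [← map_natCast (Ideal.Quotient.mk Q)]
    exact Ideal.Quotient.eq_zero_iff_mem.2 hpQ
  have hcharP : CharP (𝓞 L ⧸ P) p := ringChar.of_eq (CharP.ringChar_of_prime_eq_zero hp.out hp0P)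
  have hcharQ : CharP (𝓞 K ⧸ Q) p := ringChar.of_eq (CharP.ringChar_of_prime_eq_zero hp.out hp0Q)
  obtain ⟨f, -, hf⟩ := FiniteField.card (𝓞 L ⧸ P) p
  obtain ⟨d, -, hd⟩ := FiniteField.card (𝓞 K ⧸ Q) p
  rw [← Nat.card_eq_fintype_card] at hf hd
  -- the degree
  have hhf : h ∣ (f : ℕ) := by
    let ψ : 𝓞 K ⧸ Q →+* 𝓞 L ⧸ P := Ideal.quotientMap P (T k₀) hPQ.ge
    apply dvd_of_nonresidue ψ hodd (a := Ideal.Quotient.mk Q γ) _
      (x := Ideal.Quotient.mk P (Y k₀)) _ hp.out.one_lt hd hf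
    · intro r hr hrh b hb
      obtain ⟨b, rfl⟩ := Ideal.Quotient.mk_surjective b
      apply hres r hr hrh b
      rw [← Ideal.Quotient.eq_zero_iff_mem, map_sub, map_pow, hb, sub_self]
    · rw [← map_pow, hY]
      rfl
  obtain ⟨e, he⟩ := hhf
  have he1 : 1 ≤ e := by
    rcases Nat.eq_zero_or_pos e with h0 | h0
    · rw [h0, mul_zero] at he
      exact absurd he f.ne_zero
    · exact h0
  rw [he] at hf
  -- inertia
  have hhP : (h : 𝓞 L) ∉ P := by
    intro hhP
    have hcop : Nat.Coprime h p := (Nat.Coprime.symm (hp.out.coprime_iff_not_dvd.2 hph))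
    have h7 := Nat.gcd_eq_gcd_ab h p
    rw [hcop] at h7
    have h8 := congrArg (fun z : ℤ => (z : 𝓞 L)) h7
    push_cast at h8
    apply hP.ne_top
    rw [Ideal.eq_top_iff_one, h8]
    exact P.add_mem (P.mul_mem_right _ hhP) (P.mul_mem_right _ hpP)
  have hPprime : P.IsPrime := hP.isPrime
  have hTγ : ∀ k, T k γ ∉ P := by
    intro k hk
    have h1 : (P.comap (T k)) ≠ ⊤ := by
      rw [Ideal.ne_top_iff_one, Ideal.mem_comap, map_one]
      exact (Ideal.ne_top_iff_one P).1 hP.ne_top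
    exact not_mem_of_small γ hγ0 hγB hp.out (by rw [hfinK]; exact hpB) (P.comap (T k)) h1
      (by rw [Ideal.mem_comap, map_natCast]; exact hpP) hk
  have hin : ∀ σ : Gal(L/ℚ), (∀ x : 𝓞 L, σ • x - x ∈ P) → σ = 1 := by
    intro σ hσ
    have hZ1 : ∀ k, σ (t k (Z : K)) = t k (Z : K) := by
      intro k
      have h1 : σ • (T k Z) = T k Z := by
        apply eq_of_congr P hh0 _ (hσ _) _ hhP
        · rw [← smul_pow', ← map_pow, hZh, map_one, smul_one]
        · intro h2
          have h3 := P.pow_mem_of_mem h2 h hh0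
          rw [← map_pow, hZh, map_one] at h3
          exact hP.ne_top ((Ideal.eq_top_iff_one P).2 h3)
      exact congrArg (fun z : 𝓞 L => (z : L)) h1
    have hcomp : ∀ k, (σ : L →ₐ[ℚ] L).comp (t k) = t k := by
      intro k
      have hK : Algebra.adjoin ℚ {ζ} = ⊤ := IsCyclotomicExtension.adjoin_primitive_root_eq_top hζ
      apply AlgHom.ext_of_adjoin_eq_top hK
      intro z hz
      rw [Set.mem_singleton_iff] at hz
      rw [hz]
      exact hZ1 k
    have hY1 : ∀ k, σ (y k) = y k := by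
      intro k
      have h1 : σ • (Y k) = Y k := by
        apply eq_of_congr P hh0 _ (hσ _) _ hhP
        · rw [← smul_pow', hY]
          apply RingOfIntegers.ext
          exact DFunLike.congr_fun (hcomp k) (γ : K)
        · intro h2
          have h3 := P.pow_mem_of_mem h2 h hh0
          rw [hY] at h3
          exact hTγ k h3
      exact congrArg (fun z : 𝓞 L => (z : L)) h1
    have h9 : (σ : L →ₐ[ℚ] L) = AlgHom.id ℚ L := by
      apply AlgHom.ext_of_adjoin_eq_top htop
      rintro x (⟨k, rfl⟩ | ⟨k, rfl⟩)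
      · exact hZ1 k
      · exact hY1 k
    apply AlgEquiv.ext
    intro x
    exact DFunLike.congr_fun h9 x
  have hfinal := galois_bound s hD0 hpoly hgen hφ1 h2gen hB1 hsB P hpP hh0 he1 hf hin F hF
  rw [hcardκ] at hfinal
  exact hfinal

end Pool.Agent.helper95.LK
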