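import Pool.Agent.helper95.LK.Few
import Pool.Agent.helper95.LK.KB

/-! # A prime with a small nonresidue for each prime exponent is good -/

namespace Pool.Agent.helper95.LK

open NumberField Finset Pool.Agent.helper95.LC Pool.Agent.helper11.SG

/-- exponents by the Chinese remainder theorem -/
lemma exists_crt (h : ℕ) : ∃ c : ℕ → ℕ, ∀ r ∈ h.primeFactors,
    (∃ m, c r = 1 + r * m) ∧ ∀ r' ∈ h.primeFactors, r' ≠ r → r' ∣ c r := by
  classical
  have key : ∀ r : ℕ, ∃ c : ℕ, r ∈ h.primeFactors →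
      (∃ m, c = 1 + r * m) ∧ ∀ r' ∈ h.primeFactors, r' ≠ r → r' ∣ c := by
    intro r
    by_cases hr : r ∈ h.primeFactors
    · have hrp : r.Prime := Nat.prime_of_mem_primeFactors hr
      have hcop : Nat.Coprime (∏ r' ∈ h.primeFactors.erase r, r') r := by
        apply Nat.Coprime.prod_left
        intro i hi
        rw [mem_erase] at hi
        exact (Nat.coprime_primes (Nat.prime_of_mem_primeFactors hi.2) hrp).2 hi.1
      obtain ⟨m, -, hm⟩ := Nat.exists_mul_mod_eq_one_of_coprime hcop hrp.one_lt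
      refine ⟨(∏ r' ∈ h.primeFactors.erase r, r') * m, fun _ => ⟨?_, ?_⟩⟩
      · refine ⟨(∏ r' ∈ h.primeFactors.erase r, r') * m / r, ?_⟩
        have h1 := Nat.mod_add_div ((∏ r' ∈ h.primeFactors.erase r, r') * m) r
        rw [hm] at h1
        exact h1.symm
      · intro r' hr' hne
        apply Dvd.dvd.mul_right
        exact Finset.dvd_prod_of_mem (fun i => i) (mem_erase.2 ⟨hne, hr'⟩)
    · exact ⟨0, fun h => absurd h hr⟩
  choose c hc using key
  exact ⟨c, hc⟩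

lemma prod_nonresidue {k : Type*} [Field k] {s : Finset ℕ} {c : ℕ → ℕ}
    (hc : ∀ r ∈ s, (∃ m, c r = 1 + r * m) ∧ ∀ r' ∈ s, r' ≠ r → r' ∣ c r) (d : ℕ → k)
    (hd : ∀ r ∈ s, d r ≠ 0) (hd' : ∀ r ∈ s, ¬ ∃ y, y ^ r = d r) :
    ∀ r ∈ s, ¬ ∃ y, y ^ r = ∏ r' ∈ s, d r' ^ c r' := by
  classical
  rintro r hr ⟨y, hy⟩
  apply hd' r hr
  obtain ⟨m, hm⟩ := (hc r hr).1
  set e : k := ∏ r' ∈ s.erase r, d r' ^ (c r' / r) with he
  have he0 : e ≠ 0 := by
    rw [he]
    apply Finset.prod_ne_zero_iff.2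
    intro r' hr'
    exact pow_ne_zero _ (hd r' (mem_of_mem_erase hr'))
  have her : e ^ r = ∏ r' ∈ s.erase r, d r' ^ c r' := by
    rw [he, ← Finset.prod_pow]
    apply Finset.prod_congr rfl
    intro r' hr'
    rw [mem_erase] at hr'
    rw [← pow_mul, Nat.div_mul_cancel ((hc r' hr'.2).2 r hr (Ne.symm hr'.1))]
  rw [← mul_prod_erase s _ hr, ← her, hm] at hy
  refine ⟨y / (d r ^ m * e), ?_⟩
  have h1 := hd r hr
  rw [div_pow, hy, mul_pow, ← pow_mul, mul_comm m r]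
  field_simp
  ring

/-- there is a maximal ideal over each prime -/
lemma exists_max {K : Type*} [Field K] [NumberField K] {p : ℕ} (hp : p.Prime) :
    ∃ Q : Ideal (𝓞 K), Q.IsMaximal ∧ (p : 𝓞 K) ∈ Q := by
  have : (Ideal.span {(p : ℤ)}).IsMaximal :=
    PrincipalIdealRing.isMaximal_of_irreducible (Nat.prime_iff_prime_int.1 hp).irreducible
  obtain ⟨⟨P, hP1, hP2⟩⟩ := (Ideal.span {(p : ℤ)}).nonempty_primesOver (S := 𝓞 K)
  have hmem : (p : 𝓞 K) ∈ P := by
    have h1 : (p : ℤ) ∈ P.under ℤ := by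
      rw [← hP2.over]
      exact Ideal.mem_span_singleton_self _
    rw [Ideal.under_def, Ideal.mem_comap] at h1
    simpa using h1
  have hbot : P ≠ ⊥ := by
    rintro rfl
    rw [Ideal.mem_bot] at hmem
    exact hp.ne_zero (by exact_mod_cast hmem)
  exact ⟨P, Ring.DimensionLEOne.maximalOfPrime hbot hP1, hmem⟩

/-- the exponent divides the order of the group of units of the residue field -/
lemma dvd_card {K : Type*} [Field K] [NumberField K] {h : ℕ} [NeZero h]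
    [IsCyclotomicExtension {h} ℚ K] {p : ℕ} (hp : p.Prime) (hph : ¬ p ∣ h) (Q : Ideal (𝓞 K))
    [hQ : Q.IsMaximal] (hpQ : (p : 𝓞 K) ∈ Q) : h ∣ Nat.card (𝓞 K ⧸ Q) - 1 := by
  classical
  let _ : Field (𝓞 K ⧸ Q) := Ideal.Quotient.field Q
  have hζ : IsPrimitiveRoot (IsCyclotomicExtension.zeta h ℚ K) h :=
    IsCyclotomicExtension.zeta_spec h ℚ K
  have _i : Fintype (𝓞 K ⧸ Q) := Fintype.ofFinite _
  have hfact : Fact p.Prime := ⟨hp⟩
  have hchar : CharP (𝓞 K ⧸ Q) p := by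
    have h0 : ((p : ℕ) : 𝓞 K ⧸ Q) = 0 := by
      have : Ideal.Quotient.mk Q (p : 𝓞 K) = 0 := Ideal.Quotient.eq_zero_iff_mem.2 hpQ
      rw [map_natCast] at this
      exact this
    obtain ⟨q, hq⟩ := CharP.exists (𝓞 K ⧸ Q)
    have hd : q ∣ p := (CharP.cast_eq_zero_iff _ q p).1 h0
    rcases (Nat.dvd_prime hp).1 hd with h1 | h1
    · exact absurd h1 (CharP.char_ne_one (𝓞 K ⧸ Q) q)
    · rw [← h1]
      exact hq
  obtain ⟨f, -, hf⟩ := FiniteField.card (𝓞 K ⧸ Q) p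
  have hnorm : Ideal.absNorm Q = p ^ (f : ℕ) := by
    rw [Ideal.absNorm_apply, Submodule.cardQuot_apply, ← hf, Nat.card_eq_fintype_card]
  have h1 : Ideal.absNorm Q ≠ 1 := Ideal.absNorm_eq_one_iff.not.2 hQ.ne_top
  have h2 : (Ideal.absNorm Q).Coprime h := by
    rw [hnorm]
    exact Nat.Coprime.pow_left _ (hp.coprime_iff_not_dvd.2 hph)
  have h3 := (hζ.toInteger_isPrimitiveRoot).idealQuotient_mk h1 h2
  set z := Ideal.Quotient.mk Q hζ.toInteger with hz
  have hz0 : z ≠ 0 := h3.ne_zero (NeZero.ne h)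
  have h4 : z ^ (Fintype.card (𝓞 K ⧸ Q) - 1) = 1 := FiniteField.pow_card_sub_one_eq_one z hz0
  rw [Nat.card_eq_fintype_card]
  exact h3.dvd_of_pow_eq_one _ h4

/-- A prime `p` for which each prime exponent has a small nonresidue is good. -/
theorem good_aux {K : Type} [Field K] [NumberField K] {h : ℕ} [NeZero h]
    [IsCyclotomicExtension {h} ℚ K] (hodd : Odd h) {ι : Type*} [Fintype ι] [DecidableEq ι]
    [Nonempty ι] (b : Module.Basis ι ℤ (𝓞 K)) {M : ℕ} (hM1 : 1 ≤ M)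
    (hM : ∀ (w : K →+* ℂ) i, ‖w (b i : K)‖ ≤ M) : ∃ s : ℕ, ∃ C : ℝ, 1 ≤ C ∧
      ∀ D : ℕ, 1 ≤ D → ∀ p : ℕ, p.Prime → ¬ p ∣ h → ∀ Q : Ideal (𝓞 K), Q.IsMaximal →
      (p : 𝓞 K) ∈ Q → C * (3 / 2 * ((4 * Fintype.card ι * M * D + 1 : ℕ) : ℝ)) ^ s < p →
      (∀ r ∈ h.primeFactors, ∃ a : ι → Fin D,
        ¬ (dl b M D a ∉ Q ∧ ∃ y, y ^ r - dl b M D a ∈ Q)) →
      ∀ (F : Type*) [Field F] [Finite F], Nat.card F = p ^ h → ∃ k : ℕ,
        (Nat.card F : ℝ) ^ (3 / 2 : ℝ) ≤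
          C * (3 / 2 * ((4 * Fintype.card ι * M * D + 1 : ℕ) : ℝ)) ^ s * k ∧ Big F k := by
  classical
  obtain ⟨c, hc⟩ := exists_crt h
  have hh0 : 0 < h := NeZero.pos h
  have hφ1 : 1 ≤ h.totient := Nat.totient_pos.2 hh0
  set E : ℕ := ∑ r ∈ h.primeFactors, c r with hE
  set m₁ : ℕ := (h * h.totient + h) * (h.totient + h.totient) with hm₁
  set N : ℕ := (h * h.totient + h) ^ (h.totient + h.totient) with hN
  have hN1 : 1 ≤ N := Nat.one_le_pow _ _ (by positivity)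
  have hN1' : (1 : ℝ) ≤ N := by exact_mod_cast hN1
  have hfin : Module.finrank ℚ K = Fintype.card ι := by
    rw [← RingOfIntegers.rank, Module.finrank_eq_card_basis b]
  set n : ℕ := Fintype.card ι with hn
  refine ⟨n + E * h.totient + E * m₁ * (3 * N), (14 * (N : ℝ) * N) ^ (3 * N), ?_, ?_⟩
  · apply one_le_pow₀
    nlinarith
  intro D hD p hp hph Q hQ hpQ hsmall hnon F _ _ hF
  have hC1 : (1 : ℝ) ≤ (14 * (N : ℝ) * N) ^ (3 * N) := by
    apply one_le_pow₀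
    nlinarith
  set C : ℝ := (14 * (N : ℝ) * N) ^ (3 * N) with hC
  set A : ℕ := 4 * n * M * D + 1 with hA
  set T : ℝ := 3 / 2 * (A : ℝ) with hT
  have hT1 : 1 ≤ T := by
    have : (1 : ℝ) ≤ A := by
      rw [hA]; push_cast
      have : (0 : ℝ) ≤ 4 * n * M * D := by positivity
      linarith
    linarith
  have hT0 : 0 ≤ T := by linarith
  have hfact : Fact p.Prime := ⟨hp⟩
  have hpow : ∀ j, j ≤ n + E * h.totient + E * m₁ * (3 * N) → T ^ j ≤
      C * T ^ (n + E * h.totient + E * m₁ * (3 * N)) := by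
    intro j hj
    calc T ^ j ≤ T ^ (n + E * h.totient + E * m₁ * (3 * N)) := pow_le_pow_right₀ hT1 hj
      _ = 1 * T ^ (n + E * h.totient + E * m₁ * (3 * N)) := (one_mul _).symm
      _ ≤ _ := mul_le_mul_of_nonneg_right hC1 (by positivity)
  have hnotin : ∀ a : ι → Fin D, dl b M D a ∉ Q := by
    intro a
    apply not_mem_of_small (dl b M D a) (dl_ne_zero b hM D a) (B := T)
      (fun w => (dl_bounds b hM D a w).2) hp _ Q hQ.ne_top hpQ
    rw [hfin]
    exact (hpow n (by omega)).trans_lt hsmall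
  have hnon' : ∀ r : ℕ, ∃ a : ι → Fin D, r ∈ h.primeFactors → ¬ ∃ y, y ^ r - dl b M D a ∈ Q := by
    intro r
    by_cases hr : r ∈ h.primeFactors
    · obtain ⟨a, ha⟩ := hnon r hr
      refine ⟨a, fun _ hy => ha ⟨hnotin a, hy⟩⟩
    · exact ⟨fun _ => ⟨0, hD⟩, fun h => absurd h hr⟩
  choose a ha using hnon'
  let _ : Field (𝓞 K ⧸ Q) := Ideal.Quotient.field Q
  set γ : 𝓞 K := ∏ r ∈ h.primeFactors, dl b M D (a r) ^ c r with hγ
  have hγ0 : γ ≠ 0 := by
    rw [hγ]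
    apply Finset.prod_ne_zero_iff.2
    intro r _
    exact pow_ne_zero _ (dl_ne_zero b hM D (a r))
  have hγ2 : (2 : 𝓞 K) ∣ γ - 1 := by
    rw [← Ideal.mem_span_singleton, ← Ideal.Quotient.eq_zero_iff_mem, map_sub, map_one, sub_eq_zero,
      hγ, map_prod]
    apply Finset.prod_eq_one
    intro r _
    rw [map_pow]
    have h1 : Ideal.Quotient.mk (Ideal.span {(2 : 𝓞 K)}) (dl b M D (a r)) = 1 := by
      rw [← sub_eq_zero, ← map_one (Ideal.Quotient.mk (Ideal.span {(2 : 𝓞 K)})), ← map_sub,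
        Ideal.Quotient.eq_zero_iff_mem, Ideal.mem_span_singleton]
      refine ⟨((2 * n * M * D : ℕ) : 𝓞 K) + ∑ i, ((a r i : ℕ) : ℤ) • b i, ?_⟩
      rw [dl]
      push_cast
      ring
    rw [h1, one_pow]
  have hγB : ∀ w : K →+* ℂ, ‖w (γ : K)‖ ≤ T ^ E := by
    intro w
    have h1 : w (γ : K) = ∏ r ∈ h.primeFactors, w (dl b M D (a r) : 𝓞 K) ^ c r := by
      rw [hγ]
      simp only [map_prod, map_pow]
    rw [h1, norm_prod, hE, ← Finset.prod_pow_eq_pow_sum]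
    apply Finset.prod_le_prod
    · intro r _
      positivity
    · intro r _
      rw [norm_pow]
      exact pow_le_pow_left₀ (norm_nonneg _) (dl_bounds b hM D (a r) w).2 _
  have hres : ∀ r : ℕ, r.Prime → r ∣ h → ∀ y : 𝓞 K, y ^ r - γ ∉ Q := by
    intro r hr hrh y hy
    have h1 : ∀ r ∈ h.primeFactors, Ideal.Quotient.mk Q (dl b M D (a r)) ≠ 0 := by
      intro r _ h0
      exact hnotin (a r) (Ideal.Quotient.eq_zero_iff_mem.1 h0)
    have h2 : ∀ r ∈ h.primeFactors, ¬ ∃ y, y ^ r = Ideal.Quotient.mk Q (dl b M D (a r)) := by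
      rintro r hr ⟨z, hz⟩
      obtain ⟨z, rfl⟩ := Ideal.Quotient.mk_surjective z
      apply ha r hr
      refine ⟨z, ?_⟩
      rw [← map_pow] at hz
      exact Ideal.Quotient.eq.1 hz
    apply prod_nonresidue hc (fun r => Ideal.Quotient.mk Q (dl b M D (a r))) h1 h2 r
      (Nat.mem_primeFactors.2 ⟨hr, hrh, hh0.ne'⟩)
    refine ⟨Ideal.Quotient.mk Q y, ?_⟩
    rw [← map_pow, Ideal.Quotient.eq.2 hy, hγ, map_prod]
    simp only [map_pow]
  have hB1 : 1 ≤ T ^ E := one_le_pow₀ hT1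
  have hpB : (T ^ E) ^ h.totient < p := by
    rw [← pow_mul]
    exact (hpow _ (by omega)).trans_lt hsmall
  obtain ⟨k, hk, hbig⟩ := kummer_bound hodd γ hγ0 hγ2 hB1 hγB hph hpB Q hpQ hres F hF
  refine ⟨k, hk.trans ?_, hbig⟩
  apply mul_le_mul_of_nonneg_right _ (by positivity)
  rw [← hN, ← hm₁]
  calc (14 * (N : ℝ) * (N * (T ^ E) ^ m₁)) ^ (3 * N)
      = C * T ^ (E * m₁ * (3 * N)) := by
        rw [hC, pow_mul T (E * m₁), ← mul_pow, pow_mul T E]
        ring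
    _ ≤ C * T ^ (n + E * h.totient + E * m₁ * (3 * N)) := by
        apply mul_le_mul_of_nonneg_left _ (by linarith)
        exact pow_le_pow_right₀ hT1 (by omega)

end Pool.Agent.helper95.LK
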