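import Pool.Agent.helper95.LK.Exc1

/-! # The number of exceptional primes for a fixed exponent -/

namespace Pool.Agent.helper95.LK

open NumberField Finset Pool.Agent.helper95.LC Pool.Agent.helper11.SG

universe u

/-- `p` is good for the exponent `h` and the loss `ε`. -/
def Good (ε : ℝ) (h p : ℕ) : Prop := ∀ (F : Type u) [Field F] [Finite F], Nat.card F = p ^ h →
  ∃ k : ℕ, (Nat.card F : ℝ) ^ (3 / 2 - ε : ℝ) ≤ k ∧ Big F k

/-- a choice of the size of the digits -/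
lemma exists_digits (N : ℕ) {k : ℕ} (hk : 1 ≤ k) : ∃ C : ℝ, 0 < C ∧ ∀ x : ℕ, 1 ≤ x →
    ∃ D : ℕ, 1 ≤ D ∧ N * x ^ 3 ≤ D ^ k ∧ (D : ℝ) ≤ C * (x : ℝ) ^ ((3 : ℝ) / k) := by
  have hk0 : (k : ℝ) ≠ 0 := by exact_mod_cast (by omega : k ≠ 0)
  refine ⟨((N : ℝ) + 1) ^ ((1 : ℝ) / k) + 1, by positivity, ?_⟩
  intro x hx
  have hx1 : (1 : ℝ) ≤ x := by exact_mod_cast hx
  set t : ℝ := (((N : ℝ) + 1) * (x : ℝ) ^ 3) ^ ((1 : ℝ) / k) with ht
  have ht0 : 0 < t := by positivity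
  refine ⟨⌈t⌉₊, Nat.one_le_ceil_iff.2 ht0, ?_, ?_⟩
  · have h1 : t ^ k = ((N : ℝ) + 1) * (x : ℝ) ^ 3 := by
      rw [ht, ← Real.rpow_natCast, ← Real.rpow_mul (by positivity), one_div, inv_mul_cancel₀ hk0,
        Real.rpow_one]
    have h2 : (N : ℝ) * (x : ℝ) ^ 3 ≤ (⌈t⌉₊ : ℝ) ^ k := by
      calc (N : ℝ) * (x : ℝ) ^ 3 ≤ ((N : ℝ) + 1) * (x : ℝ) ^ 3 := by
            apply mul_le_mul_of_nonneg_right _ (by positivity)
            linarith
        _ = t ^ k := h1.symm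
        _ ≤ _ := pow_le_pow_left₀ ht0.le (Nat.le_ceil t) k
    exact_mod_cast h2
  · have h1 : (⌈t⌉₊ : ℝ) ≤ t + 1 := (Nat.ceil_lt_add_one ht0.le).le
    have h2 : t = ((N : ℝ) + 1) ^ ((1 : ℝ) / k) * (x : ℝ) ^ ((3 : ℝ) / k) := by
      rw [ht, Real.mul_rpow (by positivity) (by positivity), ← Real.rpow_natCast (x : ℝ) 3,
        ← Real.rpow_mul (by positivity)]
      congr 2
      push_cast
      ring
    have h3 : (1 : ℝ) ≤ (x : ℝ) ^ ((3 : ℝ) / k) := Real.one_le_rpow hx1 (by positivity)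
    linarith

/-- The number of exceptional primes between the square root of `x` and `x`. -/
theorem exc_step (h : ℕ) (hodd : Odd h) {ε δ : ℝ} (hε : 0 < ε) (hδ : 0 < δ) : ∃ C : ℝ, 0 < C ∧
    ∀ x : ℕ, 1 ≤ x → ∀ B : Finset ℕ, (∀ p ∈ B, p.Prime ∧ p ≤ x ∧ x < p ^ 2 ∧ ¬ Good.{u} ε h p) →
      (B.card : ℝ) ≤ C * (x : ℝ) ^ δ := by
  classical
  have hh0 : 0 < h := hodd.pos
  have : NeZero h := ⟨hh0.ne'⟩
  have hm0 : NeZero ((h : ℕ) : ℚ) := ⟨by exact_mod_cast NeZero.ne h⟩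
  let K := CyclotomicField h ℚ
  have hcyc : IsCyclotomicExtension {h} ℚ K := CyclotomicField.isCyclotomicExtension h ℚ
  have hnf : NumberField K := IsCyclotomicExtension.numberField {h} ℚ K
  let b := RingOfIntegers.basis K
  set ι := Module.Free.ChooseBasisIndex ℤ (𝓞 K) with hι
  have hne : Nonempty ι := by
    by_contra hcon
    rw [not_nonempty_iff] at hcon
    have h1 := b.repr.injective (Subsingleton.elim (b.repr 0) (b.repr 1))
    exact zero_ne_one h1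
  obtain ⟨M, hM1, hM⟩ := exists_basis_bound b
  obtain ⟨s, C₁, hC₁, hgood⟩ := good_aux (h := h) hodd b hM1 hM
  set n := Fintype.card ι with hn
  have hn0 : 0 < n := Fintype.card_pos
  have hh1 : (0 : ℝ) < h := by exact_mod_cast hh0
  -- the parameters
  set θ : ℝ := min (1 / 2) (h * ε / 2) with hθ
  have hθ0 : 0 < θ := lt_min (by norm_num) (by positivity)
  set k : ℕ := ⌈6 * s / θ⌉₊ + ⌈3 / δ⌉₊ + 1 with hk
  have hk1 : 1 ≤ k := by omega
  have hkr : (0 : ℝ) < k := by exact_mod_cast hk1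
  have hk2 : (3 : ℝ) / k * s ≤ θ / 2 := by
    have h1 : 6 * s / θ ≤ k := by
      calc 6 * s / θ ≤ (⌈6 * s / θ⌉₊ : ℝ) := Nat.le_ceil _
        _ ≤ k := by
          have : ⌈6 * s / θ⌉₊ ≤ k := by omega
          exact_mod_cast this
    rw [div_le_iff₀ hθ0] at h1
    rw [div_mul_eq_mul_div, div_le_iff₀ hkr]
    linarith
  have hk3 : (3 : ℝ) / k ≤ δ := by
    have h1 : 3 / δ ≤ k := by
      calc 3 / δ ≤ (⌈3 / δ⌉₊ : ℝ) := Nat.le_ceil _
        _ ≤ k := by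
          have : ⌈3 / δ⌉₊ ≤ k := by omega
          exact_mod_cast this
    rw [div_le_iff₀ hδ] at h1
    rw [div_le_iff₀ hkr]
    linarith
  obtain ⟨C₀, hC₀, hdig⟩ := exists_digits (2 * n) hk1
  have hfew : ∀ r : ℕ, ∃ C : ℝ, 0 < C ∧ (r.Prime → ∀ D x : ℕ, 1 ≤ D → 2 * n * x ^ 3 ≤ D ^ k →
      ∀ (B : Finset ℕ) (Q : ℕ → Ideal (𝓞 K)), (∀ p ∈ B, p.Prime ∧ p ≤ x ∧ (Q p).IsMaximal ∧
        (p : 𝓞 K) ∈ Q p ∧ r ∣ Nat.card (𝓞 K ⧸ Q p) - 1 ∧
        ∀ a : ι → Fin D, dl b M D a ∉ Q p ∧ ∃ y, y ^ r - dl b M D a ∈ Q p) →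
      (B.card : ℝ) ≤ C * D) := by
    intro r
    by_cases hr : r.Prime
    · obtain ⟨C, hC, hC'⟩ := few_bad b hM hr k hk1
      exact ⟨C, hC, fun _ => hC'⟩
    · exact ⟨1, one_pos, fun h => absurd h hr⟩
  choose Cr hCr hfew using hfew
  have hQ : ∀ p : ℕ, ∃ Q : Ideal (𝓞 K), p.Prime → Q.IsMaximal ∧ (p : 𝓞 K) ∈ Q := by
    intro p
    by_cases hp : p.Prime
    · obtain ⟨Q, hQ⟩ := exists_max (K := K) hp
      exact ⟨Q, fun _ => hQ⟩
    · exact ⟨⊤, fun h => absurd h hp⟩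
  choose Q hQ using hQ
  -- the threshold
  set C₃ : ℝ := 8 * n * M * C₀ with hC₃
  have hC₃0 : 0 < C₃ := by
    have h1 : (0 : ℝ) < n := by exact_mod_cast hn0
    have h2 : (0 : ℝ) < M := by exact_mod_cast hM1
    positivity
  obtain ⟨x₀, hx₀⟩ : ∃ x₀ : ℕ, ∀ x : ℕ, x₀ ≤ x → C₁ * C₃ ^ s < (x : ℝ) ^ (θ / 2) := by
    have h1 := (tendsto_rpow_atTop (show 0 < θ / 2 by positivity)).comp
      (tendsto_natCast_atTop_atTop (R := ℝ))
    have h2 := h1.eventually_gt_atTop (C₁ * C₃ ^ s)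
    obtain ⟨x₀, hx₀⟩ := Filter.eventually_atTop.1 h2
    exact ⟨x₀, hx₀⟩
  refine ⟨x₀ + (h + ∑ r ∈ h.primeFactors, Cr r * C₀), ?_, ?_⟩
  · have : 0 ≤ ∑ r ∈ h.primeFactors, Cr r * C₀ :=
      Finset.sum_nonneg fun r _ => (mul_pos (hCr r) hC₀).le
    positivity
  intro x hx B hB
  have hx1 : (1 : ℝ) ≤ x := by exact_mod_cast hx
  have hxδ : (1 : ℝ) ≤ (x : ℝ) ^ δ := Real.one_le_rpow hx1 hδ.le
  have hsum0 : 0 ≤ ∑ r ∈ h.primeFactors, Cr r * C₀ :=
    Finset.sum_nonneg fun r _ => (mul_pos (hCr r) hC₀).le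
  by_cases hxx : x < x₀
  · have h1 : B ⊆ Finset.Icc 1 x := by
      intro p hp
      rw [mem_Icc]
      exact ⟨(hB p hp).1.one_lt.le, (hB p hp).2.1⟩
    have h2 := card_le_card h1
    rw [Nat.card_Icc] at h2
    have h3 : (B.card : ℝ) ≤ x₀ := by
      have : B.card ≤ x₀ := by omega
      exact_mod_cast this
    calc (B.card : ℝ) ≤ x₀ := h3
      _ = x₀ * 1 := (mul_one _).symm
      _ ≤ (x₀ + (h + ∑ r ∈ h.primeFactors, Cr r * C₀)) * (x : ℝ) ^ δ := by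
        apply mul_le_mul _ hxδ zero_le_one (by positivity)
        have : (0 : ℝ) ≤ h := by positivity
        linarith
  push Not at hxx
  obtain ⟨D, hD1, hD2, hD3⟩ := hdig x hx
  set T : ℝ := 3 / 2 * ((4 * n * M * D + 1 : ℕ) : ℝ) with hT
  have hT0 : 0 ≤ T := by positivity
  have hTle : T ≤ C₃ * (x : ℝ) ^ ((3 : ℝ) / k) := by
    have h1 : (1 : ℝ) ≤ n * M * D := by
      have : 1 ≤ n * M * D := Nat.mul_pos (Nat.mul_pos hn0 hM1) hD1
      exact_mod_cast this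
    calc T ≤ 8 * n * M * D := by
          rw [hT]; push_cast; linarith
      _ ≤ 8 * n * M * (C₀ * (x : ℝ) ^ ((3 : ℝ) / k)) := by gcongr
      _ = _ := by rw [hC₃]; ring
  have hTs : C₁ * T ^ s < (x : ℝ) ^ θ := by
    have hx0 : (0 : ℝ) < x := by linarith
    calc C₁ * T ^ s ≤ C₁ * (C₃ * (x : ℝ) ^ ((3 : ℝ) / k)) ^ s := by gcongr
      _ = (C₁ * C₃ ^ s) * (x : ℝ) ^ ((3 : ℝ) / k * s) := by
          rw [mul_pow, Real.rpow_mul hx0.le, Real.rpow_natCast]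
          ring
      _ ≤ (C₁ * C₃ ^ s) * (x : ℝ) ^ (θ / 2) := by
          apply mul_le_mul_of_nonneg_left _ (by positivity)
          exact Real.rpow_le_rpow_of_exponent_le hx1 hk2
      _ < (x : ℝ) ^ (θ / 2) * (x : ℝ) ^ (θ / 2) := by
          apply mul_lt_mul_of_pos_right (hx₀ x hxx) (by positivity)
      _ = (x : ℝ) ^ θ := by
          rw [← Real.rpow_add hx0]
          congr 1
          ring
  -- the exceptional sets
  let Bad : ℕ → Finset ℕ := fun r => B.filter fun p => ¬ p ∣ h ∧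
    ∀ a : ι → Fin D, dl b M D a ∉ Q p ∧ ∃ y, y ^ r - dl b M D a ∈ Q p
  have hcover : B ⊆ h.primeFactors ∪ h.primeFactors.biUnion Bad := by
    intro p hp
    obtain ⟨hpp, hpx, hxp, hnot⟩ := hB p hp
    rw [mem_union]
    by_cases hph : p ∣ h
    · left
      exact Nat.mem_primeFactors.2 ⟨hpp, hph, hh0.ne'⟩
    · right
      by_contra hcon
      apply hnot
      rw [mem_biUnion] at hcon
      push Not at hcon
      have hnon : ∀ r ∈ h.primeFactors, ∃ a : ι → Fin D,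
          ¬ (dl b M D a ∉ Q p ∧ ∃ y, y ^ r - dl b M D a ∈ Q p) := by
        intro r hr
        by_contra hcon2
        push Not at hcon2
        apply hcon r hr
        rw [mem_filter]
        exact ⟨hp, hph, hcon2⟩
      have hxp' : (x : ℝ) < (p : ℝ) ^ 2 := by exact_mod_cast hxp
      have hp0 : (0 : ℝ) < p := by exact_mod_cast hpp.pos
      have hp1 : (1 : ℝ) ≤ p := by exact_mod_cast hpp.one_lt.le
      have hxpow : ∀ c : ℝ, 0 ≤ c → θ ≤ c → (x : ℝ) ^ θ ≤ (p : ℝ) ^ (2 * c) := by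
        intro c hc0 hc
        calc (x : ℝ) ^ θ ≤ (x : ℝ) ^ c := Real.rpow_le_rpow_of_exponent_le hx1 hc
          _ ≤ ((p : ℝ) ^ 2) ^ c := Real.rpow_le_rpow (by positivity) hxp'.le hc0
          _ = (p : ℝ) ^ (2 * c) := by
            rw [← Real.rpow_natCast, ← Real.rpow_mul hp0.le]
            norm_num
      have hsmall : C₁ * T ^ s < p := by
        have h1 := hxpow (1 / 2) (by norm_num) (min_le_left _ _)
        rw [show (2 : ℝ) * (1 / 2) = 1 by norm_num, Real.rpow_one] at h1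
        exact hTs.trans_le h1
      intro F _ _ hF
      obtain ⟨k', hk', hbig⟩ := hgood D hD1 p hpp hph (Q p) (hQ p hpp).1 (hQ p hpp).2 hsmall hnon F hF
      refine ⟨k', ?_, hbig⟩
      have h1 := hxpow (h * ε / 2) (by positivity) (min_le_right _ _)
      have h2 : (p : ℝ) ^ (2 * (h * ε / 2)) = (Nat.card F : ℝ) ^ ε := by
        rw [hF]
        push_cast
        rw [← Real.rpow_natCast, ← Real.rpow_mul hp0.le]
        congr 1
        ring
      rw [h2] at h1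
      have hF0 : (0 : ℝ) < Nat.card F := by exact_mod_cast Nat.card_pos
      rw [Real.rpow_sub hF0, div_le_iff₀ (by positivity)]
      calc (Nat.card F : ℝ) ^ (3 / 2 : ℝ) ≤ C₁ * T ^ s * k' := hk'
        _ ≤ (Nat.card F : ℝ) ^ ε * k' := by
            apply mul_le_mul_of_nonneg_right (hTs.le.trans h1) (by positivity)
        _ = k' * (Nat.card F : ℝ) ^ ε := mul_comm _ _
  have hBad : ∀ r ∈ h.primeFactors, ((Bad r).card : ℝ) ≤ Cr r * C₀ * (x : ℝ) ^ δ := by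
    intro r hr
    have hrp := Nat.prime_of_mem_primeFactors hr
    have h1 := hfew r hrp D x hD1 hD2 (Bad r) Q (by
      intro p hp
      rw [mem_filter] at hp
      obtain ⟨hpB, hph, hpa⟩ := hp
      obtain ⟨hpp, hpx, hxp, hnot⟩ := hB p hpB
      have := (hQ p hpp).1
      exact ⟨hpp, hpx, (hQ p hpp).1, (hQ p hpp).2,
        (Nat.dvd_of_mem_primeFactors hr).trans (dvd_card hpp hph (Q p) (hQ p hpp).2), hpa⟩)
    refine h1.trans ?_
    have h2 : (x : ℝ) ^ ((3 : ℝ) / k) ≤ (x : ℝ) ^ δ := Real.rpow_le_rpow_of_exponent_le hx1 hk3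
    have h3 := hCr r
    calc Cr r * (D : ℝ) ≤ Cr r * (C₀ * (x : ℝ) ^ ((3 : ℝ) / k)) := by gcongr
      _ ≤ Cr r * (C₀ * (x : ℝ) ^ δ) := by gcongr
      _ = _ := by ring
  have h1 : (B.card : ℝ) ≤ h + ∑ r ∈ h.primeFactors, Cr r * C₀ * (x : ℝ) ^ δ := by
    have h2 := (card_le_card hcover).trans (card_union_le _ _)
    have h3 : h.primeFactors.card ≤ h := by
      have h4 : h.primeFactors ⊆ Finset.Icc 1 h := by
        intro r hr
        rw [mem_Icc]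
        exact ⟨(Nat.prime_of_mem_primeFactors hr).one_lt.le, Nat.le_of_mem_primeFactors hr⟩
      have h5 := card_le_card h4
      rw [Nat.card_Icc] at h5
      omega
    have h4 : (h.primeFactors.biUnion Bad).card ≤ ∑ r ∈ h.primeFactors, (Bad r).card :=
      card_biUnion_le
    have h5 : B.card ≤ h + ∑ r ∈ h.primeFactors, (Bad r).card := by omega
    have h6 : (B.card : ℝ) ≤ h + ∑ r ∈ h.primeFactors, ((Bad r).card : ℝ) := by exact_mod_cast h5
    refine h6.trans ?_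
    have h7 := Finset.sum_le_sum hBad
    linarith
  refine h1.trans ?_
  rw [← Finset.sum_mul]
  have h8 : (h : ℝ) ≤ h * (x : ℝ) ^ δ := le_mul_of_one_le_right hh1.le hxδ
  have h9 : (0 : ℝ) ≤ x₀ * (x : ℝ) ^ δ := by positivity
  linarith

end Pool.Agent.helper95.LK
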