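import Pool.Agent.helper95.LK.Count2
import Pool.Agent.helper95.LK.Box

/-! # Few primes for which all small integers are power residues -/

namespace Pool.Agent.helper95.LK

open NumberField Finset Pool.Agent.helper95.LC

/-- the weight of the power residues in a finite field -/
lemma res_fun {k : Type*} [Field k] [Fintype k] {r : ℕ} (hr : r.Prime)
    (hdvd : r ∣ Fintype.card k - 1) : ∃ f : k → ℝ, (∀ x, |f x| ≤ 1) ∧ ∑ x, f x = 0 ∧
      ∀ x, x ≠ 0 → (∃ y, y ^ r = x) → 1 / 2 ≤ f x := by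
  classical
  set S : Finset k := Finset.univ.filter fun x => x ≠ 0 ∧ ∃ y, y ^ r = x with hS
  set u : ℕ := Fintype.card kˣ with hu
  have hu' : u = Fintype.card k - 1 := Fintype.card_units k
  have hu0 : 0 < u := Fintype.card_pos
  have h1 : 2 * S.card ≤ u := by
    have hfr : Fact r.Prime := ⟨hr⟩
    obtain ⟨g, hg⟩ := exists_prime_orderOf_dvd_card r (show r ∣ Fintype.card kˣ by
      rw [← hu, hu']; exact hdvd)
    let φ : kˣ →* kˣ := powMonoidHom r
    have h2 : S.card ≤ Nat.card φ.range := by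
      rw [← Nat.card_eq_finsetCard]
      have hx : ∀ x ∈ S, x ≠ 0 ∧ ∃ y, y ^ r = x := fun x hx => (mem_filter.1 hx).2
      apply Nat.card_le_card_of_injective (fun x : S => (⟨Units.mk0 x.1 (hx x.1 x.2).1, by
        obtain ⟨y, hy⟩ := (hx x.1 x.2).2
        have hy0 : y ≠ 0 := by
          rintro rfl
          rw [zero_pow hr.ne_zero] at hy
          exact (hx x.1 x.2).1 hy.symm
        refine ⟨Units.mk0 y hy0, ?_⟩
        apply Units.ext
        simpa [φ] using hy⟩ : φ.range))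
      intro x y hxy
      have h3 := congrArg (fun z : φ.range => ((z : kˣ) : k)) hxy
      exact Subtype.ext h3
    have h3 : 2 ≤ Nat.card φ.ker := by
      have h4 : g ∈ φ.ker := by
        rw [MonoidHom.mem_ker]
        change g ^ r = 1
        rw [← hg]
        exact pow_orderOf_eq_one g
      have h5 : g ≠ 1 := by
        rintro rfl
        rw [orderOf_one] at hg
        exact hr.one_lt.ne hg
      have : Nontrivial φ.ker := ⟨⟨g, h4⟩, 1, fun h => h5 (congrArg Subtype.val h)⟩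
      exact Finite.one_lt_card
    have h4 : Nat.card φ.ker * Nat.card φ.range = u := by
      rw [← Subgroup.index_ker, Subgroup.card_mul_index, Nat.card_eq_fintype_card]
    calc 2 * S.card ≤ Nat.card φ.ker * Nat.card φ.range := Nat.mul_le_mul h3 h2
      _ = u := h4
  have hur : (0 : ℝ) < u := by exact_mod_cast hu0
  set β : ℝ := S.card / u with hβ
  have hβ0 : 0 ≤ β := by positivity
  have hβ1 : β ≤ 1 / 2 := by
    rw [hβ, div_le_iff₀ hur]
    have : (2 : ℝ) * S.card ≤ u := by exact_mod_cast h1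
    linarith
  refine ⟨fun x => (if x ∈ S then 1 else 0) - β * (if x ≠ 0 then 1 else 0), ?_, ?_, ?_⟩
  · intro x
    rw [abs_le]
    by_cases h2 : x ∈ S
    · have h3 : x ≠ 0 := by
        rw [hS, mem_filter] at h2
        exact h2.2.1
      simp only [h2, h3, if_true, ne_eq, not_false_eq_true, mul_one]
      constructor <;> linarith
    · by_cases h3 : x ≠ 0
      · simp only [h2, h3, if_false, if_true, ne_eq, not_false_eq_true, mul_one]
        constructor <;> linarith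
      · simp only [h2, h3, if_false, mul_zero]
        constructor <;> norm_num
  · rw [sum_sub_distrib, ← mul_sum]
    have h2 : ∑ x : k, (if x ∈ S then (1 : ℝ) else 0) = S.card := by
      rw [sum_ite_mem, univ_inter, sum_const, nsmul_eq_mul, mul_one]
    have h3 : ∑ x : k, (if x ≠ 0 then (1 : ℝ) else 0) = u := by
      rw [← sum_filter, sum_const, nsmul_eq_mul, mul_one, hu']
      congr 1
      rw [filter_ne' univ (0 : k), card_erase_of_mem (mem_univ _), Finset.card_univ]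
    rw [h2, h3, hβ]
    field_simp
    ring
  · intro x hx hxy
    have h2 : x ∈ S := by
      rw [hS, mem_filter]
      exact ⟨mem_univ _, hx, hxy⟩
    simp only [h2, hx, if_true, ne_eq, not_false_eq_true, mul_one]
    linarith

section main

variable {K : Type*} [Field K] [NumberField K] {ι : Type*} [Fintype ι] [DecidableEq ι] [Nonempty ι]
  (b : Module.Basis ι ℤ (𝓞 K))

/-- There are few primes such that all small balanced integers are power residues. -/
theorem few_bad {M : ℕ} (hM : ∀ (w : K →+* ℂ) i, ‖w (b i : K)‖ ≤ M) {r : ℕ} (hr : r.Prime) (k : ℕ)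
    (hk : 1 ≤ k) : ∃ C : ℝ, 0 < C ∧ ∀ D x : ℕ, 1 ≤ D → 2 * Fintype.card ι * x ^ 3 ≤ D ^ k →
      ∀ (B : Finset ℕ) (Q : ℕ → Ideal (𝓞 K)), (∀ p ∈ B, p.Prime ∧ p ≤ x ∧ (Q p).IsMaximal ∧
        (p : 𝓞 K) ∈ Q p ∧ r ∣ Nat.card (𝓞 K ⧸ Q p) - 1 ∧
        ∀ a : ι → Fin D, dl b M D a ∉ Q p ∧ ∃ y, y ^ r - dl b M D a ∈ Q p) →
      (B.card : ℝ) ≤ C * D := by
  classical
  obtain ⟨C₁, hC₁, hC₁'⟩ := exists_ht_pl b M
  obtain ⟨C₂, hC₂, hC₂'⟩ := card_pl b hM k 1 one_pos
  set n := Fintype.card ι with hn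
  have hn0 : 0 < n := Fintype.card_pos
  refine ⟨8 * (3 * (C₁ : ℝ) ^ k) ^ n * C₂, by positivity, ?_⟩
  intro D x hD hx B Q hB
  rcases Finset.eq_empty_or_nonempty B with hBe | hBne
  · rw [hBe, card_empty, Nat.cast_zero]
    positivity
  set Y : ℕ := (C₁ * D) ^ k with hY
  set L : ℕ := 2 * Y + 1 with hL
  have hDY : D ^ k ≤ Y := Nat.pow_le_pow_left (Nat.le_mul_of_pos_left D hC₁) k
  have hY1 : 1 ≤ Y := Nat.one_le_pow _ _ (Nat.mul_pos hC₁ hD)
  have hprime : ∀ p : B, p.1.Prime := fun p => (hB p p.2).1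
  have hmax : ∀ p : B, (Q p).IsMaximal := fun p => (hB p p.2).2.2.1
  have hmem : ∀ p : B, ((p : ℕ) : 𝓞 K) ∈ Q p := fun p => (hB p p.2).2.2.2.1
  have hbot : ∀ p : B, Q p ≠ ⊥ := by
    intro p h0
    have h1 := hmem p
    rw [h0, Ideal.mem_bot] at h1
    exact (hprime p).ne_zero (by exact_mod_cast h1)
  have hfin : ∀ p : B, Finite (𝓞 K ⧸ Q p) := fun p =>
    Ring.HasFiniteQuotients.finiteQuotient (hbot p)
  let _ : ∀ p : B, Fintype (𝓞 K ⧸ Q p) := fun p => Fintype.ofFinite _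
  let _ : ∀ p : B, Field (𝓞 K ⧸ Q p) := fun p => Ideal.Quotient.field (Q p)
  have hf : ∀ p : B, ∃ f : 𝓞 K ⧸ Q p → ℝ, (∀ x : 𝓞 K ⧸ Q p, |f x| ≤ 1) ∧
      (∑ x : 𝓞 K ⧸ Q p, f x = 0) ∧
      ∀ x : 𝓞 K ⧸ Q p, x ≠ 0 → (∃ y : 𝓞 K ⧸ Q p, y ^ r = x) → 1 / 2 ≤ f x := by
    intro p
    apply res_fun hr
    rw [← Nat.card_eq_fintype_card]
    exact (hB p p.2).2.2.2.2.1
  choose f hf1 hf0 hf2 using hf
  let π : ∀ p : B, (ι → ℤ) →+ 𝓞 K ⧸ Q p := fun p =>
    (Ideal.Quotient.mk (Q p) : 𝓞 K →+* 𝓞 K ⧸ Q p).toAddMonoidHom.comp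
      (b.equivFun.symm.toAddEquiv.toAddMonoidHom)
  have hπ' : ∀ (p : B) (v : ι → ℤ), π p v = Ideal.Quotient.mk (Q p) (b.equivFun.symm v) :=
    fun p v => rfl
  have hπ : ∀ p : B, Function.Surjective (π p) := by
    intro p z
    obtain ⟨a, rfl⟩ := Ideal.Quotient.mk_surjective z
    exact ⟨b.equivFun a, by rw [hπ', LinearEquiv.symm_apply_apply]⟩
  have hker : ∀ (p : B) (v : ι → ℤ), π p (((p : ℕ) : ℤ) • v) = 0 := by
    intro p v
    rw [hπ', map_smul, zsmul_eq_mul, Ideal.Quotient.eq_zero_iff_mem]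
    apply Ideal.mul_mem_right
    have := hmem p
    exact_mod_cast this
  -- the products
  set Z₀ : Finset (𝓞 K) := Finset.univ.image (pl b M D k) with hZ₀
  set Z : Finset (ι → ℤ) := Z₀.image b.equivFun with hZ
  have hZcard : Z.card = Z₀.card := card_image_of_injective _ b.equivFun.injective
  have hZbox : Z ⊆ box ι (-(Y : ℤ)) L := by
    intro v hv
    rw [hZ, mem_image] at hv
    obtain ⟨γ, hγ, rfl⟩ := hv
    rw [hZ₀, mem_image] at hγ
    obtain ⟨g, -, rfl⟩ := hγ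
    rw [box, Fintype.mem_piFinset]
    intro i
    have h1 := (le_ht b (pl b M D k g) i).trans (hC₁' D k hD hk g)
    rw [← hY] at h1
    rw [mem_Ico, Module.Basis.equivFun_apply]
    omega
  have hZf : ∀ v ∈ Z, 1 / 2 * (Fintype.card B : ℝ) ≤ ∑ p, f p (π p v) := by
    intro v hv
    rw [hZ, mem_image] at hv
    obtain ⟨γ, hγ, rfl⟩ := hv
    rw [hZ₀, mem_image] at hγ
    obtain ⟨g, -, rfl⟩ := hγ
    have h1 : ∀ p ∈ (Finset.univ : Finset B), (1 / 2 : ℝ) ≤ f p (π p (b.equivFun (pl b M D k g))) := by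
      intro p _
      rw [hπ', LinearEquiv.symm_apply_apply]
      apply hf2
      · rw [Ne, Ideal.Quotient.eq_zero_iff_mem, pl]
        intro h2
        rw [(hmax p).isPrime.prod_mem_iff] at h2
        obtain ⟨j, -, hj⟩ := h2
        exact ((hB p p.2).2.2.2.2.2 (g j)).1 hj
      · have h2 : ∀ j, ∃ y, y ^ r - dl b M D (g j) ∈ Q p := fun j =>
          ((hB p p.2).2.2.2.2.2 (g j)).2
        choose y hy using h2
        refine ⟨Ideal.Quotient.mk (Q p) (∏ j, y j), ?_⟩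
        rw [pl, map_prod, map_prod, ← Finset.prod_pow]
        apply Finset.prod_congr rfl
        intro j _
        rw [← map_pow]
        exact Ideal.Quotient.eq.2 (hy j)
    have h2 := sum_le_sum h1
    rw [sum_const, nsmul_eq_mul, Finset.card_univ] at h2
    linarith
  have hxL : x ^ 2 ≤ L := by
    have h1 : x ^ 2 ≤ 2 * n * x ^ 3 := by
      rcases Nat.eq_zero_or_pos x with h0 | h0
      · subst h0; simp
      · calc x ^ 2 = 1 * x ^ 2 := (one_mul _).symm
          _ ≤ (2 * n * x) * x ^ 2 := by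
              apply Nat.mul_le_mul_right
              exact Nat.mul_pos (by omega) h0
          _ = _ := by ring
    omega
  have hsieve := sieve (fun p : B => p.1) hprime (fun p q h => Subtype.ext h) (x := x)
    (fun p => (hB p p.2).2.1) (fun p : B => 𝓞 K ⧸ Q p) π hπ hker f hf1 hf0
    (δ := 1 / 2) (by norm_num) (-(Y : ℤ)) hxL Z hZbox hZf
  rw [Fintype.card_coe, ← hn] at hsieve
  set β : ℝ := (B.card : ℝ) with hβ
  have hβ0 : 0 < β := by
    rw [hβ]
    exact_mod_cast hBne.card_pos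
  have hβx : β ≤ x := by
    have h1 : B ⊆ Finset.Icc 1 x := by
      intro p hp
      rw [mem_Icc]
      exact ⟨(hB p hp).1.one_lt.le, (hB p hp).2.1⟩
    have h2 := card_le_card h1
    rw [Nat.card_Icc] at h2
    rw [hβ]
    exact_mod_cast h2
  have hL0 : (0 : ℝ) < L := by
    rw [hL]; positivity
  have hLn : (L : ℝ) ^ n = L ^ (n - 1) * L := by
    rw [← pow_succ]
    congr 1
    omega
  have h3 : 2 * n * (x : ℝ) ^ 3 ≤ L := by
    have : 2 * n * x ^ 3 ≤ L := by omega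
    exact_mod_cast this
  have h4 : β ^ 2 * (2 * (n * (x : ℝ) ^ 2 * (L : ℝ) ^ (n - 1))) ≤ β * (L : ℝ) ^ n := by
    calc β ^ 2 * (2 * (n * (x : ℝ) ^ 2 * (L : ℝ) ^ (n - 1)))
        = β * (β * (2 * n * (x : ℝ) ^ 2) * (L : ℝ) ^ (n - 1)) := by ring
      _ ≤ β * (x * (2 * n * (x : ℝ) ^ 2) * (L : ℝ) ^ (n - 1)) := by gcongr
      _ = β * ((2 * n * (x : ℝ) ^ 3) * (L : ℝ) ^ (n - 1)) := by ring
      _ ≤ β * (L * (L : ℝ) ^ (n - 1)) := by gcongr
      _ = β * (L : ℝ) ^ n := by rw [hLn]; ring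
  have h5 : (Z.card : ℝ) * β ≤ 8 * (L : ℝ) ^ n := by
    have h6 : ((Z.card : ℝ) * β) * β ≤ (8 * (L : ℝ) ^ n) * β := by nlinarith
    exact le_of_mul_le_mul_right h6 hβ0
  have h6 := hC₂' D hD Z₀ (fun g => mem_image_of_mem _ (mem_univ g))
  rw [Real.rpow_one, ← hZcard] at h6
  have hDr : (0 : ℝ) < D := by exact_mod_cast hD
  have h7 : (L : ℝ) ^ n ≤ (3 * (C₁ : ℝ) ^ k) ^ n * (D : ℝ) ^ (n * k) := by
    have h8 : (L : ℝ) ≤ 3 * (C₁ : ℝ) ^ k * (D : ℝ) ^ k := by
      have h9 : L ≤ 3 * Y := by omega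
      have h10 : (L : ℝ) ≤ 3 * Y := by exact_mod_cast h9
      rw [hY] at h10
      push_cast at h10
      rw [mul_pow] at h10
      linarith
    calc (L : ℝ) ^ n ≤ (3 * (C₁ : ℝ) ^ k * (D : ℝ) ^ k) ^ n := pow_le_pow_left₀ hL0.le h8 n
      _ = _ := by rw [mul_pow, ← pow_mul (D : ℝ), mul_comm k n]
  have hDnk : (0 : ℝ) < (D : ℝ) ^ (n * k) := by positivity
  have hfinal : (D : ℝ) ^ (n * k) * β ≤ (8 * (3 * (C₁ : ℝ) ^ k) ^ n * C₂ * D) * (D : ℝ) ^ (n * k) := by
    calc (D : ℝ) ^ (n * k) * β ≤ (Z.card * (C₂ * D)) * β := by gcongr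
      _ = (Z.card * β) * (C₂ * D) := by ring
      _ ≤ (8 * (L : ℝ) ^ n) * (C₂ * D) := by gcongr
      _ ≤ (8 * ((3 * (C₁ : ℝ) ^ k) ^ n * (D : ℝ) ^ (n * k))) * (C₂ * D) := by gcongr
      _ = _ := by ring
  rw [mul_comm] at hfinal
  exact le_of_mul_le_mul_right hfinal hDnk

end main

end Pool.Agent.helper95.LK
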