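import Pool.Agent.helper95.LC.Cyc

/-! # Residue fields of degree `h` in subfields of a Galois number field -/

namespace Pool.Agent.helper95.LK

open Pool.Agent.helper11.SG NumberField Pool.Agent.helper95.LC

/-- Let `P` be a prime of the Galois number field `L` with trivial inertia and with a residue field
of `p ^ (h e)` elements. Then there is an automorphism `σ` with `σ ^ e = 1` such that the ring of
integers of its fixed field maps onto every field with `p ^ h` elements. -/
theorem galois_subfield {L : Type*} [Field L] [NumberField L] [IsGalois ℚ L] {p : ℕ}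
    [hp : Fact p.Prime] (P : Ideal (𝓞 L)) [hP : P.IsMaximal] (hpP : (p : 𝓞 L) ∈ P) {h e : ℕ}
    (hh : 1 ≤ h) (he : 1 ≤ e) (hcardk : Nat.card (𝓞 L ⧸ P) = p ^ (h * e))
    (hin : ∀ σ : Gal(L/ℚ), (∀ x : 𝓞 L, σ • x - x ∈ P) → σ = 1) :
    ∃ σ : Gal(L/ℚ), σ ^ e = 1 ∧
      ∀ (F : Type*) [Field F] [Finite F], Nat.card F = p ^ h →
        ∃ φ : 𝓞 (IntermediateField.fixedField (Subgroup.zpowers σ)) →+* F,
          Function.Surjective φ := by
  classical
  have hfin : Finite (𝓞 L ⧸ P) :=
    Nat.finite_of_card_ne_zero (by rw [hcardk]; exact pow_ne_zero _ hp.out.ne_zero)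
  have _i1 : Fintype (𝓞 L ⧸ P) := Fintype.ofFinite _
  have hchar : CharP (𝓞 L ⧸ P) p :=
    charP_of_card_eq_prime_pow (f := h * e) (by rw [← Nat.card_eq_fintype_card, hcardk])
  let φ : 𝓞 L →+* 𝓞 L ⧸ P := Ideal.Quotient.mk P
  have hφs : Function.Surjective φ := Ideal.Quotient.mk_surjective
  obtain ⟨τ, hτ0⟩ := IsArithFrobAt.exists_of_isInvariant (R := ℤ) (G := Gal(L/ℚ)) (Q := P)
  have hunder : P.under ℤ = Ideal.span {(p : ℤ)} := by
    symm
    have hmax : (Ideal.span {(p : ℤ)}).IsMaximal :=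
      PrincipalIdealRing.isMaximal_of_irreducible (Nat.prime_iff_prime_int.1 hp.out).irreducible
    apply hmax.eq_of_le
    · exact (Ideal.IsPrime.under ℤ P).ne_top
    · rw [Ideal.span_singleton_le_iff_mem, Ideal.under_def, Ideal.mem_comap]
      simpa using hpP
  have hcardp : Nat.card (ℤ ⧸ P.under ℤ) = p := by
    rw [hunder]
    exact Int.card_ideal_quot p
  have hτ : ∀ x : 𝓞 L, φ (τ • x) = φ x ^ p := by
    intro x
    have h1 := hτ0.mk_apply x
    rw [hcardp] at h1
    exact h1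
  have hτi : ∀ (i : ℕ) (x : 𝓞 L), φ (τ ^ i • x) = φ x ^ (p ^ i) := by
    intro i
    induction i with
    | zero => intro x; simp
    | succ i ih =>
      intro x
      rw [pow_succ, mul_smul, ih, hτ, ← pow_mul, ← pow_succ']
  have hτf : τ ^ (h * e) = 1 := by
    apply hin
    intro x
    rw [← Ideal.Quotient.eq_zero_iff_mem, map_sub, sub_eq_zero]
    change φ (τ ^ (h * e) • x) = φ x
    rw [hτi, ← hcardk, Nat.card_eq_fintype_card]
    let _ : Field (𝓞 L ⧸ P) := Fintype.fieldOfDomain _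
    exact FiniteField.pow_card (φ x)
  refine ⟨τ ^ h, by rw [← pow_mul, hτf], ?_⟩
  intro F _ _ hF
  -- the subfield
  let M : IntermediateField ℚ L := IntermediateField.fixedField (Subgroup.zpowers (τ ^ h))
  let ψ : 𝓞 M →+* 𝓞 L ⧸ P := φ.comp (algebraMap (𝓞 M) (𝓞 L))
  have hfix : ∀ a : 𝓞 M, τ ^ h • (algebraMap (𝓞 M) (𝓞 L) a) = algebraMap (𝓞 M) (𝓞 L) a := by
    intro a
    apply RingOfIntegers.ext
    have h1 : ((a : M) : L) ∈ M := (a : M).2
    rw [IntermediateField.mem_fixedField_iff] at h1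
    exact h1 _ (Subgroup.mem_zpowers _)
  have hψ1 : ∀ a : 𝓞 M, ψ a ^ (p ^ h) = ψ a := by
    intro a
    change (φ (algebraMap (𝓞 M) (𝓞 L) a)) ^ (p ^ h) = φ (algebraMap (𝓞 M) (𝓞 L) a)
    rw [← hτi, hfix]
  -- the trace
  let T : (𝓞 L ⧸ P) →+ (𝓞 L ⧸ P) :=
    ∑ j ∈ Finset.range e, ((iterateFrobenius (𝓞 L ⧸ P) p (h * j) : _ →+* _) : _ →+ _)
  have hT : ∀ x, T x = ∑ j ∈ Finset.range e, x ^ (p ^ (h * j)) := by
    intro x
    simp only [T, AddMonoidHom.finsetSum_apply]
    rfl
  let _ : Field (𝓞 L ⧸ P) := Fintype.fieldOfDomain _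
  have hTr := card_range_trace (k := 𝓞 L ⧸ P) (p := p) hh he hcardk T hT
  have hsub : (T.range : Set (𝓞 L ⧸ P)) ⊆ (ψ.range : Set (𝓞 L ⧸ P)) := by
    rintro _ ⟨x, rfl⟩
    obtain ⟨b, rfl⟩ := hφs x
    let s : 𝓞 L := ∑ j ∈ Finset.range e, τ ^ (h * j) • b
    have hs : τ ^ h • s = s := by
      simp only [s, Finset.smul_sum]
      obtain ⟨e', rfl⟩ : ∃ e', e = e' + 1 := ⟨e - 1, by omega⟩
      rw [Finset.sum_range_succ, Finset.sum_range_succ']
      congr 1
      · apply Finset.sum_congr rfl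
        intro j _
        rw [← mul_smul, ← pow_add]
        congr 2
        ring
      · rw [← mul_smul, ← pow_add, show h + h * e' = h * (e' + 1) by ring, hτf, mul_zero, pow_zero]
    have hsM : (s : L) ∈ M := by
      rw [IntermediateField.mem_fixedField_iff]
      intro g hg
      have h1 : Subgroup.zpowers (τ ^ h) ≤ MulAction.stabilizer Gal(L/ℚ) s := by
        rw [Subgroup.zpowers_le]
        exact hs
      have h2 : g • s = s := h1 hg
      exact congrArg (fun z : 𝓞 L => (z : L)) h2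
    have hint : IsIntegral ℤ (⟨(s : L), hsM⟩ : M) := by
      rw [← isIntegral_algebraMap_iff (algebraMap M L).injective]
      exact s.2
    refine ⟨⟨⟨(s : L), hsM⟩, hint⟩, ?_⟩
    have h3 : algebraMap (𝓞 M) (𝓞 L) ⟨⟨(s : L), hsM⟩, hint⟩ = s := by
      apply RingOfIntegers.ext
      rfl
    change φ (algebraMap (𝓞 M) (𝓞 L) ⟨⟨(s : L), hsM⟩, hint⟩) = T (φ b)
    rw [h3, hT]
    simp only [s, map_sum]
    apply Finset.sum_congr rfl
    intro j _
    rw [hτi]
  have hlow : p ^ h ≤ Nat.card ψ.range :=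
    hTr.trans (Nat.card_mono (Set.toFinite _) hsub)
  have hup : Nat.card ψ.range ≤ p ^ h := by
    have hX : (Polynomial.X ^ (p ^ h) - Polynomial.X : Polynomial (𝓞 L ⧸ P)) ≠ 0 :=
      FiniteField.X_pow_card_pow_sub_X_ne_zero _ (by omega) hp.out.one_lt
    have h1 : Nat.card ψ.range ≤
        (Polynomial.X ^ (p ^ h) - Polynomial.X : Polynomial (𝓞 L ⧸ P)).roots.toFinset.card := by
      rw [← Nat.card_eq_finsetCard]
      apply Nat.card_le_card_of_injective
        (fun x : ψ.range => (⟨x.1, by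
          obtain ⟨a, ha⟩ := x.2
          rw [Multiset.mem_toFinset, Polynomial.mem_roots hX, Polynomial.IsRoot.def]
          rw [Polynomial.eval_sub, Polynomial.eval_pow, Polynomial.eval_X, ← ha, hψ1, sub_self]⟩ :
            (Polynomial.X ^ (p ^ h) - Polynomial.X : Polynomial (𝓞 L ⧸ P)).roots.toFinset))
      intro a b hab
      have h9 := congrArg (fun z : (Polynomial.X ^ (p ^ h) - Polynomial.X :
        Polynomial (𝓞 L ⧸ P)).roots.toFinset => z.1) hab
      exact Subtype.ext h9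
    refine h1.trans ((Multiset.toFinset_card_le _).trans ((Polynomial.card_roots' _).trans ?_))
    rw [FiniteField.X_pow_card_pow_sub_X_natDegree_eq _ (by omega) hp.out.one_lt]
  let _ : Fintype F := Fintype.ofFinite F
  let _ : Fintype ψ.range := Fintype.ofFinite _
  let _ : Field ψ.range := Fintype.fieldOfDomain _
  have hcard : Fintype.card ψ.range = Fintype.card F := by
    rw [← Nat.card_eq_fintype_card, ← Nat.card_eq_fintype_card, hF]
    exact le_antisymm hup hlow
  let E := FiniteField.ringEquivOfCardEq hcard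
  exact ⟨E.toRingHom.comp ψ.rangeRestrict, E.surjective.comp ψ.rangeRestrict_surjective⟩

end Pool.Agent.helper95.LK
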