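import Mathlib

/-! # The Galois closure of a Kummer extension of a cyclotomic field -/

namespace Pool.Agent.helper95.LK

open NumberField IntermediateField

/-- the construction over a general base field of characteristic zero -/
theorem exists_kummer_base {k : Type} [Field k] [CharZero k] {K : Type} [Field K] [Algebra k K]
    [FiniteDimensional k K] {h : ℕ} (hh : 0 < h) (ζ : K) (hζ : IsPrimitiveRoot ζ h)
    (hgen : Algebra.adjoin k {ζ} = ⊤) (γ : K) :
    ∃ (L : Type) (_ : Field L) (_ : Algebra k L) (_ : FiniteDimensional k L) (_ : IsGalois k L)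
      (κ : Type) (_ : Fintype κ) (t : κ → (K →ₐ[k] L)) (y : κ → L),
      Fintype.card κ = Module.finrank k K ∧ Nonempty κ ∧ (∀ k, y k ^ h = t k γ) ∧
      Algebra.adjoin k (Set.range (fun k => t k ζ) ∪ Set.range y) = ⊤ := by
  classical
  let Ω := AlgebraicClosure k
  let κ := K →ₐ[k] Ω
  have hy : ∀ τ : κ, ∃ y : Ω, y ^ h = τ γ := fun τ => IsAlgClosed.exists_pow_nat_eq _ hh
  choose y hy using hy
  set S : Set Ω := Set.range (fun τ : κ => τ ζ) ∪ Set.range y with hS
  have hfinS : S.Finite := (Set.finite_range _).union (Set.finite_range _)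
  let E : IntermediateField k Ω := adjoin k S
  have hSE : ∀ x ∈ S, x ∈ E := fun x hx => subset_adjoin k S hx
  have hfinE : FiniteDimensional k E := by
    have : Finite S := hfinS
    exact IntermediateField.finiteDimensional_adjoin fun x _ => Algebra.IsIntegral.isIntegral x
  have i0 : κ := IsAlgClosed.lift
  have hζ0 : IsPrimitiveRoot (i0 ζ) h := hζ.map_of_injective i0.injective
  have hroot : ∀ x : Ω, x ^ h = 1 → x ∈ E := by
    intro x hx
    have : NeZero h := ⟨hh.ne'⟩
    obtain ⟨j, -, hj⟩ := hζ0.eq_pow_of_pow_eq_one hx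
    rw [← hj]
    exact pow_mem (hSE _ (Or.inl ⟨i0, rfl⟩)) j
  have hnorm : Normal k E := by
    rw [IntermediateField.normal_iff_forall_map_le]
    intro f
    rw [IntermediateField.adjoin_map, IntermediateField.adjoin_le_iff]
    rintro _ ⟨x, hx, rfl⟩
    rcases hx with ⟨τ, rfl⟩ | ⟨τ, rfl⟩
    · exact hSE _ (Or.inl ⟨f.comp τ, rfl⟩)
    · by_cases h0 : y (f.comp τ) = 0
      · have h1 : f (y τ) ^ h = 0 := by
          rw [← map_pow, hy, ← AlgHom.comp_apply, ← hy, h0, zero_pow hh.ne']
        rw [pow_eq_zero_iff hh.ne'] at h1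
        change f (y τ) ∈ E
        rw [h1]
        exact E.zero_mem
      · have h1 : f (y τ) ^ h = y (f.comp τ) ^ h := by
          rw [← map_pow, hy, hy, AlgHom.comp_apply]
        have h2 : (f (y τ) / y (f.comp τ)) ^ h = 1 := by
          rw [div_pow, h1, div_self (pow_ne_zero _ h0)]
        have h3 : f (y τ) = (f (y τ) / y (f.comp τ)) * y (f.comp τ) := by
          rw [div_mul_cancel₀ _ h0]
        change f (y τ) ∈ E
        rw [h3]
        exact E.mul_mem (hroot _ h2) (hSE _ (Or.inr ⟨_, rfl⟩))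
  have hgal : IsGalois k E := IsGalois.mk
  have hmem : ∀ (τ : κ) (x : K), τ x ∈ E := by
    intro τ x
    have hx : x ∈ Algebra.adjoin k {ζ} := by rw [hgen]; exact Algebra.mem_top
    induction hx using Algebra.adjoin_induction with
    | mem x hx =>
      rw [Set.mem_singleton_iff] at hx
      rw [hx]
      exact hSE _ (Or.inl ⟨τ, rfl⟩)
    | algebraMap q => rw [AlgHom.commutes]; exact E.algebraMap_mem q
    | add x y _ _ hx hy => rw [map_add]; exact E.add_mem hx hy
    | mul x y _ _ hx hy => rw [map_mul]; exact E.mul_mem hx hy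
  let t : κ → (K →ₐ[k] E) := fun τ => τ.codRestrict E.toSubalgebra (hmem τ)
  let y' : κ → E := fun τ => ⟨y τ, hSE _ (Or.inr ⟨τ, rfl⟩)⟩
  refine ⟨E, inferInstance, inferInstance, hfinE, hgal, κ, inferInstance, t, y', ?_, ⟨i0⟩, ?_, ?_⟩
  · exact AlgHom.card k K Ω
  · intro τ
    apply Subtype.ext
    exact hy τ
  · have hinj : Function.Injective (Subalgebra.map E.val) :=
      Subalgebra.map_injective E.val.injective
    apply hinj
    rw [AlgHom.map_adjoin, Set.image_union, ← Set.range_comp, ← Set.range_comp]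
    have h1 : (E.val ∘ fun k => t k ζ) = fun τ : κ => τ ζ := rfl
    have h2 : E.val ∘ y' = y := rfl
    rw [h1, h2, ← hS, Algebra.map_top, E.range_val]
    symm
    exact adjoin_toSubalgebra_of_isAlgebraic fun x _ => Algebra.IsAlgebraic.isAlgebraic x

/-- the construction over the rational numbers -/
theorem exists_kummer_field {K : Type} [Field K] [NumberField K] {h : ℕ} [NeZero h]
    [hc : IsCyclotomicExtension {h} ℚ K] (ζ : K) (hζ : IsPrimitiveRoot ζ h) (γ : K) :
    ∃ (L : Type) (_ : Field L) (_ : NumberField L) (_ : IsGalois ℚ L) (κ : Type) (_ : Fintype κ)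
      (t : κ → (K →ₐ[ℚ] L)) (y : κ → L), Fintype.card κ = h.totient ∧
      Nonempty κ ∧ (∀ k, y k ^ h = t k γ) ∧
      Algebra.adjoin ℚ (Set.range (fun k => t k ζ) ∪ Set.range y) = ⊤ := by
  have hgen : Algebra.adjoin ℚ {ζ} = ⊤ := IsCyclotomicExtension.adjoin_primitive_root_eq_top hζ
  obtain ⟨L, iF, iA, iFD, iG, κ, iκ, t, y, hcard, hne, hy, htop⟩ :=
    exists_kummer_base (k := ℚ) (NeZero.pos h) ζ hζ hgen γ
  have hcz : CharZero L := charZero_of_injective_algebraMap (algebraMap ℚ L).injective
  have hA : iA = DivisionRing.toRatAlgebra := Subsingleton.elim _ _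
  subst hA
  have hnf : NumberField L := { to_charZero := hcz, to_finiteDimensional := iFD }
  refine ⟨L, iF, hnf, iG, κ, iκ, t, y, ?_, hne, hy, htop⟩
  rw [hcard, IsCyclotomicExtension.Rat.finrank h K]

end Pool.Agent.helper95.LK
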