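import Pool.Agent.helper95.LK.Mono
import Pool.Agent.helper95.LK.KField

/-! # The bound from a small integer of a cyclotomic field that is not a power residue -/

namespace Pool.Agent.helper95.LK

open Pool.Agent.helper11.SG NumberField Pool.Agent.helper95.LC

/-- degrees of extensions by roots of nonresidues -/
lemma dvd_of_nonresidue {k₀ k₁ : Type*} [Field k₀] [Finite k₀] [Field k₁] [Finite k₁]
    (φ : k₀ →+* k₁) {h : ℕ} (hodd : Odd h) {a : k₀}
    (ha : ∀ r : ℕ, r.Prime → r ∣ h → ∀ b : k₀, b ^ r ≠ a) {x : k₁} (hx : x ^ h = φ a)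
    {p d f : ℕ} (hp : 1 < p) (h0 : Nat.card k₀ = p ^ d) (h1 : Nat.card k₁ = p ^ f) : h ∣ f := by
  let _ : Algebra k₀ k₁ := φ.toAlgebra
  let _ : Fintype k₀ := Fintype.ofFinite _
  let _ : Fintype k₁ := Fintype.ofFinite _
  have hirr := (X_pow_sub_C_irreducible_iff_forall_prime_of_odd hodd (a := a)).2 ha
  have hh0 : h ≠ 0 := by
    rintro rfl
    exact absurd hodd (by decide)
  have hmin : Polynomial.X ^ h - Polynomial.C a = minpoly k₀ x := by
    apply minpoly.eq_of_irreducible_of_monic hirr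
    · rw [map_sub, map_pow, Polynomial.aeval_X, Polynomial.aeval_C, hx]
      exact sub_self _
    · exact Polynomial.monic_X_pow_sub_C a hh0
  have hfin : FiniteDimensional k₀ k₁ := Module.Finite.of_finite
  have hdvd : (minpoly k₀ x).natDegree ∣ Module.finrank k₀ k₁ :=
    minpoly.degree_dvd (Algebra.IsIntegral.isIntegral x)
  rw [← hmin, Polynomial.natDegree_X_pow_sub_C] at hdvd
  have hcard : Fintype.card k₁ = Fintype.card k₀ ^ Module.finrank k₀ k₁ :=
    Module.card_eq_pow_finrank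
  rw [← Nat.card_eq_fintype_card, ← Nat.card_eq_fintype_card, h0, h1, ← pow_mul] at hcard
  have h2 := Nat.pow_right_injective hp hcard
  rw [h2]
  exact hdvd.mul_left d

/-- A small integer is not in a large prime. -/
lemma not_mem_of_small {K : Type*} [Field K] [NumberField K] (γ : 𝓞 K) (hγ0 : γ ≠ 0) {B : ℝ}
    (hγB : ∀ w : K →+* ℂ, ‖w (γ : K)‖ ≤ B) {p : ℕ} (hp : p.Prime)
    (hpB : B ^ Module.finrank ℚ K < p) (Q : Ideal (𝓞 K)) (hQ : Q ≠ ⊤) (hpQ : (p : 𝓞 K) ∈ Q) :
    γ ∉ Q := by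
  intro hγQ
  have h1 := Ideal.absNorm_dvd_norm_of_mem hγQ
  have h2 : Algebra.norm ℤ γ ≠ 0 := Algebra.norm_ne_zero_iff.2 hγ0
  have h3 : p ≤ Ideal.absNorm Q := by
    by_contra hlt
    push Not at hlt
    have h4 : Ideal.absNorm Q ≠ 0 := by
      intro h0
      rw [h0] at h1
      simp only [Nat.cast_zero, zero_dvd_iff] at h1
      exact h2 h1
    have h5 : Nat.Coprime (Ideal.absNorm Q) p :=
      (Nat.coprime_of_lt_prime h4 hlt hp).symm
    have h6 := Ideal.absNorm_mem Q
    apply hQ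
    rw [Ideal.eq_top_iff_one]
    have h7 := Nat.gcd_eq_gcd_ab (Ideal.absNorm Q) p
    rw [h5] at h7
    have h8 := congrArg (fun z : ℤ => (z : 𝓞 K)) h7
    push_cast at h8
    rw [h8]
    exact Q.add_mem (Q.mul_mem_right _ h6) (Q.mul_mem_right _ hpQ)
  have h4 := Int.le_of_dvd (abs_pos.2 h2) ((dvd_abs _ _).2 h1)
  have h5 : (p : ℝ) ≤ |((Algebra.norm ℤ γ : ℤ) : ℝ)| := by
    have h6 : ((Ideal.absNorm Q : ℤ) : ℝ) ≤ ((|Algebra.norm ℤ γ| : ℤ) : ℝ) := by exact_mod_cast h4
    have h7 : (p : ℝ) ≤ Ideal.absNorm Q := by exact_mod_cast h3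
    rw [Int.cast_abs] at h6
    exact h7.trans (by exact_mod_cast h6)
  rw [← prod_emb] at h5
  have h6 : ∏ v : K →ₐ[ℚ] ℂ, ‖emb K v γ‖ ≤ B ^ Module.finrank ℚ K := by
    rw [← AlgHom.card ℚ K ℂ, ← Finset.card_univ, ← Finset.prod_const]
    apply Finset.prod_le_prod
    · intro v _; exact norm_nonneg _
    · intro v _
      exact hγB v.toRingHom
  linarith

/-- roots of the same number that are congruent modulo a prime -/
lemma eq_of_congr {R : Type*} [CommRing R] [IsDomain R] (P : Ideal R) [P.IsPrime] {h : ℕ}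
    (hh : 1 ≤ h) {x y : R} (hxy : x ^ h = y ^ h) (hc : x - y ∈ P) (hy : y ∉ P)
    (hhP : (h : R) ∉ P) : x = y := by
  by_contra hne
  have h1 : (∑ i ∈ Finset.range h, x ^ i * y ^ (h - 1 - i)) * (x - y) = 0 := by
    rw [Commute.geom_sum₂_mul (Commute.all x y), hxy, sub_self]
  have h2 : ∑ i ∈ Finset.range h, x ^ i * y ^ (h - 1 - i) = 0 := by
    rcases mul_eq_zero.1 h1 with h3 | h3
    · exact h3
    · exact absurd (sub_eq_zero.1 h3) hne
  have h3 : Ideal.Quotient.mk P x = Ideal.Quotient.mk P y := Ideal.Quotient.eq.2 hc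
  have h4 : (Ideal.Quotient.mk P) (∑ i ∈ Finset.range h, x ^ i * y ^ (h - 1 - i)) =
      (Ideal.Quotient.mk P) ((h : R) * y ^ (h - 1)) := by
    rw [map_sum, map_mul, map_pow, map_natCast]
    have h5 : ∀ i ∈ Finset.range h, (Ideal.Quotient.mk P) (x ^ i * y ^ (h - 1 - i)) =
        (Ideal.Quotient.mk P y) ^ (h - 1) := by
      intro i hi
      rw [Finset.mem_range] at hi
      rw [map_mul, map_pow, map_pow, h3, ← pow_add]
      congr 1
      omega
    rw [Finset.sum_congr rfl h5, Finset.sum_const, Finset.card_range, nsmul_eq_mul]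
  rw [h2, map_zero, eq_comm, Ideal.Quotient.eq_zero_iff_mem] at h4
  rcases (inferInstance : P.IsPrime).mem_or_mem h4 with h5 | h5
  · exact hhP h5
  · exact hy ((inferInstance : P.IsPrime).mem_of_pow_mem _ h5)

/-- powers of elements congruent to one modulo two -/
lemma one_add_pow {R : Type*} [CommRing R] (A : Subalgebra ℤ R) {a : R} (ha : a ∈ A) (c : ℕ) :
    ∃ w ∈ A, (1 + 2 * a) ^ c = 1 + 2 * w := by
  induction c with
  | zero => exact ⟨0, A.zero_mem, by simp⟩
  | succ c ih =>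
    obtain ⟨w, hw, h1⟩ := ih
    refine ⟨w + a + 2 * w * a, ?_, ?_⟩
    · exact A.add_mem (A.add_mem hw ha)
        (A.mul_mem (A.mul_mem (by exact_mod_cast A.natCast_mem 2) hw) ha)
    · rw [pow_succ, h1]
      ring

/-- monic polynomials of a given degree -/
lemma exists_monic_deg {L : Type*} [Field L] [Algebra ℚ L] (x : L) {D : ℕ} (f : Polynomial ℤ)
    (hf : f.Monic) (hfD : f.natDegree ≤ D) (hfx : Polynomial.aeval x f = 0) :
    ∃ f : Polynomial ℤ, f.Monic ∧ f.natDegree = D ∧ Polynomial.aeval x f = 0 := by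
  refine ⟨f * Polynomial.X ^ (D - f.natDegree), hf.mul (Polynomial.monic_X_pow _), ?_, ?_⟩
  · rw [hf.natDegree_mul (Polynomial.monic_X_pow _), Polynomial.natDegree_X_pow]
    omega
  · rw [map_mul, hfx, zero_mul]

end Pool.Agent.helper95.LK
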