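import Pool.Agent.helper95.LC.Cyc

/-! # Reducedness modulo two -/

namespace Pool.Agent.helper95.LK

open Pool.Agent.helper11.SG NumberField Pool.Agent.helper95.LC

/-- powers of two are additive modulo two -/
lemma two_dvd_add_pow {R : Type*} [CommRing R] (g : ℕ) (x y : R) :
    (2 : R) ∣ (x + y) ^ (2 ^ g) - (x ^ (2 ^ g) + y ^ (2 ^ g)) := by
  rw [← Ideal.mem_span_singleton, ← Ideal.Quotient.eq_zero_iff_mem]
  simp only [map_sub, map_add, map_pow]
  rw [sub_eq_zero]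
  have h2 : (2 : R ⧸ Ideal.span {(2 : R)}) = 0 := by
    have h1 : Ideal.Quotient.mk (Ideal.span {(2 : R)}) 2 = 0 :=
      Ideal.Quotient.eq_zero_iff_mem.2 (Ideal.mem_span_singleton_self _)
    rw [map_ofNat] at h1
    exact h1
  rcases subsingleton_or_nontrivial (R ⧸ Ideal.span {(2 : R)}) with hs | hn
  · exact Subsingleton.elim _ _
  have hchar : CharP (R ⧸ Ideal.span {(2 : R)}) 2 :=
    CharTwo.of_one_ne_zero_of_two_eq_zero one_ne_zero h2
  exact add_pow_char_pow _ _ _ _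

/-- the elements fixed by the power `2 ^ g` modulo two form a subalgebra -/
lemma adjoin_two {R : Type*} [CommRing R] (A : Subalgebra ℤ R) (S : Set R) {g : ℕ}
    (hSA : S ⊆ A) (hS : ∀ s ∈ S, ∃ t ∈ A, s ^ (2 ^ g) - s = 2 * t) :
    ∀ x ∈ Algebra.adjoin ℤ S, ∃ t ∈ A, x ^ (2 ^ g) - x = 2 * t := by
  have hle : Algebra.adjoin ℤ S ≤ A := Algebra.adjoin_le hSA
  have key : ∀ x ∈ Algebra.adjoin ℤ S, x ∈ A ∧ ∃ t ∈ A, x ^ (2 ^ g) - x = 2 * t := by
    intro x hx
    refine ⟨hle hx, ?_⟩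
    induction hx using Algebra.adjoin_induction with
    | mem x hx => exact hS x hx
    | algebraMap n =>
      obtain ⟨m, hm⟩ : (2 : ℤ) ∣ n ^ (2 ^ g) - n := by
        rcases Int.even_or_odd n with h | h
        · exact (dvd_pow h.two_dvd (by positivity)).sub h.two_dvd
        · exact (Odd.sub_odd (h.pow) h).two_dvd
      refine ⟨algebraMap ℤ R m, A.algebraMap_mem m, ?_⟩
      rw [← map_pow, ← map_sub, hm, map_mul, map_ofNat]
    | add x y hx hy ihx ihy =>
      obtain ⟨t, ht, hxt⟩ := ihx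
      obtain ⟨u, hu, hyu⟩ := ihy
      obtain ⟨w, hw⟩ := two_dvd_add_pow g (⟨x, hle hx⟩ : A) (⟨y, hle hy⟩ : A)
      have hw' := congrArg (fun z : A => (z : R)) hw
      simp only [AddSubgroupClass.coe_sub, SubmonoidClass.coe_pow, Subalgebra.coe_add,
        Subalgebra.coe_mul] at hw'
      have h2 : (((2 : A)) : R) = 2 := rfl
      rw [h2] at hw'
      refine ⟨w + t + u, A.add_mem (A.add_mem w.2 ht) hu, ?_⟩
      linear_combination hw' + hxt + hyu
    | mul x y hx hy ihx ihy =>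
      obtain ⟨t, ht, hxt⟩ := ihx
      obtain ⟨u, hu, hyu⟩ := ihy
      refine ⟨t * y + x * u + 2 * t * u, ?_, ?_⟩
      · refine A.add_mem (A.add_mem (A.mul_mem ht (hle hy)) (A.mul_mem (hle hx) hu)) ?_
        exact A.mul_mem (A.mul_mem (by exact_mod_cast A.natCast_mem 2) ht) hu
      · rw [mul_pow]
        have h1 : x ^ (2 ^ g) = x + 2 * t := by linear_combination hxt
        have h2 : y ^ (2 ^ g) = y + 2 * u := by linear_combination hyu
        rw [h1, h2]
        ring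
  exact fun x hx => (key x hx).2

/-- If a power fixes the generators modulo two then the order is saturated at two. -/
lemma two_saturated {R : Type*} [CommRing R] [IsDomain R] (h20 : (2 : R) ≠ 0)
    (A : Subalgebra ℤ R) {g : ℕ} (hg : 1 ≤ g)
    (hA : ∀ x ∈ A, ∃ t ∈ A, x ^ (2 ^ g) - x = 2 * t) {x : R} (hx : IsIntegral ℤ x)
    (h2x : 2 * x ∈ A) : x ∈ A := by
  obtain ⟨f, hf, hfx⟩ := hx
  have hfx' : Polynomial.aeval x f = 0 := hfx
  have h1 : Polynomial.aeval (2 * x) (Polynomial.scaleRoots f 2) = 0 := by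
    have h3 := Polynomial.scaleRoots_aeval_eq_zero (r := (2 : ℤ)) hfx'
    simpa using h3
  set m := f.natDegree with hm
  rw [Polynomial.aeval_eq_sum_range, Polynomial.natDegree_scaleRoots, ← hm,
    Finset.sum_range_succ] at h1
  rw [Polynomial.coeff_scaleRoots_natDegree, hf.leadingCoeff, one_smul] at h1
  -- the power is in twice the order
  have hpow : ∃ t ∈ A, (2 * x) ^ m = 2 * t := by
    refine ⟨-∑ i ∈ Finset.range m, (f.coeff i * 2 ^ (m - i - 1)) • (2 * x) ^ i, ?_, ?_⟩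
    · exact A.neg_mem (A.sum_mem fun i _ => A.smul_mem (A.pow_mem h2x i) _)
    · rw [mul_neg, Finset.mul_sum, eq_neg_iff_add_eq_zero, add_comm, ← h1]
      congr 1
      apply Finset.sum_congr rfl
      intro i hi
      rw [Finset.mem_range] at hi
      rw [Polynomial.coeff_scaleRoots, ← hm]
      obtain ⟨j, hj⟩ : ∃ j, m - i = j + 1 := ⟨m - i - 1, by omega⟩
      rw [hj, Nat.add_sub_cancel, pow_succ]
      simp only [zsmul_eq_mul]
      push_cast
      ring
  have hiter : ∀ j : ℕ, ∃ t ∈ A, (2 * x) ^ ((2 ^ g) ^ j) - 2 * x = 2 * t := by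
    intro j
    induction j with
    | zero => exact ⟨0, A.zero_mem, by simp⟩
    | succ j ih =>
      obtain ⟨t, ht, h3⟩ := ih
      obtain ⟨u, hu, h4⟩ := hA ((2 * x) ^ ((2 ^ g) ^ j)) (A.pow_mem h2x _)
      refine ⟨u + t, A.add_mem hu ht, ?_⟩
      rw [pow_succ, pow_mul]
      linear_combination h4 + h3
  have hle : m ≤ (2 ^ g) ^ m := by
    have h3 : 2 ≤ 2 ^ g := by
      calc 2 = 2 ^ 1 := by norm_num
        _ ≤ 2 ^ g := Nat.pow_le_pow_right (by norm_num) hg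
    calc m ≤ 2 ^ m := Nat.lt_two_pow_self.le
      _ ≤ (2 ^ g) ^ m := Nat.pow_le_pow_left h3 m
  obtain ⟨d, hd⟩ := Nat.exists_eq_add_of_le hle
  obtain ⟨t, ht, h5⟩ := hpow
  obtain ⟨u, hu, h6⟩ := hiter m
  rw [hd, pow_add, h5] at h6
  have h7 : 2 * x = 2 * (t * (2 * x) ^ d - u) := by linear_combination -h6
  have h8 := mul_left_cancel₀ h20 h7
  rw [h8]
  exact A.sub_mem (A.mul_mem ht (A.pow_mem h2x d)) hu

/-- clearing denominators -/
lemma exists_mul_mem {L : Type*} [Field L] [NumberField L] (S : Set (𝓞 L))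
    (hS : Algebra.adjoin ℚ ((fun x : 𝓞 L => (x : L)) '' S) = ⊤) (x : L) :
    ∃ n : ℕ, 0 < n ∧ ∃ a ∈ Algebra.adjoin ℤ S, (n : L) * x = (a : 𝓞 L) := by
  have hx : x ∈ Algebra.adjoin ℚ ((fun x : 𝓞 L => (x : L)) '' S) := by
    rw [hS]; exact Algebra.mem_top
  induction hx using Algebra.adjoin_induction with
  | mem x hx =>
    obtain ⟨s, hs, rfl⟩ := hx
    exact ⟨1, one_pos, s, Algebra.subset_adjoin hs, by simp⟩
  | algebraMap q =>
    refine ⟨q.den, q.pos, algebraMap ℤ (𝓞 L) q.num, Subalgebra.algebraMap_mem _ _, ?_⟩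
    have h1 : ((q.den : ℚ) * q) = q.num := Rat.den_mul_eq_num q
    have h2 := congrArg (algebraMap ℚ L) h1
    rw [map_mul, map_natCast, map_intCast] at h2
    rw [h2]
    simp
  | add x y hx hy ihx ihy =>
    obtain ⟨n, hn, a, ha, h1⟩ := ihx
    obtain ⟨m, hm, b, hb, h2⟩ := ihy
    refine ⟨n * m, Nat.mul_pos hn hm, m * a + n * b, ?_, ?_⟩
    · exact Subalgebra.add_mem _ (Subalgebra.mul_mem _ (Subalgebra.natCast_mem _ _) ha)
        (Subalgebra.mul_mem _ (Subalgebra.natCast_mem _ _) hb)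
    · have h3 : ((m * a + n * b : 𝓞 L) : L) = m * (a : L) + n * (b : L) := by
        simp only [map_add, map_mul, map_natCast]
      rw [h3, ← h1, ← h2]
      push_cast
      ring
  | mul x y hx hy ihx ihy =>
    obtain ⟨n, hn, a, ha, h1⟩ := ihx
    obtain ⟨m, hm, b, hb, h2⟩ := ihy
    refine ⟨n * m, Nat.mul_pos hn hm, a * b, Subalgebra.mul_mem _ ha hb, ?_⟩
    have h3 : ((a * b : 𝓞 L) : L) = (a : L) * (b : L) := map_mul _ _ _
    rw [h3, ← h1, ← h2]
    push_cast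
    ring

/-- If a power fixes the generators of `L` modulo two, it fixes all integers modulo two. -/
theorem two_dvd_gen {L : Type*} [Field L] [NumberField L] (S : Set (𝓞 L)) {g : ℕ} (hg : 1 ≤ g)
    (hS : Algebra.adjoin ℚ ((fun x : 𝓞 L => (x : L)) '' S) = ⊤)
    (h2 : ∀ s ∈ S, ∃ t ∈ Algebra.adjoin ℤ S, s ^ (2 ^ g) - s = 2 * t) (x : 𝓞 L) :
    (2 : 𝓞 L) ∣ x ^ (2 ^ g) - x := by
  set A := Algebra.adjoin ℤ S with hA
  have hA2 : ∀ x ∈ A, ∃ t ∈ A, x ^ (2 ^ g) - x = 2 * t :=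
    adjoin_two A S Algebra.subset_adjoin h2
  have hsat : ∀ x : 𝓞 L, 2 * x ∈ A → x ∈ A := fun x hx =>
    two_saturated two_ne_zero A hg hA2 (RingOfIntegers.isIntegral x) hx
  have hsat' : ∀ (s : ℕ) (x : 𝓞 L), 2 ^ s * x ∈ A → x ∈ A := by
    intro s
    induction s with
    | zero => intro x hx; simpa using hx
    | succ s ih =>
      intro x hx
      apply hsat
      apply ih
      rw [pow_succ, mul_assoc] at hx
      exact hx
  obtain ⟨n, hn, a, ha, h1⟩ := exists_mul_mem S hS (x : L)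
  have h3 : (n : 𝓞 L) * x = a := by
    apply RingOfIntegers.ext
    simpa using h1
  obtain ⟨s, n', hn', hn2⟩ := Nat.exists_eq_two_pow_mul_odd hn.ne'
  have h4 : (n' : 𝓞 L) * x ∈ A := by
    apply hsat' s
    rw [← mul_assoc]
    have h5 : (2 : 𝓞 L) ^ s * (n' : 𝓞 L) = (n : 𝓞 L) := by
      rw [hn2]; push_cast; ring
    rw [h5, h3]
    exact ha
  obtain ⟨t, -, h6⟩ := hA2 _ h4
  obtain ⟨k, hk⟩ : (2 : 𝓞 L) ∣ (n' : 𝓞 L) ^ (2 ^ g) - 1 := by
    obtain ⟨k, hk⟩ : (2 : ℤ) ∣ (n' : ℤ) ^ (2 ^ g) - 1 := by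
      have h7 : Odd (n' : ℤ) := by exact_mod_cast hn'
      exact (Odd.sub_odd h7.pow odd_one).two_dvd
    refine ⟨k, ?_⟩
    have := congrArg (fun z : ℤ => (z : 𝓞 L)) hk
    push_cast at this
    exact this
  obtain ⟨l, hl⟩ := hn'
  refine ⟨t - k * x ^ (2 ^ g) + l * x, ?_⟩
  rw [mul_pow] at h6
  have hl' : (n' : 𝓞 L) = 2 * l + 1 := by rw [hl]; push_cast; ring
  linear_combination h6 - hk * x ^ (2 ^ g) + hl' * x

/-- the same for the subfields -/
theorem isReduced_sub {L : Type*} [Field L] [NumberField L] {g : ℕ} (hg : 1 ≤ g)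
    (hL : ∀ x : 𝓞 L, (2 : 𝓞 L) ∣ x ^ (2 ^ g) - x) (M : IntermediateField ℚ L) :
    IsReduced (𝓞 M ⧸ Ideal.span {(2 : 𝓞 M)}) := by
  apply reduced_of_pow (g := g) hg
  intro x
  obtain ⟨a, rfl⟩ := Ideal.Quotient.mk_surjective x
  rw [← map_pow, ← sub_eq_zero, ← map_sub, Ideal.Quotient.eq_zero_iff_mem,
    Ideal.mem_span_singleton]
  obtain ⟨b, hb⟩ := hL (algebraMap (𝓞 M) (𝓞 L) a)
  let t : M := ((a : M) ^ (2 ^ g) - a) / 2
  have ht2 : 2 * t = (a : M) ^ (2 ^ g) - a := by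
    simp only [t]
    rw [mul_div_cancel₀]
    exact two_ne_zero
  have ht : algebraMap M L t = (b : L) := by
    have h1 := congrArg (fun z : 𝓞 L => (z : L)) hb
    have h2 := congrArg (algebraMap M L) ht2
    have h3 : (2 : L) ≠ 0 := two_ne_zero
    apply mul_left_cancel₀ h3
    rw [map_mul, map_ofNat] at h2
    rw [h2]
    simp only [map_sub, map_pow, map_mul, map_ofNat] at h1 ⊢
    exact h1
  have hint : IsIntegral ℤ t := by
    rw [← isIntegral_algebraMap_iff (algebraMap M L).injective, ht]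
    exact b.2
  refine ⟨⟨t, hint⟩, ?_⟩
  apply RingOfIntegers.ext
  simp only [map_sub, map_pow, map_mul, map_ofNat]
  exact ht2.symm

end Pool.Agent.helper95.LK
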