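import Pool.Agent.helper95.LK.NFB
import Pool.Agent.helper95.LK.Red
import Pool.Agent.helper95.LK.GalRes
import Pool.Agent.helper95.LC.Prime

/-! # The bound for a Galois number field with small generators -/

namespace Pool.Agent.helper95.LK

open Pool.Agent.helper11.SG NumberField Pool.Agent.helper95.LC

/-- powers of an algebraic element -/
lemma pow_mem_span {L : Type*} [Field L] [Algebra ℚ L] (x : L) {D : ℕ}
    (f : Polynomial ℤ) (hf : f.Monic) (hfD : f.natDegree = D) (hfx : Polynomial.aeval x f = 0)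
    (j : ℕ) : x ^ j ∈ Submodule.span ℚ (Set.range fun i : Fin D => x ^ (i : ℕ)) := by
  set q : Polynomial ℚ := f.map (Int.castRingHom ℚ) with hq
  have hqm : q.Monic := hf.map _
  have hqd : q.natDegree = D := by rw [hq, hf.natDegree_map, hfD]
  have hqx : Polynomial.aeval x q = 0 := by
    have h1 : Polynomial.aeval x q = Polynomial.aeval x f := by
      rw [hq]
      exact Polynomial.aeval_map_algebraMap ℚ x f
    rw [h1, hfx]
  have h1 : x ^ j = Polynomial.aeval x ((Polynomial.X ^ j : Polynomial ℚ) %ₘ q) := by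
    rw [Polynomial.aeval_modByMonic_eq_self_of_root hqx, map_pow, Polynomial.aeval_X]
  rw [h1]
  rcases Nat.eq_zero_or_pos D with hD | hD
  · have h2 : q = 1 := Polynomial.eq_one_of_monic_natDegree_zero hqm (by rw [hqd, hD])
    rw [h2, Polynomial.modByMonic_one, map_zero]
    exact Submodule.zero_mem _
  · have h2 : ((Polynomial.X ^ j : Polynomial ℚ) %ₘ q).natDegree < D := by
      rw [← hqd]
      apply Polynomial.natDegree_modByMonic_lt _ hqm
      intro h3
      rw [h3, Polynomial.natDegree_one] at hqd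
      omega
    rw [Polynomial.aeval_eq_sum_range' h2]
    apply Submodule.sum_mem
    intro i hi
    apply Submodule.smul_mem
    exact Submodule.subset_span ⟨⟨i, Finset.mem_range.1 hi⟩, rfl⟩

/-- the monomials in the generators -/
noncomputable def mono {R : Type*} [CommRing R] {κ : Type*} [Fintype κ] (s : κ → R) {D : ℕ}
    (e : κ → Fin D) : R := ∏ k, s k ^ ((e k : Fin D) : ℕ)

lemma span_mono {L : Type*} [Field L] [Algebra ℚ L] {κ : Type*} [Fintype κ] (s : κ → L)
    {D : ℕ} (hD0 : 0 < D)
    (hD : ∀ k, ∃ f : Polynomial ℤ, f.Monic ∧ f.natDegree = D ∧ Polynomial.aeval (s k) f = 0)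
    (hgen : Algebra.adjoin ℚ (Set.range s) = ⊤) :
    ⊤ ≤ Submodule.span ℚ (Set.range fun e : κ → Fin D => mono s e) := by
  classical
  set W := Submodule.span ℚ (Set.range fun e : κ → Fin D => mono s e) with hW
  have h1W : (1 : L) ∈ W := by
    apply Submodule.subset_span
    refine ⟨fun _ => ⟨0, hD0⟩, ?_⟩
    simp [mono]
  -- multiplication by a generator
  have hmul : ∀ k, ∀ w ∈ W, s k * w ∈ W := by
    intro k w hw
    induction hw using Submodule.span_induction with
    | mem w hw =>
      obtain ⟨e, rfl⟩ := hw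
      obtain ⟨f, hf, hfD, hfx⟩ := hD k
      have h1 : ∀ i : Fin D, mono s (Function.update e k i) =
          s k ^ (i : ℕ) * ∏ k' ∈ Finset.univ.erase k, s k' ^ ((e k' : Fin D) : ℕ) := by
        intro i
        simp only [mono]
        rw [← Finset.mul_prod_erase _ _ (Finset.mem_univ k), Function.update_self]
        congr 1
        apply Finset.prod_congr rfl
        intro k' hk'
        rw [Function.update_of_ne (Finset.ne_of_mem_erase hk')]
      have h2 : ∀ y ∈ Submodule.span ℚ (Set.range fun i : Fin D => s k ^ (i : ℕ)),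
          y * ∏ k' ∈ Finset.univ.erase k, s k' ^ ((e k' : Fin D) : ℕ) ∈ W := by
        intro y hy
        induction hy using Submodule.span_induction with
        | mem y hy =>
          obtain ⟨i, rfl⟩ := hy
          change s k ^ (i : ℕ) * _ ∈ W
          rw [← h1 i]
          exact Submodule.subset_span ⟨_, rfl⟩
        | zero => rw [zero_mul]; exact W.zero_mem
        | add y z _ _ hy hz => rw [add_mul]; exact W.add_mem hy hz
        | smul c y _ hy => rw [smul_mul_assoc]; exact W.smul_mem _ hy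
      have h3 : s k * mono s e = s k ^ ((e k : ℕ) + 1) *
          ∏ k' ∈ Finset.univ.erase k, s k' ^ ((e k' : Fin D) : ℕ) := by
        have h4 := h1 (e k)
        rw [Function.update_eq_self] at h4
        rw [h4, pow_succ']
        ring
      change s k * mono s e ∈ W
      rw [h3]
      exact h2 _ (pow_mem_span (s k) f hf hfD hfx _)
    | zero => rw [mul_zero]; exact W.zero_mem
    | add y z _ _ hy hz => rw [mul_add]; exact W.add_mem hy hz
    | smul c y _ hy => rw [mul_smul_comm]; exact W.smul_mem _ hy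
  have hall : ∀ x ∈ Algebra.adjoin ℚ (Set.range s), ∀ w ∈ W, x * w ∈ W := by
    intro x hx
    induction hx using Algebra.adjoin_induction with
    | mem x hx =>
      obtain ⟨k, rfl⟩ := hx
      exact hmul k
    | algebraMap c =>
      intro w hw
      rw [← Algebra.smul_def]
      exact W.smul_mem _ hw
    | add x y _ _ hx hy =>
      intro w hw
      rw [add_mul]
      exact W.add_mem (hx w hw) (hy w hw)
    | mul x y _ _ hx hy =>
      intro w hw
      rw [mul_assoc]
      exact hx _ (hy w hw)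
  intro x _
  have h1 := hall x (by rw [hgen]; exact Algebra.mem_top) 1 h1W
  rwa [mul_one] at h1

/-- The bound for a Galois number field with small generators. -/
theorem galois_bound {L : Type*} [Field L] [NumberField L] [IsGalois ℚ L] {κ : Type*} [Fintype κ]
    (s : κ → 𝓞 L) {D : ℕ} (hD0 : 0 < D)
    (hD : ∀ k, ∃ f : Polynomial ℤ, f.Monic ∧ f.natDegree = D ∧ Polynomial.aeval (s k : L) f = 0)
    (hgen : Algebra.adjoin ℚ (Set.range fun k => ((s k : 𝓞 L) : L)) = ⊤) {g : ℕ} (hg : 1 ≤ g)
    (h2 : ∀ k, ∃ t ∈ Algebra.adjoin ℤ (Set.range s), (s k) ^ (2 ^ g) - s k = 2 * t)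
    {B : ℝ} (hB1 : 1 ≤ B) (hB : ∀ (w : L →+* ℂ) (k : κ), ‖w (s k : L)‖ ≤ B)
    {p : ℕ} [hp : Fact p.Prime] (P : Ideal (𝓞 L)) [hP : P.IsMaximal] (hpP : (p : 𝓞 L) ∈ P)
    {h e : ℕ} (hh : 1 ≤ h) (he : 1 ≤ e) (hcardk : Nat.card (𝓞 L ⧸ P) = p ^ (h * e))
    (hin : ∀ σ : Gal(L/ℚ), (∀ x : 𝓞 L, σ • x - x ∈ P) → σ = 1)
    (F : Type*) [Field F] [Finite F] (hF : Nat.card F = p ^ h) :
    ∃ k : ℕ, (Nat.card F : ℝ) ^ (3 / 2 : ℝ) ≤
      (14 * (D ^ Fintype.card κ : ℕ) * ((D ^ Fintype.card κ : ℕ) * B ^ (D * Fintype.card κ))) ^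
        (3 * D ^ Fintype.card κ) * k ∧ Big F k := by
  classical
  set N := D ^ Fintype.card κ with hN
  have hspan := span_mono (fun k => ((s k : 𝓞 L) : L)) hD0 hD hgen
  have hcoe : ∀ e : κ → Fin D, ((mono s e : 𝓞 L) : L) = mono (fun k => ((s k : 𝓞 L) : L)) e := by
    intro e
    simp only [mono, map_prod, map_pow]
  have hnL : Module.finrank ℚ L ≤ N := by
    have h1 := finrank_range_le_card (R := ℚ) (fun e : κ → Fin D => mono (fun k => ((s k : 𝓞 L) : L)) e)
    rw [Set.finrank, top_le_iff.1 hspan, finrank_top, Fintype.card_fun, Fintype.card_fin] at h1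
    exact h1
  have hmonoB : ∀ (w : L →+* ℂ) (e : κ → Fin D), ‖w (mono s e : 𝓞 L)‖ ≤ B ^ (D * Fintype.card κ) := by
    intro w e
    rw [hcoe]
    simp only [mono, map_prod, map_pow, norm_prod, norm_pow]
    have h1 : ∀ k ∈ (Finset.univ : Finset κ), ‖w (s k : L)‖ ^ ((e k : Fin D) : ℕ) ≤ B ^ D := by
      intro k _
      calc ‖w (s k : L)‖ ^ ((e k : Fin D) : ℕ) ≤ B ^ ((e k : Fin D) : ℕ) :=
            pow_le_pow_left₀ (norm_nonneg _) (hB w k) _
        _ ≤ B ^ D := pow_le_pow_right₀ hB1 (e k).2.le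
    refine (Finset.prod_le_prod (fun k _ => by positivity) h1).trans ?_
    rw [Finset.prod_const, Finset.card_univ, ← pow_mul]
  have hred : ∀ x : 𝓞 L, (2 : 𝓞 L) ∣ x ^ (2 ^ g) - x := by
    apply two_dvd_gen (Set.range s) hg
    · rw [← Set.range_comp]
      exact hgen
    · rintro _ ⟨k, rfl⟩
      exact h2 k
  obtain ⟨σ, hσe, hσ⟩ := galois_subfield P hpP hh he hcardk hin
  obtain ⟨φ, hφ⟩ := hσ F hF
  have hMred := isReduced_sub hg hred (IntermediateField.fixedField (Subgroup.zpowers σ))
  generalize hMM : IntermediateField.fixedField (Subgroup.zpowers σ) = M at *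
  have hmem : ∀ y : L, y ∈ M ↔ ∀ τ ∈ Subgroup.zpowers σ, τ y = y := by
    intro y
    rw [← hMM]
    exact IntermediateField.mem_fixedField_iff _ y
  -- traces
  set o := orderOf σ with ho
  have ho0 : 0 < o := orderOf_pos σ
  have hoN : o ≤ N := by
    have h1 : orderOf σ ≤ Nat.card Gal(L/ℚ) := orderOf_le_card
    rw [IsGalois.card_aut_eq_finrank] at h1
    exact h1.trans hnL
  let T : 𝓞 L → 𝓞 L := fun b => ∑ j ∈ Finset.range o, σ ^ j • b
  have hTfix : ∀ b, σ • T b = T b := by
    intro b
    simp only [T, Finset.smul_sum]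
    obtain ⟨o', ho'⟩ : ∃ o', o = o' + 1 := ⟨o - 1, by omega⟩
    rw [ho', Finset.sum_range_succ, Finset.sum_range_succ']
    congr 1
    · apply Finset.sum_congr rfl
      intro j _
      rw [← mul_smul, ← pow_succ']
    · rw [← mul_smul, ← pow_succ', ← ho', pow_orderOf_eq_one, pow_zero]
  have hTM : ∀ b, (T b : L) ∈ M := by
    intro b
    rw [hmem]
    intro τ hτ
    have h1 : Subgroup.zpowers σ ≤ MulAction.stabilizer Gal(L/ℚ) (T b) := by
      rw [Subgroup.zpowers_le]
      exact hTfix b
    have h3 : τ • T b = T b := h1 hτ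
    exact congrArg (fun z : 𝓞 L => (z : L)) h3
  have hint : ∀ b, IsIntegral ℤ (⟨(T b : L), hTM b⟩ : M) := by
    intro b
    rw [← isIntegral_algebraMap_iff (algebraMap M L).injective]
    exact (T b).2
  let u : (κ → Fin D) → 𝓞 M := fun e => ⟨⟨(T (mono s e) : L), hTM _⟩, hint _⟩
  have hu0 : ∀ e, (((u e : 𝓞 M) : M) : L) = ∑ j ∈ Finset.range o, (σ ^ j) ((mono s e : 𝓞 L) : L) := by
    intro e
    change ((T (mono s e) : 𝓞 L) : L) = _
    simp only [T, map_sum]
    rfl
  have huspan : ⊤ ≤ Submodule.span ℚ (Set.range fun i => ((u i : 𝓞 M) : M)) := by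
    intro x _
    have hx : (x : L) ∈ Submodule.span ℚ
        (Set.range fun e : κ → Fin D => mono (fun k => ((s k : 𝓞 L) : L)) e) := hspan trivial
    rw [Submodule.mem_span_range_iff_exists_fun] at hx
    obtain ⟨c, hc⟩ := hx
    have h1 : (o : ℚ) • x ∈ Submodule.span ℚ (Set.range fun i => ((u i : 𝓞 M) : M)) := by
      have h3 : (o : ℚ) • x = ∑ i, c i • ((u i : 𝓞 M) : M) := by
        apply (algebraMap M L).injective
        rw [map_sum]
        have h4 : ∀ i, (algebraMap M L) (c i • ((u i : 𝓞 M) : M)) =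
            ∑ j ∈ Finset.range o, (σ ^ j) (c i • ((mono s i : 𝓞 L) : L)) := by
          intro i
          have h5 : (algebraMap M L) (c i • ((u i : 𝓞 M) : M)) =
              c i • (((u i : 𝓞 M) : M) : L) := by
            rw [Algebra.smul_def, map_mul, Algebra.smul_def]
            rfl
          rw [h5, hu0, Finset.smul_sum]
          apply Finset.sum_congr rfl
          intro j _
          rw [Algebra.smul_def, Algebra.smul_def, map_mul, AlgEquiv.commutes]
        simp only [h4]
        rw [Finset.sum_comm]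
        have h6 : ∀ j ∈ Finset.range o, ∑ i, (σ ^ j) (c i • ((mono s i : 𝓞 L) : L)) = (x : L) := by
          intro j _
          rw [← map_sum]
          have h7 : ∑ i, c i • ((mono s i : 𝓞 L) : L) = (x : L) := by
            rw [← hc]
            apply Finset.sum_congr rfl
            intro i _
            rw [hcoe]
          rw [h7]
          exact (hmem _).1 x.2 _ (Subgroup.npow_mem_zpowers σ j)
        rw [Finset.sum_congr rfl h6, Finset.sum_const, Finset.card_range, Algebra.smul_def,
          map_mul, nsmul_eq_mul]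
        simp
      rw [h3]
      exact Submodule.sum_mem _ fun i _ => Submodule.smul_mem _ _ (Submodule.subset_span ⟨i, rfl⟩)
    have h8 : x = (o : ℚ)⁻¹ • ((o : ℚ) • x) := by
      rw [smul_smul, inv_mul_cancel₀ (by exact_mod_cast ho0.ne'), one_smul]
    rw [h8]
    exact Submodule.smul_mem _ _ h1
  have hR : ∀ (v : M →ₐ[ℚ] ℂ) (i : κ → Fin D), ‖emb M v (u i)‖ ≤ N * B ^ (D * Fintype.card κ) := by
    intro v i
    obtain ⟨w, hw⟩ := exists_ext M v
    have h1 : emb M v (u i) = ∑ j ∈ Finset.range o, w ((σ ^ j) ((mono s i : 𝓞 L) : L)) := by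
      rw [← map_sum, ← hu0, ← hw]
      rfl
    rw [h1]
    refine (norm_sum_le _ _).trans ?_
    have h3 : ∀ j ∈ Finset.range o, ‖w ((σ ^ j) ((mono s i : 𝓞 L) : L))‖ ≤ B ^ (D * Fintype.card κ) := by
      intro j _
      exact hmonoB (w.comp ((σ ^ j : Gal(L/ℚ)) : L →+* L)) i
    refine (Finset.sum_le_sum h3).trans ?_
    rw [Finset.sum_const, Finset.card_range, nsmul_eq_mul]
    apply mul_le_mul_of_nonneg_right _ (by positivity)
    exact_mod_cast hoN
  have hN0 : 0 < N := by positivity
  have hN1 : (1 : ℝ) ≤ N := by exact_mod_cast hN0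
  have hBp : (1 : ℝ) ≤ B ^ (D * Fintype.card κ) := one_le_pow₀ hB1
  have hR1 : (1 : ℝ) ≤ N * B ^ (D * Fintype.card κ) := by nlinarith
  obtain ⟨k, hk, hBig⟩ := numberField_explicit u huspan _ hR1 hR F φ hφ
  refine ⟨k, hk.trans ?_, hBig⟩
  apply mul_le_mul_of_nonneg_right _ (by positivity)
  have hnM : Module.finrank ℚ M ≤ N := by
    have h1 : Module.finrank ℚ M ≤ Module.finrank ℚ L :=
      Submodule.finrank_le (Subalgebra.toSubmodule M.toSubalgebra)
    exact h1.trans hnL
  have hnM' : (Module.finrank ℚ M : ℝ) ≤ N := by exact_mod_cast hnM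
  have hnM0 : 0 < Module.finrank ℚ M := Module.finrank_pos
  have hnM1 : (1 : ℝ) ≤ Module.finrank ℚ M := by exact_mod_cast hnM0
  calc (14 * (Module.finrank ℚ M : ℝ) * (N * B ^ (D * Fintype.card κ))) ^
        (3 * Module.finrank ℚ M)
      ≤ (14 * (N : ℝ) * (N * B ^ (D * Fintype.card κ))) ^ (3 * Module.finrank ℚ M) := by
        apply pow_le_pow_left₀ (by positivity)
        gcongr
    _ ≤ (14 * (N : ℝ) * (N * B ^ (D * Fintype.card κ))) ^ (3 * N) := by
        apply pow_le_pow_right₀
        · nlinarith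
        · omega

end Pool.Agent.helper95.LK
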