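import Pool.Agent.helper95.LC.NF

/-! # An explicit bound from a spanning set of small integers -/

namespace Pool.Agent.helper95.LK

open Pool.Agent.helper11.SG NumberField Pool.Agent.helper95.LC

/-- small representatives modulo two -/
lemma exists_rep_small {M : Type*} [Field M] [NumberField M] {ι : Type*} (u : ι → 𝓞 M)
    (hu : ⊤ ≤ Submodule.span ℚ (Set.range fun i => ((u i : 𝓞 M) : M))) (R : ℝ)
    (hR : ∀ (v : M →ₐ[ℚ] ℂ) (i : ι), ‖emb M v (u i)‖ ≤ R) (a : 𝓞 M) :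
    ∃ s : 𝓞 M, (2 : 𝓞 M) ∣ a - s ∧
      ∀ v : M →ₐ[ℚ] ℂ, ‖emb M v s‖ ≤ 2 * Module.finrank ℚ M * R := by
  classical
  let b := Module.Basis.ofSpan hu
  have hfin : Fintype (((linearIndepOn_empty ℚ id).extend
      (Set.empty_subset (Set.range fun i => ((u i : 𝓞 M) : M))) : Set M)) :=
    FiniteDimensional.fintypeBasisIndex b
  have hidx : ∀ j, ∃ i, ((u i : 𝓞 M) : M) = b j := fun j =>
    Module.Basis.ofSpan_subset hu (Set.mem_range_self j)
  choose idx hidx using hidx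
  have hrep : ∑ j, b.repr (a : M) j • b j = (a : M) := b.sum_repr _
  set q := fun j => b.repr (a : M) j with hq
  let t : 𝓞 M := ∑ j, (⌊q j / 2⌋ : ℤ) • u (idx j)
  refine ⟨a - 2 * t, ⟨t, by ring⟩, ?_⟩
  intro v
  have h1 : emb M v (a - 2 * t) = ∑ j, (((q j - 2 * ⌊q j / 2⌋ : ℚ)) : ℂ) * emb M v (u (idx j)) := by
    have h2 : emb M v a = ∑ j, ((q j : ℚ) : ℂ) * emb M v (u (idx j)) := by
      change v (a : M) = _
      rw [← hrep, map_sum]
      apply Finset.sum_congr rfl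
      intro j _
      rw [← hidx, Algebra.smul_def, map_mul, AlgHom.commutes, eq_ratCast]
      rfl
    rw [map_sub, map_mul, map_ofNat, h2]
    simp only [t, map_sum, zsmul_eq_mul, map_mul, map_intCast]
    rw [Finset.mul_sum, ← Finset.sum_sub_distrib]
    apply Finset.sum_congr rfl
    intro j _
    push_cast
    ring
  rw [h1]
  refine (norm_sum_le _ _).trans ?_
  have h3 : ∀ j, ‖(((q j - 2 * ⌊q j / 2⌋ : ℚ)) : ℂ) * emb M v (u (idx j))‖ ≤ 2 * R := by
    intro j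
    rw [norm_mul]
    have h4 : ‖(((q j - 2 * ⌊q j / 2⌋ : ℚ)) : ℂ)‖ ≤ 2 := by
      have h5 : (0 : ℚ) ≤ q j - 2 * ⌊q j / 2⌋ := by
        have := Int.floor_le (q j / 2)
        linarith
      have h6 : q j - 2 * ⌊q j / 2⌋ ≤ (2 : ℚ) := by
        have := Int.lt_floor_add_one (q j / 2)
        linarith
      have h7 : ‖(((q j - 2 * ⌊q j / 2⌋ : ℚ)) : ℂ)‖ = |((q j - 2 * ⌊q j / 2⌋ : ℚ) : ℝ)| := by
        rw [← Complex.ofReal_ratCast, Complex.norm_real, Real.norm_eq_abs]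
      rw [h7, ← Rat.cast_abs, abs_of_nonneg h5]
      exact_mod_cast h6
    exact mul_le_mul h4 (hR v _) (norm_nonneg _) (by norm_num)
  refine (Finset.sum_le_sum fun j _ => h3 j).trans ?_
  rw [Finset.sum_const, Finset.card_univ, nsmul_eq_mul, ← Module.finrank_eq_card_basis b]
  linarith

/-- The bound for the residue fields of a number field in terms of a spanning set of small
integers. -/
theorem numberField_explicit {M : Type*} [Field M] [NumberField M]
    [IsReduced (𝓞 M ⧸ Ideal.span {(2 : 𝓞 M)})] {ι : Type*} (u : ι → 𝓞 M)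
    (hu : ⊤ ≤ Submodule.span ℚ (Set.range fun i => ((u i : 𝓞 M) : M))) (R : ℝ) (hR1 : 1 ≤ R)
    (hR : ∀ (v : M →ₐ[ℚ] ℂ) (i : ι), ‖emb M v (u i)‖ ≤ R) (F : Type*) [Field F] [Finite F]
    (φ : 𝓞 M →+* F) (hφ : Function.Surjective φ) :
    ∃ k : ℕ, (Nat.card F : ℝ) ^ (3 / 2 : ℝ) ≤
      (14 * Module.finrank ℚ M * R) ^ (3 * Module.finrank ℚ M) * k ∧ Big F k := by
  classical
  set n := Module.finrank ℚ M with hn
  have hn0 : 0 < n := Module.finrank_pos
  have hn1 : (1 : ℝ) ≤ n := by exact_mod_cast hn0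
  set E := 𝓞 M ⧸ Ideal.span {(2 : 𝓞 M)} with hE
  have hcard := card_two (K := M)
  have hfin : Finite E := Nat.finite_of_card_ne_zero (by rw [hcard]; positivity)
  let _ : Fintype E := Fintype.ofFinite E
  let ev : 𝓞 M →+* E := Ideal.Quotient.mk _
  have hev : Function.Surjective ev := Ideal.Quotient.mk_surjective
  have hrep : ∀ e : E, ∃ s : 𝓞 M, ev s = e ∧ ∀ v : M →ₐ[ℚ] ℂ, ‖emb M v s‖ ≤ 2 * n * R := by
    intro e
    obtain ⟨a, ha⟩ := hev e
    obtain ⟨s, hs, hb⟩ := exists_rep_small u hu R hR a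
    refine ⟨s, ?_, hb⟩
    rw [← ha]
    symm
    rw [← sub_eq_zero, ← map_sub]
    exact Ideal.Quotient.eq_zero_iff_mem.2 (Ideal.mem_span_singleton.2 hs)
  choose s hs hsb using hrep
  have h2E : (2 : E) = 0 := by
    have h1 : ev 2 = 0 := Ideal.Quotient.eq_zero_iff_mem.2 (Ideal.mem_span_singleton_self _)
    rw [map_ofNat] at h1
    exact h1
  have hCE : Fintype.card E = 2 ^ Fintype.card (M →ₐ[ℚ] ℂ) := by
    rw [← hcard, Nat.card_eq_fintype_card]
  have hVn : Fintype.card (M →ₐ[ℚ] ℂ) = n := AlgHom.card ℚ M ℂ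
  have hne : Nonempty (M →ₐ[ℚ] ℂ) := Fintype.card_pos_iff.1 (by rw [hVn]; exact hn0)
  have hC1 : (1 : ℝ) ≤ 2 * n * R := by nlinarith
  obtain ⟨k, hk, hB⟩ := big_of_prod (emb M) ev h2E (by norm_num) s hs (2 * n * R) hC1
    (fun v e => hsb e v) hCE φ (Nat.card F) (fun a ha h0 => card_le_prod φ hφ a ha h0)
  refine ⟨k, ?_, hB⟩
  rw [hVn] at hk
  have hM0 : (0 : ℝ) < (4 * (10 * (2 * n * R) ^ 2)) ^ n := by positivity
  have h1 : (Nat.card F : ℝ) = (4 * (10 * (2 * n * R) ^ 2)) ^ n *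
      (((4 * (10 * (2 * n * R) ^ 2)) ^ n)⁻¹ * Nat.card F) := by
    field_simp
  rw [h1, Real.mul_rpow hM0.le (by positivity)]
  apply mul_le_mul _ hk (by positivity) (by positivity)
  have h2 : ((14 * n * R : ℝ) ^ (3 * n)) = (((14 * n * R : ℝ) ^ 2) ^ n) ^ (3 / 2 : ℝ) := by
    rw [← pow_mul, ← Real.rpow_natCast, ← Real.rpow_natCast, ← Real.rpow_mul (by positivity)]
    congr 1
    push_cast
    ring
  rw [h2]
  apply Real.rpow_le_rpow hM0.le _ (by norm_num)
  apply pow_le_pow_left₀ (by positivity)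
  nlinarith [sq_nonneg (n * R : ℝ)]

end Pool.Agent.helper95.LK
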